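import Pool.Agent.Helper17.RV.Prm

set_option autoImplicit false

/-! # Integral points of height at most `T` on a nonlinear hypersurface: the bound -/

namespace Pool.Agent.Helper17.RV

open MvPolynomial Finset

/-- the numerical estimate for one prime -/
theorem per_prime (k D T p : ℕ) (hk : 1 ≤ k) (hp : 1 ≤ p) (α C3 : ℝ) (hT : 1 ≤ T)
    (hα : (k : ℝ) - 1 + α = (k : ℝ) - 1 / ((k : ℝ) + 2)) (hα1 : α ≤ 1) (hC3 : 0 ≤ C3)
    (hpT : (p : ℝ) ≤ C3 * (T : ℝ) ^ α) :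
    (((k * D * (2 * T / p + 1) ^ (k - 1)) * (D * p ^ k) : ℕ) : ℝ) ≤
      (k * D ^ 2 * (2 + C3) ^ (k - 1) * C3) * (T : ℝ) ^ ((k : ℝ) - 1 / ((k : ℝ) + 2)) := by
  have hTr : (1 : ℝ) ≤ T := by exact_mod_cast hT
  have hT0 : (0 : ℝ) < T := by linarith
  have hpr : (0 : ℝ) < p := by exact_mod_cast hp
  have hpT' : (p : ℝ) ≤ C3 * T := by
    refine hpT.trans (mul_le_mul_of_nonneg_left ?_ hC3)
    calc (T : ℝ) ^ α ≤ (T : ℝ) ^ (1 : ℝ) := Real.rpow_le_rpow_of_exponent_le hTr hα1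
      _ = T := Real.rpow_one _
  have h1 : ((2 * T / p + 1 : ℕ) : ℝ) ≤ (2 + C3) * T / p := by
    push_cast
    have h2 : ((2 * T / p : ℕ) : ℝ) ≤ 2 * T / p := by
      have := @Nat.cast_div_le ℝ _ _ _ (2 * T) p
      push_cast at this
      exact this
    have h3 : 1 ≤ C3 * T / p := by
      rw [le_div_iff₀ hpr, one_mul]
      exact hpT'
    calc ((2 * T / p : ℕ) : ℝ) + 1 ≤ 2 * T / p + C3 * T / p := add_le_add h2 h3
      _ = (2 + C3) * T / p := by ring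
  obtain ⟨j, rfl⟩ : ∃ j, k = j + 1 := ⟨k - 1, by omega⟩
  rw [Nat.add_sub_cancel]
  have h4 : (((2 * T / p + 1 : ℕ) : ℝ)) ^ j ≤ ((2 + C3) * T / p) ^ j :=
    pow_le_pow_left₀ (Nat.cast_nonneg _) h1 j
  have h5 : (T : ℝ) ^ (((j + 1 : ℕ) : ℝ) - 1 / (((j + 1 : ℕ) : ℝ) + 2)) = (T : ℝ) ^ j * (T : ℝ) ^ α := by
    rw [← hα, ← Real.rpow_natCast, ← Real.rpow_add hT0]
    congr 1
    push_cast
    ring
  rw [h5]
  have h6 : ((((j + 1) * D * (2 * T / p + 1) ^ j) * (D * p ^ (j + 1)) : ℕ) : ℝ) =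
      ((j + 1 : ℕ) : ℝ) * (D : ℝ) ^ 2 * (((2 * T / p + 1 : ℕ) : ℝ)) ^ j * (p : ℝ) ^ (j + 1) := by
    push_cast
    ring
  rw [h6]
  calc ((j + 1 : ℕ) : ℝ) * (D : ℝ) ^ 2 * (((2 * T / p + 1 : ℕ) : ℝ)) ^ j * (p : ℝ) ^ (j + 1)
      ≤ ((j + 1 : ℕ) : ℝ) * (D : ℝ) ^ 2 * ((2 + C3) * T / p) ^ j * (p : ℝ) ^ (j + 1) := by
        refine mul_le_mul_of_nonneg_right ?_ (by positivity)
        exact mul_le_mul_of_nonneg_left h4 (by positivity)
    _ = (((j + 1 : ℕ) : ℝ) * (D : ℝ) ^ 2 * (2 + C3) ^ j) * (T : ℝ) ^ j * p := by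
        rw [div_pow, mul_pow, pow_succ (p : ℝ) j]
        field_simp
    _ ≤ (((j + 1 : ℕ) : ℝ) * (D : ℝ) ^ 2 * (2 + C3) ^ j) * (T : ℝ) ^ j * (C3 * (T : ℝ) ^ α) :=
        mul_le_mul_of_nonneg_left hpT (by positivity)
    _ = _ := by ring

/-- **Integral points on a nonlinear hypersurface.** -/
theorem box {k : ℕ} (G : MvPolynomial (Fin (k + 1)) ℤ)
    (hNL : ∀ (i0 : Fin (k + 1)) (a : Fin k → ℚ) (a0 : ℚ),
      restr (map (Int.castRingHom ℚ) G) i0 a a0 ≠ 0) :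
    ∃ C : ℝ, 0 < C ∧ ∀ T : ℕ, 1 ≤ T → ∀ S : Finset (Fin (k + 1) → ℤ),
      (∀ P ∈ S, (∀ i, |P i| ≤ T) ∧ eval P G = 0 ∧ eval P (pderiv 0 G) ≠ 0) →
      (S.card : ℝ) ≤ C * (T : ℝ) ^ ((k : ℝ) - 1 / ((k : ℝ) + 2)) := by
  classical
  set D := G.totalDegree with hD
  set G' := pderiv 0 G with hG'
  set D' := G'.totalDegree with hD'
  set c1 : ℕ := (∑ m ∈ G'.support, |G'.coeff m|).toNat with hc1
  set f : ℕ := (k + 1).factorial * 2 ^ (k + 1) with hf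
  set α : ℝ := ((k : ℝ) + 1) / ((k : ℝ) + 2) with hα
  set r : ℕ := 2 * D' + 2 with hr
  set C2 : ℝ := f + c1 + 2 with hC2
  set C3 : ℝ := 2 ^ r * C2 with hC3
  have hk0 : (0 : ℝ) ≤ k := Nat.cast_nonneg k
  have hα1 : α ≤ 1 := by
    rw [hα, div_le_one (by linarith)]
    linarith
  have hα0 : 0 ≤ α := by positivity
  have hαe : (k : ℝ) - 1 + α = (k : ℝ) - 1 / ((k : ℝ) + 2) := by
    rw [hα]
    field_simp
    ring
  have hf1 : 1 ≤ f := by
    rw [hf]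
    exact Nat.one_le_iff_ne_zero.2 (by positivity)
  have hf1r : (1 : ℝ) ≤ f := by exact_mod_cast hf1
  have hC20 : 0 < C2 := by positivity
  have hC30 : 0 < C3 := by positivity
  refine ⟨r * (k * D ^ 2 * (2 + C3) ^ (k - 1) * C3) + 1, by positivity, fun T hT S hS => ?_⟩
  have hTr : (1 : ℝ) ≤ T := by exact_mod_cast hT
  have hT0 : (0 : ℝ) < T := by linarith
  -- the parameter `Q`
  set Y : ℝ := ((f : ℝ) * (T : ℝ) ^ (k + 1)) ^ ((1 : ℝ) / ((k : ℝ) + 2)) with hY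
  have hY0 : 0 ≤ Y := Real.rpow_nonneg (by positivity) _
  have hYpow : Y ^ (k + 2) = (f : ℝ) * (T : ℝ) ^ (k + 1) := by
    rw [hY, ← Real.rpow_natCast, ← Real.rpow_mul (by positivity)]
    have h1 : (1 : ℝ) / ((k : ℝ) + 2) * ((k + 2 : ℕ) : ℝ) = 1 := by
      push_cast
      field_simp
    rw [h1, Real.rpow_one]
  set Q : ℕ := ⌈Y⌉₊ + c1 + 1 with hQ
  have hQ1 : 1 ≤ Q := by omega
  have hYQ : Y < Q := by
    have h1 : Y ≤ ⌈Y⌉₊ := Nat.le_ceil Y
    have h2 : ((⌈Y⌉₊ : ℕ) : ℝ) < (Q : ℝ) := by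
      have : ⌈Y⌉₊ < Q := by omega
      exact_mod_cast this
    linarith
  have hQpow : f * T ^ (k + 1) < Q ^ (k + 2) := by
    have h1 : Y ^ (k + 2) < (Q : ℝ) ^ (k + 2) := pow_lt_pow_left₀ hYQ hY0 (by omega)
    rw [hYpow] at h1
    exact_mod_cast h1
  have hTQ : T < Q ^ 2 := by
    by_contra hno
    push Not at hno
    have h1 : (Q ^ 2) ^ (k + 2) ≤ T ^ (k + 2) := Nat.pow_le_pow_left hno _
    have h2 : T ^ (k + 1) < Q ^ (k + 2) :=
      lt_of_le_of_lt (Nat.le_mul_of_pos_left _ hf1) hQpow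
    have h3 : (T ^ (k + 1)) ^ 2 < (Q ^ (k + 2)) ^ 2 := Nat.pow_lt_pow_left h2 (by norm_num)
    have h4 : T ^ (k + 2) ≤ (T ^ (k + 1)) ^ 2 := by
      rw [← pow_mul]
      exact Nat.pow_le_pow_right hT (by omega)
    have h5 : (Q ^ 2) ^ (k + 2) = (Q ^ (k + 2)) ^ 2 := by
      rw [← pow_mul, ← pow_mul, mul_comm]
    omega
  have hQC : (Q : ℝ) ≤ C2 * (T : ℝ) ^ α := by
    have h1 : Y ≤ f * (T : ℝ) ^ α := by
      rw [hY, Real.mul_rpow (by positivity) (by positivity), ← Real.rpow_natCast,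
        ← Real.rpow_mul hT0.le]
      have h2 : ((k + 1 : ℕ) : ℝ) * (1 / ((k : ℝ) + 2)) = α := by
        rw [hα]
        push_cast
        ring
      rw [h2]
      refine mul_le_mul_of_nonneg_right ?_ (Real.rpow_nonneg hT0.le _)
      calc (f : ℝ) ^ ((1 : ℝ) / ((k : ℝ) + 2)) ≤ (f : ℝ) ^ (1 : ℝ) := by
            refine Real.rpow_le_rpow_of_exponent_le hf1r ?_
            rw [div_le_one (by linarith)]
            linarith
        _ = f := Real.rpow_one _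
    have h2 : (⌈Y⌉₊ : ℝ) ≤ Y + 1 := (Nat.ceil_lt_add_one hY0).le
    have h3 : (1 : ℝ) ≤ (T : ℝ) ^ α := Real.one_le_rpow hTr hα0
    rw [hQ, hC2]
    push_cast
    have h4 : (c1 : ℝ) ≤ c1 * (T : ℝ) ^ α := le_mul_of_one_le_right (Nat.cast_nonneg _) h3
    have h5 : ((f : ℝ) + c1 + 2) * (T : ℝ) ^ α = f * (T : ℝ) ^ α + c1 * (T : ℝ) ^ α +
      2 * (T : ℝ) ^ α := by ring
    rw [h5]
    linarith
  obtain ⟨PP, hPP1, hPP2⟩ := primes Q hQ1 r
  -- every point is nonsingular modulo one of the primes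
  have hex : ∀ P ∈ S, ∃ p ∈ PP, ¬ (p : ℤ) ∣ eval P G' := by
    intro P hP
    by_contra hno
    push Not at hno
    obtain ⟨h1, -, h3⟩ := hS P hP
    have h4 : ∏ p ∈ PP, p ∣ (eval P G').natAbs := by
      refine Finset.prod_primes_dvd _ (fun p hp => (hPP2 p hp).1.prime) fun p hp => ?_
      have := hno p hp
      exact Int.natCast_dvd.1 this
    have h5 := Nat.le_of_dvd (Int.natAbs_pos.2 h3) h4
    have h6 : Q ^ r ≤ ∏ p ∈ PP, p := by
      rw [← hPP1]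
      refine Finset.pow_card_le_prod _ _ _ fun p hp => (hPP2 p hp).2.1.le
    have h7 : (eval P G').natAbs ≤ c1 * T ^ D' := by
      have h8 := abs_eval_le' G' P T hT h1
      have h9 : (0 : ℤ) ≤ ∑ m ∈ G'.support, |G'.coeff m| :=
        Finset.sum_nonneg fun _ _ => abs_nonneg _
      have h10 : ((c1 : ℕ) : ℤ) = ∑ m ∈ G'.support, |G'.coeff m| := Int.toNat_of_nonneg h9
      rw [← h10, ← Int.natCast_natAbs] at h8
      exact_mod_cast h8
    have h8 : T ^ D' ≤ Q ^ (2 * D') := by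
      rw [pow_mul]
      exact Nat.pow_le_pow_left hTQ.le _
    have h9 : c1 * T ^ D' < Q ^ r := by
      calc c1 * T ^ D' ≤ c1 * Q ^ (2 * D') := Nat.mul_le_mul_left _ h8
        _ < Q * Q ^ (2 * D') := by
            refine Nat.mul_lt_mul_of_pos_right (by omega) (by positivity)
        _ = Q ^ (2 * D' + 1) := by ring
        _ ≤ Q ^ r := Nat.pow_le_pow_right hQ1 (by omega)
    omega
  have hsub : S ⊆ PP.biUnion fun p => S.filter (fun P => ¬ (p : ℤ) ∣ eval P G') := by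
    intro P hP
    obtain ⟨p, hp, h⟩ := hex P hP
    rw [Finset.mem_biUnion]
    exact ⟨p, hp, Finset.mem_filter.2 ⟨hP, h⟩⟩
  have h1 : S.card ≤ ∑ p ∈ PP, (k * D * (2 * T / p + 1) ^ (k - 1)) * (D * p ^ k) := by
    refine (Finset.card_le_card hsub).trans (Finset.card_biUnion_le.trans
      (Finset.sum_le_sum fun p hp => ?_))
    obtain ⟨hp1, hp2, hp3⟩ := hPP2 p hp
    refine card_nonsing G D le_rfl hNL p T hp1 ?_ _ (fun P hP => (hS P
      (Finset.mem_filter.1 hP).1).1) (fun P hP => (hS P (Finset.mem_filter.1 hP).1).2.1)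
      (fun P hP => (Finset.mem_filter.1 hP).2)
    calc (k + 1).factorial * (2 * T) ^ (k + 1) = f * T ^ (k + 1) := by
          rw [hf, mul_pow]
          ring
      _ < Q ^ (k + 2) := hQpow
      _ ≤ p ^ (k + 2) := Nat.pow_le_pow_left hp2.le _
  rcases Nat.eq_zero_or_pos k with hk | hk
  · have h2 : S.card ≤ 0 := by
      refine h1.trans (le_of_eq (Finset.sum_eq_zero fun p _ => ?_))
      rw [hk]
      simp
    have h3 : (S.card : ℝ) = 0 := by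
      have : S.card = 0 := Nat.le_zero.1 h2
      rw [this, Nat.cast_zero]
    rw [h3]
    positivity
  · have h2 : (S.card : ℝ) ≤ ∑ p ∈ PP, (k * D ^ 2 * (2 + C3) ^ (k - 1) * C3) *
        (T : ℝ) ^ ((k : ℝ) - 1 / ((k : ℝ) + 2)) := by
      refine (Nat.cast_le.2 h1).trans ?_
      rw [Nat.cast_sum]
      refine Finset.sum_le_sum fun p hp => ?_
      obtain ⟨hp1, hp2, hp3⟩ := hPP2 p hp
      refine per_prime k D T p hk hp1.one_lt.le α C3 hT hαe hα1 hC30.le ?_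
      have h4 : (p : ℝ) ≤ 2 ^ r * Q := by exact_mod_cast hp3
      refine h4.trans ?_
      rw [hC3, mul_assoc]
      exact mul_le_mul_of_nonneg_left hQC (by positivity)
    rw [Finset.sum_const, hPP1, nsmul_eq_mul] at h2
    refine h2.trans ?_
    have h5 : (0 : ℝ) ≤ (T : ℝ) ^ ((k : ℝ) - 1 / ((k : ℝ) + 2)) := by positivity
    nlinarith

end Pool.Agent.Helper17.RV
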