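import Pool.Agent.Helper17.RV.Alg
import Pool.Agent.Helper17.RV.Box
import Pool.Graph.R_pool_sql_team_seeded_620a6dc7.H148L.Count

set_option autoImplicit false

/-! # Integral points of height at most `T` on an affine variety: trivial bounds -/

namespace Pool.Agent.Helper17.RV

open MvPolynomial Finset

/-- the integral points on the closed subset defined by the ideal `I` -/
def OnV {N : ℕ} (I : Ideal (MvPolynomial (Fin N) ℚ)) (x : Fin N → ℤ) : Prop :=
  ∀ f ∈ I, eval (fun i => (x i : ℚ)) f = 0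

/-- evaluation at a point -/
noncomputable def evA {N : ℕ} (I : Ideal (MvPolynomial (Fin N) ℚ)) (x : Fin N → ℤ)
    (hx : OnV I x) : (MvPolynomial (Fin N) ℚ ⧸ I) →ₐ[ℚ] ℚ :=
  Ideal.Quotient.liftₐ I (aeval (fun i => (x i : ℚ))) (fun f hf => hx f hf)

theorem evA_mk {N : ℕ} (I : Ideal (MvPolynomial (Fin N) ℚ)) (x : Fin N → ℤ)
    (hx : OnV I x) (f : MvPolynomial (Fin N) ℚ) :
    evA I x hx (Ideal.Quotient.mk I f) = eval (fun i => (x i : ℚ)) f := rfl

theorem ev_comp {A : Type} [CommRing A] [Algebra ℚ A] {J : Type} (φ : A →ₐ[ℚ] ℚ) (b : J → A)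
    (c : MvPolynomial J ℚ) : φ (aeval b c) = eval (fun j => φ (b j)) c := by
  have h : φ.comp (aeval b) = aeval (fun j => φ (b j)) := by
    apply MvPolynomial.algHom_ext
    intro i
    simp
  exact DFunLike.congr_fun h c

/-- algebraic dependence -/
theorem dep {A : Type} [CommRing A] [Algebra ℚ A] {k : ℕ}
    (hk : Algebra.trdeg ℚ A = k) (ι : Type) [Fintype ι] (hι : k < Fintype.card ι) (y : ι → A) :
    ∃ g : MvPolynomial ι ℚ, g ≠ 0 ∧ aeval y g = 0 := by
  by_contra hno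
  push Not at hno
  have h1 : AlgebraicIndependent ℚ y := by
    refine (injective_iff_map_eq_zero _).2 fun g hg => ?_
    by_contra h2
    exact hno g h2 hg
  have h2 := h1.cardinalMk_le_trdeg
  rw [hk, Cardinal.mk_fintype] at h2
  have h3 : Fintype.card ι ≤ k := by exact_mod_cast h2
  omega

theorem count_gen {N : ℕ} (e : ℕ) (Z : (Fin N → ℤ) → Prop)
    (hZ : ∀ J : Finset (Fin N), J.card = e + 1 → ∃ g : MvPolynomial J ℚ, g ≠ 0 ∧
      ∀ x, Z x → eval (fun j : J => ((x j : ℤ) : ℚ)) g = 0) :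
    ∃ C : ℕ, ∀ T : ℕ, 1 ≤ T → ∀ S : Finset (Fin N → ℤ),
      (∀ x ∈ S, (∀ i, |x i| ≤ T) ∧ Z x) → S.card ≤ C * T ^ e := by
  classical
  have hZ' : ∀ J : Finset (Fin N), ∃ g : MvPolynomial J ℚ, J.card = e + 1 → g ≠ 0 ∧
      ∀ x, Z x → eval (fun j : J => ((x j : ℤ) : ℚ)) g = 0 := by
    intro J
    by_cases h : J.card = e + 1
    · obtain ⟨g, hg⟩ := hZ J h
      exact ⟨g, fun _ => hg⟩
    · exact ⟨0, fun h' => absurd h' h⟩
  choose g hg using hZ'
  set D : ℕ := Finset.univ.sup fun J : Finset (Fin N) => (g J).totalDegree with hD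
  obtain ⟨C, hC⟩ := Pool.Agent.H148L.count N e D
  refine ⟨C * 3 ^ e, fun T hT S hS => ?_⟩
  set Sq : Finset ℚ := (Finset.Icc (-(T : ℤ)) T).image (fun t : ℤ => (t : ℚ)) with hSq
  have hSc : Sq.card ≤ 3 * T := by
    refine Finset.card_image_le.trans ?_
    rw [Int.card_Icc]
    omega
  have hS1 : 1 ≤ Sq.card := by
    refine Finset.card_pos.2 ⟨0, ?_⟩
    rw [hSq, Finset.mem_image]
    exact ⟨0, Finset.mem_Icc.2 ⟨by omega, by omega⟩, by simp⟩
  have h1 := hC g (fun J hJ => ⟨(hg J hJ).1, Finset.le_sup (f := fun J : Finset (Fin N) =>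
    (g J).totalDegree) (Finset.mem_univ J)⟩) Sq hS1
  have h2 : S.card ≤ (Pool.Agent.H148L.Zf (e + 1) Sq g).card := by
    refine Finset.card_le_card_of_injOn (fun x i => ((x i : ℤ) : ℚ)) ?_ ?_
    · intro x hx
      rw [Finset.mem_coe] at hx
      obtain ⟨hx1, hx2⟩ := hS x hx
      unfold Pool.Agent.H148L.Zf Pool.Agent.H148L.grid
      rw [Finset.mem_coe, Finset.mem_filter, Fintype.mem_piFinset]
      refine ⟨fun i => ?_, fun J hJ => (hg J hJ).2 x hx2⟩
      rw [hSq, Finset.mem_image]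
      exact ⟨x i, Finset.mem_Icc.2 (abs_le.1 (hx1 i)), rfl⟩
    · intro x _ x' _ h
      funext i
      have h3 : ((x i : ℤ) : ℚ) = ((x' i : ℤ) : ℚ) := congrFun h i
      exact_mod_cast h3
  calc S.card ≤ C * Sq.card ^ e := h2.trans h1
    _ ≤ C * (3 * T) ^ e := Nat.mul_le_mul_left _ (Nat.pow_le_pow_left hSc e)
    _ = C * 3 ^ e * T ^ e := by rw [mul_pow, mul_assoc]

/-- the trivial bound -/
theorem count_all {N : ℕ} (I : Ideal (MvPolynomial (Fin N) ℚ)) {k : ℕ}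
    (hk : Algebra.trdeg ℚ (MvPolynomial (Fin N) ℚ ⧸ I) = k) :
    ∃ C : ℕ, ∀ T : ℕ, 1 ≤ T → ∀ S : Finset (Fin N → ℤ),
      (∀ x ∈ S, (∀ i, |x i| ≤ T) ∧ OnV I x) → S.card ≤ C * T ^ k := by
  refine count_gen k (OnV I) fun J hJ => ?_
  obtain ⟨g, hg0, hg⟩ := dep hk J (by rw [Fintype.card_coe, hJ]; omega)
    (fun j => Ideal.Quotient.mk I (X (j : Fin N)))
  refine ⟨g, hg0, fun x hx => ?_⟩
  have h1 := congrArg (evA I x hx) hg
  rw [map_zero, ev_comp] at h1
  rw [← h1]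
  congr 1
  congr 1
  funext j
  show _ = evA I x hx (Ideal.Quotient.mk I (X (j : Fin N)))
  rw [evA_mk, eval_X]

/-- elimination -/
theorem elim {A : Type} [CommRing A] [IsDomain A] [Algebra ℚ A] {J : Type} (b : J → A)
    (h : A) (hh : h ≠ 0) : ∀ (d : ℕ) (Q : Polynomial (MvPolynomial J ℚ)), Q.natDegree ≤ d →
      Q ≠ 0 → Polynomial.eval₂ ((aeval b : MvPolynomial J ℚ →ₐ[ℚ] A) : MvPolynomial J ℚ →+* A) h Q = 0 →
      ∃ c : MvPolynomial J ℚ, c ≠ 0 ∧ ∀ φ : A →ₐ[ℚ] ℚ, φ h = 0 →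
        eval (fun j => φ (b j)) c = 0 := by
  intro d
  induction d with
  | zero =>
    intro Q hd hQ h0
    rw [Polynomial.eq_C_of_natDegree_le_zero hd] at h0 hQ
    rw [Polynomial.eval₂_C] at h0
    refine ⟨Q.coeff 0, fun h1 => hQ (by rw [h1, Polynomial.C_0]), fun φ _ => ?_⟩
    have h1 := congrArg φ h0
    rw [map_zero] at h1
    rw [← h1]
    exact (ev_comp φ b (Q.coeff 0)).symm
  | succ d ih =>
    intro Q hd hQ h0
    have h1 := Polynomial.divX_mul_X_add Q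
    rw [← h1, Polynomial.eval₂_add, Polynomial.eval₂_mul_X, Polynomial.eval₂_C] at h0
    by_cases hc : Q.coeff 0 = 0
    · rw [hc, map_zero, add_zero] at h0
      have h2 := (mul_eq_zero.1 h0).resolve_right hh
      have h3 : Q.divX ≠ 0 := by
        intro h4
        apply hQ
        rw [← h1, h4, hc]
        simp
      refine ih Q.divX ?_ h3 h2
      rw [Polynomial.natDegree_divX_eq_natDegree_tsub_one]
      omega
    · refine ⟨Q.coeff 0, hc, fun φ hφ => ?_⟩
      have h2 := congrArg φ h0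
      rw [map_add, map_mul, hφ, mul_zero, zero_add, map_zero] at h2
      rw [← h2]
      exact (ev_comp φ b (Q.coeff 0)).symm

/-- the points where a function vanishes -/
theorem count_zero {N : ℕ} (I : Ideal (MvPolynomial (Fin N) ℚ)) [I.IsPrime] {k : ℕ}
    (hk : Algebra.trdeg ℚ (MvPolynomial (Fin N) ℚ ⧸ I) = (k + 1 : ℕ))
    (h : MvPolynomial (Fin N) ℚ) (hh : h ∉ I) :
    ∃ C : ℕ, ∀ T : ℕ, 1 ≤ T → ∀ S : Finset (Fin N → ℤ),
      (∀ x ∈ S, (∀ i, |x i| ≤ T) ∧ (OnV I x ∧ eval (fun i => (x i : ℚ)) h = 0)) →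
      S.card ≤ C * T ^ k := by
  classical
  refine count_gen k (fun x => OnV I x ∧ eval (fun i => (x i : ℚ)) h = 0) fun J hJ => ?_
  set b : J → (MvPolynomial (Fin N) ℚ ⧸ I) := fun j => Ideal.Quotient.mk I (X (j : Fin N)) with hb
  set hA : MvPolynomial (Fin N) ℚ ⧸ I := Ideal.Quotient.mk I h with hhA
  have hhA0 : hA ≠ 0 := by
    intro h1
    exact hh (Ideal.Quotient.eq_zero_iff_mem.1 h1)
  obtain ⟨q, hq0, hq⟩ := dep hk (Option J) (by rw [Fintype.card_option, Fintype.card_coe, hJ]; omega)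
    (fun o => o.elim hA b)
  set Q := optionEquivLeft ℚ J q with hQ
  have hQ0 : Q ≠ 0 := by
    intro h1
    exact hq0 ((optionEquivLeft ℚ J).injective (by rw [← hQ, h1, map_zero]))
  have hQe : Polynomial.eval₂ ((aeval b : MvPolynomial J ℚ →ₐ[ℚ] _) :
      MvPolynomial J ℚ →+* (MvPolynomial (Fin N) ℚ ⧸ I)) hA Q = 0 := by
    have h1 : (Polynomial.eval₂RingHom ((aeval b : MvPolynomial J ℚ →ₐ[ℚ] _) :
        MvPolynomial J ℚ →+* (MvPolynomial (Fin N) ℚ ⧸ I)) hA).comp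
        ((optionEquivLeft ℚ J : MvPolynomial (Option J) ℚ →+* Polynomial (MvPolynomial J ℚ))) =
        ((aeval (fun o : Option J => o.elim hA b) : MvPolynomial (Option J) ℚ →ₐ[ℚ] _) :
          MvPolynomial (Option J) ℚ →+* (MvPolynomial (Fin N) ℚ ⧸ I)) := by
      apply MvPolynomial.ringHom_ext
      · intro r
        simp
      · intro o
        rcases o with _ | j
        · simp
        · simp
    have h2 := DFunLike.congr_fun h1 q
    exact h2.trans hq
  obtain ⟨c, hc0, hc⟩ := elim b hA hhA0 Q.natDegree Q le_rfl hQ0 hQe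
  refine ⟨c, hc0, ?_⟩
  rintro x ⟨hx, hx0⟩
  have h1 := hc (evA I x hx) (by rw [hhA, evA_mk, hx0])
  rw [← h1]
  congr 1
  congr 1
  funext j
  rw [hb, evA_mk, eval_X]

end Pool.Agent.Helper17.RV
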