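import Mathlib

set_option autoImplicit false

/-! # Partial summation -/

namespace Pool.Agent.Helper17.RV

open Finset

theorem pow_diff (q : ℕ) (b : ℝ) (hb : 1 ≤ b) :
    1 / b ^ q - 1 / (b + 1) ^ q ≤ q * (1 / b ^ (q + 1)) := by
  have hb0 : 0 < b := by linarith
  have h1 : 1 - (q : ℝ) / (b + 1) ≤ (b / (b + 1)) ^ q := by
    have h2 := one_add_mul_le_pow (a := -(1 / (b + 1))) (by
      have : 1 / (b + 1) ≤ 1 := by
        rw [div_le_one (by linarith)]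
        linarith
      linarith) q
    have h3 : (1 + -(1 / (b + 1))) = b / (b + 1) := by
      field_simp
      ring
    rw [h3] at h2
    calc 1 - (q : ℝ) / (b + 1) = 1 + q * -(1 / (b + 1)) := by ring
      _ ≤ _ := h2
  have h4 : 1 / (b + 1) ^ q = 1 / b ^ q * (b / (b + 1)) ^ q := by
    rw [div_pow]
    field_simp
  rw [h4]
  have h5 : 1 / b ^ q - 1 / b ^ q * (b / (b + 1)) ^ q ≤ 1 / b ^ q * (q / (b + 1)) := by
    have h6 : 0 < 1 / b ^ q := by positivity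
    nlinarith
  refine h5.trans ?_
  have h7 : (q : ℝ) / (b + 1) ≤ q / b := by
    refine div_le_div_of_nonneg_left (Nat.cast_nonneg q) hb0 (by linarith)
  calc 1 / b ^ q * (q / (b + 1)) ≤ 1 / b ^ q * (q / b) :=
        mul_le_mul_of_nonneg_left h7 (by positivity)
    _ = q * (1 / b ^ (q + 1)) := by
        rw [pow_succ]
        field_simp

theorem abel (q : ℕ) (a : ℕ → ℝ) (T : ℕ) :
    ∑ b ∈ Finset.Icc 1 (T + 1), a b * (1 / (b : ℝ) ^ q) =
      (∑ b ∈ Finset.Icc 1 (T + 1), a b) * (1 / ((T : ℝ) + 1) ^ q) +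
      ∑ t ∈ Finset.Icc 1 T, (∑ b ∈ Finset.Icc 1 t, a b) *
        (1 / (t : ℝ) ^ q - 1 / ((t : ℝ) + 1) ^ q) := by
  induction T with
  | zero => simp
  | succ T ih =>
    have e1 : ∑ b ∈ Finset.Icc 1 (T + 1 + 1), a b * (1 / (b : ℝ) ^ q) =
        ∑ b ∈ Finset.Icc 1 (T + 1), a b * (1 / (b : ℝ) ^ q) +
          a (T + 1 + 1) * (1 / ((T + 1 + 1 : ℕ) : ℝ) ^ q) :=
      Finset.sum_Icc_succ_top (by omega) _
    have e2 : ∑ b ∈ Finset.Icc 1 (T + 1 + 1), a b =
        ∑ b ∈ Finset.Icc 1 (T + 1), a b + a (T + 1 + 1) :=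
      Finset.sum_Icc_succ_top (by omega) _
    have e3 : ∑ t ∈ Finset.Icc 1 (T + 1), (∑ b ∈ Finset.Icc 1 t, a b) *
        (1 / (t : ℝ) ^ q - 1 / ((t : ℝ) + 1) ^ q) =
        ∑ t ∈ Finset.Icc 1 T, (∑ b ∈ Finset.Icc 1 t, a b) *
          (1 / (t : ℝ) ^ q - 1 / ((t : ℝ) + 1) ^ q) +
          (∑ b ∈ Finset.Icc 1 (T + 1), a b) *
          (1 / ((T + 1 : ℕ) : ℝ) ^ q - 1 / (((T + 1 : ℕ) : ℝ) + 1) ^ q) :=
      Finset.sum_Icc_succ_top (by omega) _
    rw [e1, e2, e3, ih]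
    push_cast
    ring

/-- weighted sums -/
theorem sum_weight (A θ : ℝ) (hA : 0 ≤ A) (q : ℕ) (hθ : θ < q) :
    ∃ C : ℝ, 0 < C ∧ ∀ a : ℕ → ℝ, (∀ b, 0 ≤ a b) →
      (∀ T : ℕ, 1 ≤ T → ∑ b ∈ Finset.Icc 1 T, a b ≤ A * (T : ℝ) ^ θ) →
      ∀ T : ℕ, ∑ b ∈ Finset.Icc 1 T, a b * (1 / (b : ℝ) ^ q) ≤ C := by
  have hsum : Summable (fun n : ℕ => (n : ℝ) ^ (θ - q - 1)) :=
    Real.summable_nat_rpow.2 (by linarith)
  set Z : ℝ := ∑' n : ℕ, (n : ℝ) ^ (θ - q - 1) with hZ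
  have hZ0 : 0 ≤ Z := tsum_nonneg fun n => Real.rpow_nonneg (Nat.cast_nonneg n) _
  refine ⟨A + A * q * Z + 1, by positivity, fun a ha hT T => ?_⟩
  rcases Nat.eq_zero_or_pos T with h | h
  · subst h
    simp only [Finset.Icc_eq_empty_of_lt Nat.zero_lt_one, Finset.sum_empty]
    positivity
  · obtain ⟨T', rfl⟩ : ∃ T', T = T' + 1 := ⟨T - 1, by omega⟩
    rw [abel]
    have h1 : (∑ b ∈ Finset.Icc 1 (T' + 1), a b) * (1 / ((T' : ℝ) + 1) ^ q) ≤ A := by
      have h2 := hT (T' + 1) (by omega)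
      have h3 : (1 : ℝ) ≤ (T' : ℝ) + 1 := by
        have : (0 : ℝ) ≤ T' := Nat.cast_nonneg _
        linarith
      have h4 : ((T' + 1 : ℕ) : ℝ) ^ θ ≤ ((T' : ℝ) + 1) ^ q := by
        push_cast
        rw [← Real.rpow_natCast]
        exact Real.rpow_le_rpow_of_exponent_le h3 hθ.le
      rw [mul_one_div, div_le_iff₀ (by positivity)]
      exact h2.trans (mul_le_mul_of_nonneg_left h4 hA)
    have h2 : ∑ t ∈ Finset.Icc 1 T', (∑ b ∈ Finset.Icc 1 t, a b) *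
        (1 / (t : ℝ) ^ q - 1 / ((t : ℝ) + 1) ^ q) ≤ A * q * Z := by
      have h3 : ∀ t ∈ Finset.Icc 1 T', (∑ b ∈ Finset.Icc 1 t, a b) *
          (1 / (t : ℝ) ^ q - 1 / ((t : ℝ) + 1) ^ q) ≤ A * q * (t : ℝ) ^ (θ - q - 1) := by
        intro t ht
        have ht1 : 1 ≤ t := (Finset.mem_Icc.1 ht).1
        have htr : (1 : ℝ) ≤ t := by exact_mod_cast ht1
        have ht0 : (0 : ℝ) < t := by linarith
        have h4 := pow_diff q t htr
        have h5 : 0 ≤ ∑ b ∈ Finset.Icc 1 t, a b := Finset.sum_nonneg fun b _ => ha b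
        have h6 : (t : ℝ) ^ (θ - q - 1) = (t : ℝ) ^ θ * (1 / (t : ℝ) ^ (q + 1)) := by
          rw [one_div, ← Real.rpow_natCast, ← Real.rpow_neg ht0.le, ← Real.rpow_add ht0]
          congr 1
          push_cast
          ring
        calc (∑ b ∈ Finset.Icc 1 t, a b) * (1 / (t : ℝ) ^ q - 1 / ((t : ℝ) + 1) ^ q)
            ≤ (∑ b ∈ Finset.Icc 1 t, a b) * (q * (1 / (t : ℝ) ^ (q + 1))) :=
              mul_le_mul_of_nonneg_left h4 h5
          _ ≤ (A * (t : ℝ) ^ θ) * (q * (1 / (t : ℝ) ^ (q + 1))) :=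
              mul_le_mul_of_nonneg_right (hT t ht1) (by positivity)
          _ = A * q * (t : ℝ) ^ (θ - q - 1) := by
              rw [h6]
              ring
      refine (Finset.sum_le_sum h3).trans ?_
      rw [← Finset.mul_sum]
      refine mul_le_mul_of_nonneg_left ?_ (by positivity)
      exact hsum.sum_le_tsum _ (fun n _ => Real.rpow_nonneg (Nat.cast_nonneg n) _)
    linarith

/-- the sum over the points -/
theorem sum_points' (A θ : ℝ) (hA : 0 ≤ A) (D E : ℕ) (hθ : θ + E < D) :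
    ∃ C : ℝ, 0 < C ∧ ∀ a : ℕ → ℝ, (∀ b, 0 ≤ a b) →
      (∀ T : ℕ, 1 ≤ T → ∑ b ∈ Finset.Icc 1 T, a b ≤ A * (T : ℝ) ^ θ) →
      ∀ H B : ℕ, 1 ≤ H → 1 ≤ B →
        ∑ b ∈ Finset.Icc 1 B, a b * ((b : ℝ) ^ E / ((min b H : ℕ) : ℝ) ^ D) ≤
          C * (1 + (B : ℝ) ^ (θ + E) / (H : ℝ) ^ D) := by
  have hED : E ≤ D ∨ D < E := le_or_gt E D
  rcases hED with hED | hED
  · obtain ⟨q, hq⟩ : ∃ q, D = E + q := ⟨D - E, by omega⟩
    have hθq : θ < q := by
      rw [hq] at hθ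
      push_cast at hθ
      linarith
    obtain ⟨C, hC0, hC⟩ := sum_weight A θ hA q hθq
    refine ⟨C + A, by positivity, fun a ha hT H B hH hB => ?_⟩
    have hHr : (1 : ℝ) ≤ H := by exact_mod_cast hH
    have hBr : (1 : ℝ) ≤ B := by exact_mod_cast hB
    have hB0 : (0 : ℝ) < B := by linarith
    have key : ∀ b ∈ Finset.Icc 1 B, a b * ((b : ℝ) ^ E / ((min b H : ℕ) : ℝ) ^ D) ≤
        a b * (1 / (b : ℝ) ^ q) + a b * ((B : ℝ) ^ E / (H : ℝ) ^ D) := by
      intro b hb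
      obtain ⟨hb1, hb2⟩ := Finset.mem_Icc.1 hb
      have hbr : (1 : ℝ) ≤ b := by exact_mod_cast hb1
      have hbB : (b : ℝ) ≤ B := by exact_mod_cast hb2
      rw [← mul_add]
      refine mul_le_mul_of_nonneg_left ?_ (ha b)
      rcases le_total b H with h | h
      · rw [min_eq_left h]
        have h1 : (b : ℝ) ^ E / (b : ℝ) ^ D = 1 / (b : ℝ) ^ q := by
          rw [hq, pow_add]
          field_simp
        rw [h1]
        have h2 : 0 ≤ (B : ℝ) ^ E / (H : ℝ) ^ D := by positivity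
        linarith
      · rw [min_eq_right h]
        have h1 : (b : ℝ) ^ E / (H : ℝ) ^ D ≤ (B : ℝ) ^ E / (H : ℝ) ^ D := by
          refine div_le_div_of_nonneg_right ?_ (by positivity)
          exact pow_le_pow_left₀ (by linarith) hbB E
        have h2 : 0 ≤ 1 / (b : ℝ) ^ q := by positivity
        linarith
    refine (Finset.sum_le_sum key).trans ?_
    rw [Finset.sum_add_distrib, ← Finset.sum_mul]
    have h1 := hC a ha hT B
    have h2 := hT B hB
    have h3 : (∑ b ∈ Finset.Icc 1 B, a b) * ((B : ℝ) ^ E / (H : ℝ) ^ D) ≤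
        A * ((B : ℝ) ^ (θ + E) / (H : ℝ) ^ D) := by
      have h4 : (B : ℝ) ^ (θ + E) = (B : ℝ) ^ θ * (B : ℝ) ^ E := by
        rw [Real.rpow_add hB0, Real.rpow_natCast]
      rw [h4]
      calc (∑ b ∈ Finset.Icc 1 B, a b) * ((B : ℝ) ^ E / (H : ℝ) ^ D) ≤
            (A * (B : ℝ) ^ θ) * ((B : ℝ) ^ E / (H : ℝ) ^ D) :=
            mul_le_mul_of_nonneg_right h2 (by positivity)
        _ = _ := by ring
    have h5 : 0 ≤ (B : ℝ) ^ (θ + E) / (H : ℝ) ^ D := by positivity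
    nlinarith
  · -- the sums of `a` vanish
    have hθ0 : θ < 0 := by
      have : (D : ℝ) < E := by exact_mod_cast hED
      linarith
    refine ⟨1, one_pos, fun a ha hT H B hH hB => ?_⟩
    have ha0 : ∀ b, 1 ≤ b → a b = 0 := by
      intro b hb
      by_contra hne
      have hpos : 0 < a b := lt_of_le_of_ne (ha b) (Ne.symm hne)
      have h1 : Filter.Tendsto (fun T : ℕ => A * (T : ℝ) ^ θ) Filter.atTop (nhds (A * 0)) := by
        refine Filter.Tendsto.const_mul A ?_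
        have h2 := (tendsto_rpow_neg_atTop (y := -θ) (by linarith)).comp
          (tendsto_natCast_atTop_atTop (R := ℝ))
        simp only [neg_neg] at h2
        exact h2
      rw [mul_zero] at h1
      have h3 := (h1.eventually (gt_mem_nhds hpos)).and (Filter.eventually_ge_atTop b)
      obtain ⟨T, hT1, hT2⟩ := h3.exists
      have h4 := hT T (by omega)
      have h5 : a b ≤ ∑ b ∈ Finset.Icc 1 T, a b :=
        Finset.single_le_sum (fun b _ => ha b) (Finset.mem_Icc.2 ⟨hb, hT2⟩)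
      linarith
    rw [Finset.sum_eq_zero (fun b hb => by rw [ha0 b (Finset.mem_Icc.1 hb).1, zero_mul])]
    positivity

end Pool.Agent.Helper17.RV
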