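import Mathlib
import Pool.Graph.R_seed8.R870.RC.Defs

set_option autoImplicit false

/-! # Rational points on projective varieties, their sections and their covers: definitions -/

namespace Pool.Agent.Helper17.RV

open MvPolynomial Pool.Agent.R870.RC

variable {n : ℕ}

/-- the integral vectors on the cone over the projective variety `V` defined by the set `E` of
forms: `x ≠ 0` satisfies `InVar E x` if and only if the rational point `x` of projective `n`-space
lies on `V` -/
def InVar (E : Set (MvPolynomial (Fin (n + 1)) ℚ)) (x : Fin (n + 1) → ℤ) : Prop :=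
  ∀ P ∈ E, aeval (fun i => (x i : ℚ)) P = 0

/-- the ideal generated by the forms in `E` is generated by linear forms -/
def IsLin (E : Set (MvPolynomial (Fin (n + 1)) ℚ)) : Prop :=
  ∃ L : Set (MvPolynomial (Fin (n + 1)) ℚ), (∀ l ∈ L, l.IsHomogeneous 1) ∧
    Ideal.span E = Ideal.span L

/-- the systems `(F_1, …, F_s)` of forms of degrees `d_1, …, d_s` with integer coefficients of
absolute value at most `H` such that `V ∩ {F_1 = ⋯ = F_s = 0}` has a rational point of height at
most `B` -/
def SecPoint (E : Set (MvPolynomial (Fin (n + 1)) ℚ)) {s : ℕ} (d : Fin s → ℕ) (H B : ℕ) :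
    Set (Fin s → MvPolynomial (Fin (n + 1)) ℤ) :=
  {F | F ∈ Systems n d H ∧ ∃ x : Fin (n + 1) → ℤ, x ≠ 0 ∧ (∀ j, |x j| ≤ B) ∧ InVar E x ∧
    ∀ i, eval x (F i) = 0}

/-- the systems `(F_1, …, F_s)` of forms of degrees `k_i e_i` with integer coefficients of absolute
value at most `H` such that the cover `w_i ^ (k_i) = F_i (x)`, `i = 1, …, s`, of `V` has a rational
point over a point `x` of `V` of height at most `B` -/
def CovPoint (E : Set (MvPolynomial (Fin (n + 1)) ℚ)) {s : ℕ} (k e : Fin s → ℕ) (H B : ℕ) :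
    Set (Fin s → MvPolynomial (Fin (n + 1)) ℤ) :=
  {F | F ∈ Systems n (fun i => k i * e i) H ∧ ∃ x : Fin (n + 1) → ℤ, x ≠ 0 ∧ (∀ j, |x j| ≤ B) ∧
    InVar E x ∧ ∃ w : Fin s → ℚ, ∀ i, w i ^ k i = ((eval x (F i) : ℤ) : ℚ)}

end Pool.Agent.Helper17.RV
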