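import Pool.Agent.Helper17.RV.Sum
import Pool.Graph.R_seed8.R870.RC.Cov

set_option autoImplicit false

/-! # Random sections and covers: general upper and lower bounds -/

namespace Pool.Agent.Helper17.RV

open MvPolynomial Finset Pool.Agent.R870.RC

variable {n : ℕ}

/-- the primitive points of height `b` whose coordinate `i0` is the largest one -/
noncomputable def Xb (InV : (Fin (n + 1) → ℤ) → Prop) (i0 : Fin (n + 1)) (b : ℕ) :
    Finset (Fin (n + 1) → ℤ) := by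
  classical
  exact (Bx n i0 b).filter (fun x => Prim x i0 b ∧ InV x)

theorem mem_Xb {InV : (Fin (n + 1) → ℤ) → Prop} {i0 : Fin (n + 1)} {b : ℕ}
    {x : Fin (n + 1) → ℤ} : x ∈ Xb InV i0 b ↔ x ∈ Bx n i0 b ∧ Prim x i0 b ∧ InV x := by
  classical
  unfold Xb
  exact Finset.mem_filter

theorem sum_Xb (InV : (Fin (n + 1) → ℤ) → Prop) (A θ : ℝ)
    (hcount : ∀ T : ℕ, 1 ≤ T → ∀ S : Finset (Fin (n + 1) → ℤ),
      (∀ x ∈ S, (∀ i, |x i| ≤ T) ∧ InV x) → (S.card : ℝ) ≤ A * (T : ℝ) ^ θ)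
    (i0 : Fin (n + 1)) (T : ℕ) (hT : 1 ≤ T) :
    ∑ b ∈ Finset.Icc 1 T, ((Xb InV i0 b).card : ℝ) ≤ A * (T : ℝ) ^ θ := by
  classical
  have h1 : (((Finset.Icc 1 T).biUnion (Xb InV i0)).card : ℝ) =
      ∑ b ∈ Finset.Icc 1 T, ((Xb InV i0 b).card : ℝ) := by
    rw [Finset.card_biUnion, Nat.cast_sum]
    intro b _ b' _ hbb'
    rw [Function.onFun, Finset.disjoint_left]
    intro x hx hx'
    have h2 := (mem_Xb.1 hx).2.1.2.1
    have h3 := (mem_Xb.1 hx').2.1.2.1
    rw [h2] at h3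
    exact hbb' (by exact_mod_cast h3)
  rw [← h1]
  refine hcount T hT _ fun x hx => ?_
  obtain ⟨b, hb, hx⟩ := Finset.mem_biUnion.1 hx
  obtain ⟨hx1, hx2, hx3⟩ := mem_Xb.1 hx
  refine ⟨fun i => (hx2.2.2.2 i).trans ?_, hx3⟩
  exact_mod_cast (Finset.mem_Icc.1 hb).2

/-- the bad systems -/
noncomputable def badV (InV : (Fin (n + 1) → ℤ) → Prop) {s : ℕ}
    (Bad : (Fin (n + 1) → ℤ) → Fin s → Finset (MvPolynomial (Fin (n + 1)) ℤ)) (B : ℕ) :
    Finset (Fin s → MvPolynomial (Fin (n + 1)) ℤ) := by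
  classical
  exact (Finset.univ : Finset (Fin (n + 1))).biUnion fun i0 => (Finset.Icc 1 B).biUnion fun b =>
    (Xb InV i0 b).biUnion fun x => Fintype.piFinset (Bad x)

theorem card_badV (InV : (Fin (n + 1) → ℤ) → Prop) (A θ : ℝ) (hA0 : 0 ≤ A)
    (hcount : ∀ T : ℕ, 1 ≤ T → ∀ S : Finset (Fin (n + 1) → ℤ),
      (∀ x ∈ S, (∀ i, |x i| ≤ T) ∧ InV x) → (S.card : ℝ) ≤ A * (T : ℝ) ^ θ)
    (D E : ℕ) (hθ : θ + E < D) :
    ∃ C : ℝ, 0 < C ∧ ∀ H B : ℕ, 1 ≤ H → 1 ≤ B → ∀ (s : ℕ)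
      (Bad : (Fin (n + 1) → ℤ) → Fin s → Finset (MvPolynomial (Fin (n + 1)) ℤ)) (A' : ℝ),
      0 ≤ A' → (∀ (x : Fin (n + 1) → ℤ) (i0 : Fin (n + 1)) (b : ℕ), Prim x i0 b →
        ∏ i, ((Bad x i).card : ℝ) ≤ A' * ((b : ℝ) ^ E / ((min b H : ℕ) : ℝ) ^ D)) →
      ((badV InV Bad B).card : ℝ) ≤ C * (1 + (B : ℝ) ^ (θ + E) / (H : ℝ) ^ D) * A' := by
  classical
  obtain ⟨C, hC0, hC⟩ := sum_points' A θ hA0 D E hθ
  refine ⟨(n + 1) * C, by positivity, fun H B hH hB s Bad A' hA' hbad => ?_⟩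
  have h1 : ((badV InV Bad B).card : ℝ) ≤ ∑ i0 : Fin (n + 1), ∑ b ∈ Finset.Icc 1 B,
      ((Xb InV i0 b).card : ℝ) * ((b : ℝ) ^ E / ((min b H : ℕ) : ℝ) ^ D) * A' := by
    unfold badV
    refine (Nat.cast_le.2 Finset.card_biUnion_le).trans ?_
    rw [Nat.cast_sum]
    refine Finset.sum_le_sum fun i0 _ => ?_
    refine (Nat.cast_le.2 Finset.card_biUnion_le).trans ?_
    rw [Nat.cast_sum]
    refine Finset.sum_le_sum fun b hb => ?_
    refine (Nat.cast_le.2 Finset.card_biUnion_le).trans ?_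
    rw [Nat.cast_sum]
    have h2 : ∀ x ∈ Xb InV i0 b, ((Fintype.piFinset (Bad x)).card : ℝ) ≤
        A' * ((b : ℝ) ^ E / ((min b H : ℕ) : ℝ) ^ D) := by
      intro x hx
      rw [Fintype.card_piFinset, Nat.cast_prod]
      exact hbad x i0 b (mem_Xb.1 hx).2.1
    refine (Finset.sum_le_sum h2).trans ?_
    rw [Finset.sum_const, nsmul_eq_mul]
    exact le_of_eq (by ring)
  refine h1.trans ?_
  have h3 : ∀ i0 ∈ (Finset.univ : Finset (Fin (n + 1))), ∑ b ∈ Finset.Icc 1 B,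
      ((Xb InV i0 b).card : ℝ) * ((b : ℝ) ^ E / ((min b H : ℕ) : ℝ) ^ D) * A' ≤
      C * (1 + (B : ℝ) ^ (θ + E) / (H : ℝ) ^ D) * A' := by
    intro i0 _
    rw [← Finset.sum_mul]
    refine mul_le_mul_of_nonneg_right ?_ hA'
    exact hC (fun b => ((Xb InV i0 b).card : ℝ)) (fun b => Nat.cast_nonneg _)
      (fun T hT => sum_Xb InV A θ hcount i0 T hT) H B hH hB
  refine (Finset.sum_le_sum h3).trans ?_
  rw [Finset.sum_const, Finset.card_univ, Fintype.card_fin, nsmul_eq_mul]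
  push_cast
  exact le_of_eq (by ring)

/-- a form with the value one -/
theorem exists_one (d : ℕ) (x : Fin (n + 1) → ℤ) (hx : ∃ a : Fin (n + 1) → ℤ, ∑ i, a i * x i = 1) :
    ∃ (K : ℕ) (G : MvPolynomial (Fin (n + 1)) ℤ), 1 ≤ K ∧ G ∈ Forms n d K ∧ eval x G = 1 := by
  classical
  obtain ⟨a, ha⟩ := hx
  obtain ⟨c, hc⟩ : ∃ c : Fin (n + 1) → ℤ, ∑ i, c i * x i ^ d = 1 := by
    have h1 : Ideal.span (Set.range x) = ⊤ := by
      rw [Ideal.eq_top_iff_one, Ideal.mem_span_range_iff_exists_fun]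
      exact ⟨a, ha⟩
    have h2 := Ideal.span_pow_eq_top (Set.range x) h1 d
    rw [Ideal.eq_top_iff_one, ← Set.range_comp, Ideal.mem_span_range_iff_exists_fun] at h2
    exact h2
  set K0 : ℕ := ∑ i, (c i).natAbs with hK0
  have hle : ∀ i, |c i| ≤ K0 := by
    intro i
    rw [← Int.natCast_natAbs]
    have : (c i).natAbs ≤ K0 := Finset.single_le_sum (f := fun i => (c i).natAbs)
      (fun _ _ => Nat.zero_le _) (Finset.mem_univ i)
    exact_mod_cast this
  refine ⟨(n + 1) * K0 + 1, ∑ i, monomial (Finsupp.single i d) (c i), by omega, ?_, ?_⟩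
  · have h2 := forms_sum (Finset.univ : Finset (Fin (n + 1)))
      (fun i => (monomial (Finsupp.single i d) (c i) : MvPolynomial (Fin (n + 1)) ℤ))
      (d := d) (H := K0) (fun i _ => forms_monomial _ (by simp) _ (hle i))
    rw [Finset.card_univ, Fintype.card_fin] at h2
    exact forms_mono (by omega) h2
  · rw [map_sum, ← hc]
    refine Finset.sum_congr rfl fun i _ => ?_
    rw [eval_monomial, Finsupp.prod_single_index]
    exact pow_zero _

theorem forms_C_mul {d H K : ℕ} (t : ℤ) (ht : |t| ≤ K) {F : MvPolynomial (Fin (n + 1)) ℤ}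
    (hF : F ∈ Forms n d H) : C t * F ∈ Forms n d (K * H) := by
  refine ⟨?_, fun m => ?_⟩
  · have h1 := (isHomogeneous_C (Fin (n + 1)) t).mul hF.1
    rwa [zero_add] at h1
  · rw [coeff_C_mul, abs_mul]
    push_cast
    exact mul_le_mul ht (hF.2 m) (abs_nonneg _) (Nat.cast_nonneg _)

/-- many forms with values in a given set -/
theorem low_gen (d : ℕ) (x : Fin (n + 1) → ℤ)
    (hx : ∃ a : Fin (n + 1) → ℤ, ∑ i, a i * x i = 1) :
    ∃ (c : ℝ) (K : ℕ), 0 < c ∧ 1 ≤ K ∧ ∀ H : ℕ, 1 ≤ H → ∀ W : Finset ℤ,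
      (∀ t ∈ W, |t| * K ≤ H) →
      c * W.card * (FF n d H).card / H ≤
        ((((FF n d H).filter (fun F => eval x F ∈ W)).card : ℕ) : ℝ) := by
  classical
  obtain ⟨K0, G, hK0, hG, hG1⟩ := exists_one d x hx
  set b : ℕ := ∑ i, (x i).natAbs + 1 with hb
  have hxb : ∀ i, |x i| ≤ b := by
    intro i
    rw [← Int.natCast_natAbs]
    have : (x i).natAbs ≤ ∑ i, (x i).natAbs := Finset.single_le_sum (f := fun i => (x i).natAbs)
      (fun _ _ => Nat.zero_le _) (Finset.mem_univ i)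
    exact_mod_cast this.trans (Nat.le_succ _)
  set N : ℕ := (Mo n d).card with hN
  have hN1 : 1 ≤ N := by
    rw [hN, card_Mo]
    exact Nat.choose_pos (by omega)
  set L' : ℕ := N * b ^ d with hL'
  have hL'1 : 1 ≤ L' := Nat.mul_pos hN1 (by positivity)
  set L : ℕ := 1 + L' * K0 with hL
  refine ⟨1 / ((8 * L) ^ N * (3 * L')), 2 * K0, by positivity, by omega, fun H hH W hW => ?_⟩
  set H0 : ℕ := H / (2 * L) with hH0
  have hval : ∀ F ∈ FF n d H0, |eval x F| ≤ ((L' * H0 : ℕ) : ℤ) := by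
    intro F hF
    have h1 := abs_eval_le ((mem_FF F).1 hF) x b hxb
    refine h1.trans (le_of_eq ?_)
    rw [hL', hN]
    push_cast
    ring
  have h2L : H0 * (2 * L) ≤ H := Nat.div_mul_le_self _ _
  have hlt : H < 2 * L * (H0 + 1) := by
    have h1 := Nat.lt_div_mul_add (a := H) (b := 2 * L) (by omega)
    calc H < H / (2 * L) * (2 * L) + 2 * L := h1
      _ = 2 * L * (H0 + 1) := by rw [hH0]; ring
  have h1 : ((FF n d H0) ×ˢ W).card ≤
      (((FF n d H).filter (fun F => eval x F ∈ W)) ×ˢ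
        Finset.Icc (-((L' * H0 : ℕ) : ℤ)) ((L' * H0 : ℕ) : ℤ)).card := by
    refine Finset.card_le_card_of_injOn
      (fun p => (p.1 + C (p.2 - eval x p.1) * G, eval x p.1)) ?_ ?_
    · rintro ⟨F, t⟩ hp
      rw [Finset.mem_coe, Finset.mem_product] at hp
      obtain ⟨hF, ht⟩ := hp
      have hF : F ∈ FF n d H0 := hF
      have ht : t ∈ W := ht
      rw [Finset.mem_coe, Finset.mem_product, Finset.mem_filter, mem_FF]
      have hv := hval F hF
      have ht' := hW t ht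
      refine ⟨⟨?_, ?_⟩, ?_⟩
      · show F + C (t - eval x F) * G ∈ Forms n d H
        have h3 : |t - eval x F| ≤ (((t.natAbs + L' * H0 : ℕ)) : ℤ) := by
          refine (abs_sub _ _).trans ?_
          push_cast at hv ⊢
          linarith
        have h4 := forms_add ((mem_FF F).1 hF) (forms_C_mul _ h3 hG)
        refine forms_mono ?_ h4
        have h5 : t.natAbs * (2 * K0) ≤ H := by
          rw [← Int.natCast_natAbs] at ht'
          exact_mod_cast ht'
        have h6 : 2 * (H0 + (t.natAbs + L' * H0) * K0) = H0 * (2 * L) + t.natAbs * (2 * K0) := by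
          rw [hL]
          ring
        omega
      · show eval x (F + C (t - eval x F) * G) ∈ W
        rw [map_add, map_mul, eval_C, hG1, mul_one, add_sub_cancel]
        exact ht
      · show eval x F ∈ _
        rw [Finset.mem_Icc, ← abs_le]
        exact hv
    · rintro ⟨F, t⟩ hp ⟨F', t'⟩ hp' h
      rw [Prod.mk.injEq] at h
      obtain ⟨h3, h4⟩ := h
      have h3 : F + C (t - eval x F) * G = F' + C (t' - eval x F') * G := h3
      have h4 : eval x F = eval x F' := h4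
      have h5 := congrArg (eval x) h3
      rw [map_add, map_mul, eval_C, hG1, mul_one, add_sub_cancel, map_add, map_mul, eval_C, hG1,
        mul_one, add_sub_cancel] at h5
      subst h5
      rw [h4] at h3
      rw [add_right_cancel h3]
  rw [Finset.card_product, Finset.card_product, Int.card_Icc] at h1
  have h2 : (((L' * H0 : ℕ) : ℤ) + 1 - -((L' * H0 : ℕ) : ℤ)).toNat ≤ 3 * L' * H := by
    have h3 : H0 ≤ H := Nat.div_le_self _ _
    have h4 : L' * H0 ≤ L' * H := Nat.mul_le_mul_left _ h3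
    have h5 : 1 ≤ L' * H := Nat.mul_pos hL'1 hH
    have h6 : 3 * L' * H = 3 * (L' * H) := by ring
    omega
  have h3 := h1.trans (Nat.mul_le_mul_left _ h2)
  have h4 : (FF n d H).card ≤ (8 * L) ^ N * (FF n d H0).card := by
    rw [card_FF, card_FF, ← mul_pow]
    refine Nat.pow_le_pow_left ?_ _
    nlinarith
  have hHr : (0 : ℝ) < H := by exact_mod_cast hH
  have hLr : (0 : ℝ) < (8 * (L : ℝ)) ^ N * (3 * L') := by positivity
  rw [div_le_iff₀ hHr, one_div, mul_assoc, inv_mul_le_iff₀ hLr]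
  have h5 : (((FF n d H0).card * W.card : ℕ) : ℝ) ≤
    (((((FF n d H).filter (fun F => eval x F ∈ W)).card * (3 * L' * H) : ℕ)) : ℝ) :=
    Nat.cast_le.2 h3
  have h6 : (((FF n d H).card : ℕ) : ℝ) ≤ (((8 * L) ^ N * (FF n d H0).card : ℕ) : ℝ) :=
    Nat.cast_le.2 h4
  push_cast at h5 h6
  calc (W.card : ℝ) * ((FF n d H).card : ℝ) ≤ W.card * ((8 * (L : ℝ)) ^ N * (FF n d H0).card) :=
        mul_le_mul_of_nonneg_left h6 (Nat.cast_nonneg _)
    _ = (8 * (L : ℝ)) ^ N * ((FF n d H0).card * W.card) := by ring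
    _ ≤ (8 * (L : ℝ)) ^ N * (((FF n d H).filter (fun F => eval x F ∈ W)).card * (3 * L' * H)) :=
        mul_le_mul_of_nonneg_left h5 (by positivity)
    _ = _ := by ring

end Pool.Agent.Helper17.RV
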