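import Pool.Agent.Helper17.RV.NonLin
import Pool.Agent.Helper17.RV.Fam
import Pool.Agent.Helper17.RV.Defs

set_option autoImplicit false

/-! # Projective varieties -/

namespace Pool.Agent.Helper17.RV

open MvPolynomial Finset Pool.Agent.R870.RC

variable {n : ℕ}

theorem onV_iff (E : Set (MvPolynomial (Fin (n + 1)) ℚ)) (x : Fin (n + 1) → ℤ) :
    OnV (Ideal.span E) x ↔ InVar E x := by
  constructor
  · intro h P hP
    exact h P (Ideal.subset_span hP)
  · intro h f hf
    have h1 : Ideal.span E ≤ RingHom.ker (eval (fun i => (x i : ℚ))) := by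
      rw [Ideal.span_le]
      intro P hP
      exact h P hP
    exact h1 hf

theorem inVar_scale (E : Set (MvPolynomial (Fin (n + 1)) ℚ)) (hE : ∀ P ∈ E, ∃ e, P.IsHomogeneous e)
    (g : ℤ) (hg : g ≠ 0) (x y : Fin (n + 1) → ℤ) (hxy : ∀ j, x j = g * y j) (hx : InVar E x) :
    InVar E y := by
  intro P hP
  obtain ⟨e, he⟩ := hE P hP
  have h1 := hx P hP
  have h2 : aeval (fun i => (x i : ℚ)) P = (g : ℚ) ^ e * aeval (fun i => (y i : ℚ)) P := by
    rw [MvPolynomial.aeval_def, MvPolynomial.aeval_def, MvPolynomial.eval₂_eq',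
      MvPolynomial.eval₂_eq', Finset.mul_sum]
    refine Finset.sum_congr rfl fun m hm => ?_
    have h3 : ∑ j, m j = e := by
      have h4 := he (MvPolynomial.mem_support_iff.1 hm)
      rw [← h4, Finsupp.weight_apply, Finsupp.sum_fintype _ _ (by simp)]
      simp
    simp only [hxy, Int.cast_mul, mul_pow, Finset.prod_mul_distrib, Finset.prod_pow_eq_pow_sum, h3]
    ring
  rw [h2] at h1
  exact (mul_eq_zero.1 h1).resolve_left (pow_ne_zero _ (by exact_mod_cast hg))

attribute [local instance] MvPolynomial.gradedAlgebra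

theorem not_linear (E : Set (MvPolynomial (Fin (n + 1)) ℚ)) (hE : ∀ P ∈ E, ∃ e, P.IsHomogeneous e)
    (hprime : (Ideal.span E).IsPrime) (h : ¬ IsLin E) : ¬ Linear (Ideal.span E) := by
  classical
  rintro ⟨L, hL, hEL⟩
  apply h
  have hhom : (Ideal.span E).IsHomogeneous (homogeneousSubmodule (Fin (n + 1)) ℚ) := by
    refine Ideal.homogeneous_span _ _ fun P hP => ?_
    obtain ⟨e, he⟩ := hE P hP
    exact ⟨e, he⟩
  refine ⟨L, fun l hl => ?_, hEL⟩
  have hlI : l ∈ Ideal.span E := by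
    rw [hEL]
    exact Ideal.subset_span hl
  have h0 := homogeneousComponent_mem_of_mem hhom hlI 0
  rw [homogeneousComponent_zero] at h0
  have hc : coeff 0 l = 0 := by
    by_contra hne
    apply hprime.ne_top
    refine Ideal.eq_top_of_isUnit_mem _ h0 ?_
    exact (isUnit_iff_ne_zero.2 hne).map C
  have h1 := sum_homogeneousComponent l
  have h2 : ∑ i ∈ Finset.range (l.totalDegree + 1), homogeneousComponent i l =
      homogeneousComponent 1 l := by
    have h3 : ∑ i ∈ Finset.range (l.totalDegree + 1), homogeneousComponent i l =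
        ∑ i ∈ Finset.range 2, homogeneousComponent i l := by
      refine Finset.sum_subset ?_ ?_
      · intro i hi
        rw [Finset.mem_range] at *
        have := hL l hl
        omega
      · intro i _ hi
        rw [Finset.mem_range, not_lt] at hi
        exact homogeneousComponent_eq_zero i l (by omega)
    rw [h3, Finset.sum_range_succ, Finset.sum_range_one, homogeneousComponent_zero, hc, C_0,
      zero_add]
  rw [← h1, h2]
  exact homogeneousComponent_isHomogeneous 1 l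

/-- the point counts -/
theorem count1 (E : Set (MvPolynomial (Fin (n + 1)) ℚ)) {m : ℕ}
    (hdim : Algebra.trdeg ℚ (MvPolynomial (Fin (n + 1)) ℚ ⧸ Ideal.span E) = m + 1) :
    ∃ C : ℝ, 0 ≤ C ∧ ∀ T : ℕ, 1 ≤ T → ∀ S : Finset (Fin (n + 1) → ℤ),
      (∀ x ∈ S, (∀ i, |x i| ≤ T) ∧ InVar E x) → (S.card : ℝ) ≤ C * (T : ℝ) ^ ((m : ℝ) + 1) := by
  obtain ⟨C, hC⟩ := count_all (Ideal.span E) (k := m + 1) (by rw [hdim]; push_cast; rfl)
  refine ⟨C, Nat.cast_nonneg C, fun T hT S hS => ?_⟩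
  have h1 := hC T hT S (fun x hx => ⟨(hS x hx).1, (onV_iff E x).2 (hS x hx).2⟩)
  have h2 : (S.card : ℝ) ≤ C * (T : ℝ) ^ (m + 1) := by exact_mod_cast h1
  refine h2.trans (le_of_eq ?_)
  congr 1
  have h3 : ((m : ℝ) + 1) = ((m + 1 : ℕ) : ℝ) := by push_cast; rfl
  rw [h3, Real.rpow_natCast]

theorem count2 (E : Set (MvPolynomial (Fin (n + 1)) ℚ)) (hE : ∀ P ∈ E, ∃ e, P.IsHomogeneous e)
    (hprime : (Ideal.span E).IsPrime) {m : ℕ}
    (hdim : Algebra.trdeg ℚ (MvPolynomial (Fin (n + 1)) ℚ ⧸ Ideal.span E) = m + 1)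
    (h : ¬ IsLin E) :
    ∃ C : ℝ, 0 ≤ C ∧ ∀ T : ℕ, 1 ≤ T → ∀ S : Finset (Fin (n + 1) → ℤ),
      (∀ x ∈ S, (∀ i, |x i| ≤ T) ∧ InVar E x) →
      (S.card : ℝ) ≤ C * (T : ℝ) ^ ((m : ℝ) + 1 - 1 / ((m : ℝ) + 3)) := by
  obtain ⟨C, hC0, hC⟩ := count_nonlinear (Ideal.span E) (k := m) (by rw [hdim]; push_cast; rfl)
    (not_linear E hE hprime h)
  refine ⟨C, hC0.le, fun T hT S hS => ?_⟩
  have h1 := hC T hT S (fun x hx => ⟨(hS x hx).1, (onV_iff E x).2 (hS x hx).2⟩)
  refine h1.trans (le_of_eq ?_)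
  congr 1
  push_cast
  congr 2
  ring

end Pool.Agent.Helper17.RV
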