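import Pool.Agent.Helper17.RV.Defs

set_option autoImplicit false

/-! # Rational points of a variety and zeros of a system: definitions -/

namespace Pool.Agent.Helper17.RV

open MvPolynomial Pool.Agent.R870.RC

variable {n : ℕ}

/-- the primitive integral vectors on the cone over the projective variety `V` defined by the set
`E` of forms: every rational point of `V` is represented by exactly two of them, `x` and `-x`, and
its height is the largest absolute value of a coordinate -/
def Points (E : Set (MvPolynomial (Fin (n + 1)) ℚ)) : Set (Fin (n + 1) → ℤ) :=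
  {x | Finset.univ.gcd x = 1 ∧ InVar E x}

/-- the rational points of height at most `T` of `V ∩ {F_1 = ⋯ = F_s = 0}` -/
def Zeros (E : Set (MvPolynomial (Fin (n + 1)) ℚ)) {s : ℕ}
    (F : Fin s → MvPolynomial (Fin (n + 1)) ℤ) (T : ℕ) : Set (Fin (n + 1) → ℤ) :=
  {x | x ∈ Points E ∧ (∀ k, |x k| ≤ T) ∧ ∀ i, eval x (F i) = 0}

end Pool.Agent.Helper17.RV
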