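import Pool.Agent.Helper17.RV.Slice

set_option autoImplicit false

/-! # Algebraic relations -/

namespace Pool.Agent.Helper17.RV

open MvPolynomial Finset

/-- clearing denominators -/
theorem clear_denom {σ : Type} (P : MvPolynomial σ ℚ) : ∃ c : ℤ, c ≠ 0 ∧
    ∃ P' : MvPolynomial σ ℤ, map (Int.castRingHom ℚ) P' = C (c : ℚ) * P := by
  induction P using MvPolynomial.induction_on with
  | C a =>
    refine ⟨a.den, by exact_mod_cast a.den_ne_zero, C a.num, ?_⟩
    rw [map_C, ← C_mul]
    congr 1
    have := Rat.den_mul_eq_num a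
    push_cast
    rw [this]
    rfl
  | add p q hp hq =>
    obtain ⟨c, hc, P', hP'⟩ := hp
    obtain ⟨c', hc', Q', hQ'⟩ := hq
    refine ⟨c * c', mul_ne_zero hc hc', C c' * P' + C c * Q', ?_⟩
    rw [map_add, map_mul, map_mul, hP', hQ', map_C, map_C]
    push_cast
    simp only [eq_intCast, C_mul]
    ring
  | mul_X p i hp =>
    obtain ⟨c, hc, P', hP'⟩ := hp
    refine ⟨c, hc, P' * X i, ?_⟩
    rw [map_mul, hP', map_X]
    ring

/-- a polynomial whose restriction to a hyperplane vanishes is divisible by the linear form -/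
theorem dvd_of_restr {k : ℕ} (G : MvPolynomial (Fin (k + 1)) ℚ) (i0 : Fin (k + 1))
    (a : Fin k → ℚ) (a0 : ℚ) (h : restr G i0 a a0 = 0) :
    (X i0 - (C a0 + ∑ j, C (a j) * X (i0.succAbove j)) : MvPolynomial (Fin (k + 1)) ℚ) ∣ G := by
  set ℓ : MvPolynomial (Fin (k + 1)) ℚ := X i0 - (C a0 + ∑ j, C (a j) * X (i0.succAbove j))
    with hℓ
  set τ : Fin (k + 1) → MvPolynomial (Fin (k + 1)) ℚ :=
    i0.insertNth (C a0 + ∑ j, C (a j) * X (i0.succAbove j)) (fun j => X (i0.succAbove j)) with hτ
  have h1 : aeval τ G = rename i0.succAbove (restr G i0 a a0) := by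
    have h2 : ((rename i0.succAbove : MvPolynomial (Fin k) ℚ →ₐ[ℚ] MvPolynomial (Fin (k + 1)) ℚ).comp
        (aeval (i0.insertNth (C a0 + ∑ j, C (a j) * X j) (fun j => X j) :
          Fin (k + 1) → MvPolynomial (Fin k) ℚ))) = aeval τ := by
      apply MvPolynomial.algHom_ext
      intro i
      rw [AlgHom.comp_apply, aeval_X, aeval_X]
      refine Fin.succAboveCases i0 ?_ (fun j => ?_) i
      · rw [hτ, Fin.insertNth_apply_same, Fin.insertNth_apply_same, map_add, map_sum]
        simp
      · rw [hτ, Fin.insertNth_apply_succAbove, Fin.insertNth_apply_succAbove, rename_X]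
    exact (DFunLike.congr_fun h2 G).symm
  rw [h, map_zero] at h1
  have h3 : (Ideal.Quotient.mkₐ ℚ (Ideal.span {ℓ})).comp (aeval τ) =
      Ideal.Quotient.mkₐ ℚ (Ideal.span {ℓ}) := by
    apply MvPolynomial.algHom_ext
    intro i
    rw [AlgHom.comp_apply, aeval_X]
    refine Fin.succAboveCases i0 ?_ (fun j => ?_) i
    · rw [hτ, Fin.insertNth_apply_same]
      symm
      rw [Ideal.Quotient.mkₐ_eq_mk, Ideal.Quotient.mk_eq_mk_iff_sub_mem]
      exact Ideal.mem_span_singleton_self ℓ
    · rw [hτ, Fin.insertNth_apply_succAbove]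
  have h4 := DFunLike.congr_fun h3 G
  rw [AlgHom.comp_apply, h1, map_zero] at h4
  rw [← Ideal.mem_span_singleton, ← Ideal.Quotient.eq_zero_iff_mem]
  exact h4.symm

/-- the minimal relation -/
theorem exists_rel {A : Type} [CommRing A] [IsDomain A] [Algebra ℚ A] {k : ℕ} (u : Fin k → A)
    (z : A) (hu : AlgebraicIndependent ℚ u)
    (hz : ∀ (b0 : ℚ) (b : Fin k → ℚ), z ≠ algebraMap ℚ A b0 + ∑ i, algebraMap ℚ A (b i) * u i)
    (hdep : ∃ g : MvPolynomial (Fin (k + 1)) ℚ, g ≠ 0 ∧ aeval (Fin.cons z u : Fin (k + 1) → A) g = 0) :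
    ∃ G : MvPolynomial (Fin (k + 1)) ℤ,
      aeval (Fin.cons z u : Fin (k + 1) → A) (map (Int.castRingHom ℚ) G) = 0 ∧
      (∀ (i0 : Fin (k + 1)) (a : Fin k → ℚ) (a0 : ℚ),
        restr (map (Int.castRingHom ℚ) G) i0 a a0 ≠ 0) ∧
      aeval (Fin.cons z u : Fin (k + 1) → A) (map (Int.castRingHom ℚ) (pderiv 0 G)) ≠ 0 := by
  classical
  set y : Fin (k + 1) → A := Fin.cons z u with hy
  -- minimal total degree
  have hex : ∃ d : ℕ, ∃ g : MvPolynomial (Fin (k + 1)) ℚ, g ≠ 0 ∧ aeval y g = 0 ∧
      g.totalDegree = d := by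
    obtain ⟨g, h1, h2⟩ := hdep
    exact ⟨_, g, h1, h2, rfl⟩
  obtain ⟨g, hg0, hgy, hgd⟩ := Nat.find_spec hex
  have hmin : ∀ g' : MvPolynomial (Fin (k + 1)) ℚ, g' ≠ 0 → aeval y g' = 0 →
      g.totalDegree ≤ g'.totalDegree := by
    intro g' h1 h2
    rw [hgd]
    exact Nat.find_min' hex ⟨g', h1, h2, rfl⟩
  -- no affine relation
  have haff : ∀ (b0 : ℚ) (b : Fin (k + 1) → ℚ), b ≠ 0 →
      algebraMap ℚ A b0 + ∑ i, algebraMap ℚ A (b i) * y i ≠ 0 := by
    intro b0 b hb h
    rw [Fin.sum_univ_succ] at h
    simp only [hy, Fin.cons_zero, Fin.cons_succ] at h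
    by_cases hb0 : b 0 = 0
    · rw [hb0, map_zero, zero_mul, zero_add] at h
      have h1 : aeval u (C b0 + ∑ i : Fin k, C (b i.succ) * X i : MvPolynomial (Fin k) ℚ) = 0 := by
        rw [map_add, map_sum, ← h]
        congr 1
        · exact aeval_C _ _
        · refine Finset.sum_congr rfl fun i _ => ?_
          rw [map_mul, aeval_X, aeval_C]
      have h2 : (C b0 + ∑ i : Fin k, C (b i.succ) * X i : MvPolynomial (Fin k) ℚ) = 0 := by
        have := (injective_iff_map_eq_zero _).1 hu _ h1
        exact this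
      apply hb
      funext i
      refine Fin.cases hb0 (fun i => ?_) i
      have h3 := congrArg (coeff (Finsupp.single i 1)) h2
      rw [coeff_add, coeff_sum, Finset.sum_eq_single i] at h3
      · rw [coeff_C_mul, coeff_X, coeff_C, if_neg] at h3
        · simpa using h3
        · intro h4
          have := DFunLike.congr_fun h4 i
          simp at this
      · intro j _ hj
        rw [coeff_C_mul, coeff_X]
        rw [if_neg, mul_zero]
        intro h4
        exact hj ((Finsupp.single_left_inj one_ne_zero).1 h4)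
      · intro h4
        exact absurd (Finset.mem_univ _) h4
    · apply hz (-(b0 / b 0)) (fun i => -(b i.succ / b 0))
      have hb0A : algebraMap ℚ A (b 0) ≠ 0 := by
        intro h1
        apply hb0
        exact (algebraMap ℚ A).injective (by rw [h1, map_zero])
      apply mul_left_cancel₀ hb0A
      have h1 : ∀ q : ℚ, algebraMap ℚ A (b 0) * algebraMap ℚ A (-(q / b 0)) = -algebraMap ℚ A q := by
        intro q
        rw [← map_mul, ← map_neg]
        congr 1
        field_simp
      rw [mul_add, h1, Finset.mul_sum]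
      have h2 : ∀ i : Fin k, algebraMap ℚ A (b 0) * (algebraMap ℚ A (-(b i.succ / b 0)) * u i) =
          -(algebraMap ℚ A (b i.succ) * u i) := by
        intro i
        rw [← mul_assoc, h1, neg_mul]
      rw [Finset.sum_congr rfl fun i _ => h2 i, Finset.sum_neg_distrib]
      linear_combination h
  -- no restriction vanishes
  have hNL : ∀ (i0 : Fin (k + 1)) (a : Fin k → ℚ) (a0 : ℚ), restr g i0 a a0 ≠ 0 := by
    intro i0 a a0 h
    obtain ⟨g', hg'⟩ := dvd_of_restr g i0 a a0 h
    set ℓ : MvPolynomial (Fin (k + 1)) ℚ := X i0 - (C a0 + ∑ j, C (a j) * X (i0.succAbove j))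
      with hℓ
    have hℓ0 : ℓ ≠ 0 := by
      intro h1
      rw [h1, zero_mul] at hg'
      exact hg0 hg'
    have hg'0 : g' ≠ 0 := by
      intro h1
      rw [h1, mul_zero] at hg'
      exact hg0 hg'
    have hcoef : coeff (Finsupp.single i0 1) ℓ = 1 := by
      rw [hℓ, coeff_sub, coeff_add, coeff_X, if_pos rfl, coeff_C, if_neg, coeff_sum,
        Finset.sum_eq_zero]
      · simp
      · intro j _
        rw [coeff_C_mul, coeff_X, if_neg, mul_zero]
        intro h4
        exact Fin.succAbove_ne i0 j ((Finsupp.single_left_inj one_ne_zero).1 h4)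
      · intro h4
        have := DFunLike.congr_fun h4 i0
        simp at this
    have hℓd : 1 ≤ ℓ.totalDegree := by
      have h1 : Finsupp.single i0 1 ∈ ℓ.support := by
        rw [mem_support_iff, hcoef]
        exact one_ne_zero
      have h2 := le_totalDegree h1
      rwa [Finsupp.sum_single_index rfl] at h2
    have h1 : aeval y ℓ * aeval y g' = 0 := by
      rw [← map_mul, ← hg', hgy]
    rcases mul_eq_zero.1 h1 with h2 | h2
    · let b : Fin (k + 1) → ℚ := i0.insertNth 1 (fun j => -a j)
      apply haff (-a0) b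
      · intro h3
        have h4 := congrFun h3 i0
        simp only [b, Fin.insertNth_apply_same, Pi.zero_apply] at h4
        exact one_ne_zero h4
      · rw [Fin.sum_univ_succAbove _ i0]
        simp only [b, Fin.insertNth_apply_same, Fin.insertNth_apply_succAbove]
        rw [hℓ, map_sub, map_add, map_sum, aeval_X, aeval_C] at h2
        simp only [map_mul, aeval_X, aeval_C] at h2
        rw [map_one, one_mul, map_neg]
        simp only [map_neg, neg_mul, Finset.sum_neg_distrib]
        linear_combination h2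
    · have h3 := hmin g' hg'0 h2
      have h4 := totalDegree_mul_of_isDomain hℓ0 hg'0
      rw [← hg'] at h4
      omega
  -- the derivative
  have hder : aeval y (pderiv 0 g) ≠ 0 := by
    intro h
    have hd0 : pderiv 0 g ≠ 0 := by
      intro h1
      have h2 : ∀ m ∈ g.support, m 0 = 0 := by
        intro m hm
        by_contra h3
        have h4 : m - Finsupp.single 0 1 + Finsupp.single 0 1 = m := by
          refine tsub_add_cancel_of_le ?_
          rw [Finsupp.single_le_iff]
          omega
        have h5 := congrArg (coeff (m - Finsupp.single 0 1)) h1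
        rw [coeff_pderiv, h4, coeff_zero] at h5
        rcases mul_eq_zero.1 h5 with h6 | h6
        · exact (mem_support_iff.1 hm) h6
        · have h7 : (0 : ℚ) ≤ (((m - Finsupp.single (0 : Fin (k + 1)) 1 :
              Fin (k + 1) →₀ ℕ) 0 : ℕ) : ℚ) := Nat.cast_nonneg _
          linarith
      have h3 : (g.vars : Set (Fin (k + 1))) ⊆ Set.range (Fin.succ : Fin k → Fin (k + 1)) := by
        intro i hi
        rw [Finset.mem_coe, mem_vars_iff_mem_support] at hi
        obtain ⟨m, hm, him⟩ := hi
        rw [Finsupp.mem_support_iff] at him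
        have hi0 : i ≠ 0 := by
          intro h4
          rw [h4] at him
          exact him (h2 m hm)
        exact ⟨i.pred hi0, Fin.succ_pred i hi0⟩
      obtain ⟨g1, hg1⟩ := exists_rename_eq_of_vars_subset_range g Fin.succ
        (Fin.succ_injective k) h3
      have h4 : aeval u g1 = 0 := by
        rw [← hgy, ← hg1, aeval_rename]
        congr 1
      have h5 : g1 = 0 := (injective_iff_map_eq_zero _).1 hu _ h4
      apply hg0
      rw [← hg1, h5, map_zero]
    have h1 := hmin _ hd0 h
    obtain ⟨m, hm, hmd⟩ : ∃ m ∈ (pderiv 0 g).support,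
        (pderiv 0 g).totalDegree = m.sum fun _ e => e := by
      obtain ⟨m, hm, h2⟩ := Finset.exists_mem_eq_sup (pderiv 0 g).support
        (support_nonempty.2 hd0) (fun m => m.sum fun _ e => e)
      exact ⟨m, hm, h2⟩
    have h2 : m + Finsupp.single 0 1 ∈ g.support := by
      rw [mem_support_iff] at hm ⊢
      intro h3
      apply hm
      rw [coeff_pderiv, h3, zero_mul]
    have h3 := le_totalDegree h2
    rw [Finsupp.sum_add_index' (fun _ => rfl) (fun _ _ _ => rfl),
      Finsupp.sum_single_index rfl] at h3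
    omega
  -- clear denominators
  obtain ⟨c, hc, G, hG⟩ := clear_denom g
  have hcq : (c : ℚ) ≠ 0 := by exact_mod_cast hc
  refine ⟨G, ?_, ?_, ?_⟩
  · rw [hG, map_mul, hgy, mul_zero]
  · intro i0 a a0 h
    rw [hG] at h
    unfold restr at h
    rw [map_mul, aeval_C, mul_eq_zero] at h
    rcases h with h | h
    · rw [algebraMap_eq, C_eq_zero] at h
      exact hcq h
    · exact hNL i0 a a0 h
  · intro h
    rw [← pderiv_map, hG, pderiv_C_mul, map_mul, aeval_C, mul_eq_zero] at h
    rcases h with h | h
    · apply hcq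
      exact (algebraMap ℚ A).injective (by rw [h, map_zero])
    · exact hder h

end Pool.Agent.Helper17.RV
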