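import Pool.Agent.Helper17.RV.Sec

set_option autoImplicit false

/-! # Random abelian covers of an arbitrary projective variety -/

namespace Pool.Agent.Helper17.RV

open MvPolynomial Finset Pool.Agent.R870.RC

variable {n : ℕ}

theorem fin_cov (E : Set (MvPolynomial (Fin (n + 1)) ℚ)) {s : ℕ} (k e : Fin s → ℕ) (H B : ℕ) :
    (CovPoint E k e H B).Finite :=
  (fin_systems (n := n) (fun i => k i * e i) H).subset fun _ hF => hF.1

theorem rpow_prod' {s : ℕ} (k : Fin s → ℕ) (H : ℕ) (hH : 1 ≤ H) :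
    ∏ i, ((H : ℝ) ^ ((1 : ℝ) / k i) / H) = (H : ℝ) ^ (-∑ i, (1 - 1 / (k i : ℝ))) := by
  have hHr : (0 : ℝ) < H := by exact_mod_cast hH
  rw [← Finset.sum_neg_distrib, Real.rpow_sum_of_pos hHr]
  refine Finset.prod_congr rfl fun i _ => ?_
  rw [neg_sub, Real.rpow_sub hHr, Real.rpow_one]

theorem cov_upper (E : Set (MvPolynomial (Fin (n + 1)) ℚ))
    (hE : ∀ P ∈ E, ∃ e, P.IsHomogeneous e) (A θ : ℝ) (hA0 : 0 ≤ A)
    (hcount : ∀ T : ℕ, 1 ≤ T → ∀ S : Finset (Fin (n + 1) → ℤ),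
      (∀ x ∈ S, (∀ i, |x i| ≤ T) ∧ InVar E x) → (S.card : ℝ) ≤ A * (T : ℝ) ^ θ)
    {s : ℕ} (k e : Fin s → ℕ) (hk : ∀ i, 1 ≤ k i)
    (hθ : θ + ((∑ i, e i : ℕ) : ℝ) < ((∑ i, k i * e i : ℕ) : ℝ)) :
    ∃ C : ℝ, 0 < C ∧ ∀ H B : ℕ, 1 ≤ H → 1 ≤ B →
      ((CovPoint E k e H B).ncard : ℝ) ≤ C * (H : ℝ) ^ (-∑ i, (1 - 1 / (k i : ℝ))) *
        (1 + (B : ℝ) ^ (θ + ((∑ i, e i : ℕ) : ℝ)) / (H : ℝ) ^ (∑ i, k i * e i)) *
        ((Systems n (fun i => k i * e i) H).ncard : ℝ) := by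
  classical
  obtain ⟨C, hC0, hC⟩ := card_badV (InVar E) A θ hA0 hcount (∑ i, k i * e i) (∑ i, e i) hθ
  have hcov : 0 < cov n k e := by
    unfold cov
    refine Finset.prod_pos fun i _ => ?_
    have h1 : 0 < (Mo n (k i * e i)).card := by
      rw [card_Mo]
      exact Nat.choose_pos (by omega)
    have h3 : (0 : ℝ) < ((Mo n (k i * e i)).card : ℝ) := Nat.cast_pos.2 h1
    exact mul_pos (mul_pos (by norm_num) h3) (cst_pos n (k i * e i))
  refine ⟨C * cov n k e, mul_pos hC0 hcov, fun H B hH hB => ?_⟩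
  have hHr : (1 : ℝ) ≤ H := by exact_mod_cast hH
  have h1 : CovPoint E k e H B ⊆
      ((badV (InVar E) (fun x i => PW n (k i) (e i) H x) B : Finset _) : Set _) := by
    rintro F ⟨hF, x, hx, hxB, hxV, w, h0⟩
    obtain ⟨g, y, i0, b, hg, hxy, hy, hb⟩ := exists_prim x hx B hxB
    unfold badV
    simp only [Finset.mem_coe, Finset.mem_biUnion, Finset.mem_univ, true_and, Finset.mem_Icc,
      Fintype.mem_piFinset]
    refine ⟨i0, b, ⟨hy.2.2.1, hb⟩, y, mem_Xb.2 ⟨mem_Bx hy, hy, inVar_scale E hE g hg x y hxy hxV⟩,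
      fun i => mem_PW.2 ⟨(mem_FF _).2 (hF i), ?_⟩⟩
    have h2 := eval_scale (hF i) g x y hxy
    have hgq : (g : ℚ) ≠ 0 := by exact_mod_cast hg
    refine int_root (k i) (hk i) (w i / (g : ℚ) ^ e i) _ ?_
    rw [div_pow, h0 i, h2, ← pow_mul, mul_comm (e i) (k i)]
    push_cast
    field_simp
  have h2 := Set.ncard_le_ncard h1 (Finset.finite_toSet _)
  rw [Set.ncard_coe_finset] at h2
  have h3 := hC H B hH hB s (fun x i => PW n (k i) (e i) H x)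
    (cov n k e * (∏ i, ((H : ℝ) ^ ((1 : ℝ) / k i) / H)) *
      (∏ i, ((FF n (k i * e i) H).card : ℝ)))
    (mul_nonneg (mul_nonneg hcov.le (Finset.prod_nonneg fun i _ =>
      div_nonneg (Real.rpow_nonneg (Nat.cast_nonneg _) _) (Nat.cast_nonneg _)))
      (Finset.prod_nonneg fun i _ => Nat.cast_nonneg _))
    (fun x i0 b hx => prod_PW k e hk H hH x i0 b hx)
  have h4 : ((CovPoint E k e H B).ncard : ℝ) ≤
      ((badV (InVar E) (fun x i => PW n (k i) (e i) H x) B).card : ℝ) := Nat.cast_le.2 h2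
  refine h4.trans (h3.trans (le_of_eq ?_))
  rw [card_systems, Nat.cast_prod, rpow_prod' k H hH]
  ring

/-- many forms whose value at a given point is a power -/
theorem low_power (k e : ℕ) (hk : 1 ≤ k) (x : Fin (n + 1) → ℤ)
    (hx : ∃ a : Fin (n + 1) → ℤ, ∑ i, a i * x i = 1) :
    ∃ c : ℝ, 0 < c ∧ ∀ H : ℕ, 1 ≤ H →
      c * ((H : ℝ) ^ ((1 : ℝ) / k) / H) * ((FF n (k * e) H).card : ℝ) ≤
        ((PW n k e H x).card : ℝ) := by
  classical
  obtain ⟨c, K, hc, hK, hcK⟩ := low_gen (k * e) x hx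
  have hKr : (1 : ℝ) ≤ K := by exact_mod_cast hK
  have hk0 : (0 : ℝ) < k := by exact_mod_cast hk
  refine ⟨c / K, div_pos hc (by linarith), fun H hH => ?_⟩
  have hHr : (1 : ℝ) ≤ H := by exact_mod_cast hH
  have hroot : ∀ r : ℝ, 0 ≤ r → (r ^ ((1 : ℝ) / k)) ^ k = r := by
    intro r hr
    rw [← Real.rpow_natCast, ← Real.rpow_mul hr, one_div, inv_mul_cancel₀ hk0.ne', Real.rpow_one]
  set R : ℝ := ((H : ℝ) / K) ^ ((1 : ℝ) / k) with hR
  have hR0 : 0 ≤ R := Real.rpow_nonneg (by positivity) _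
  set W : Finset ℤ := (Finset.range (⌊R⌋₊ + 1)).image (fun w : ℕ => (w : ℤ) ^ k) with hW
  have hWcard : W.card = ⌊R⌋₊ + 1 := by
    rw [hW, Finset.card_image_of_injective, Finset.card_range]
    intro a b hab
    have hab : (a : ℤ) ^ k = (b : ℤ) ^ k := hab
    have h1 : a ^ k = b ^ k := by exact_mod_cast hab
    exact Nat.pow_left_injective (by omega) h1
  have h1 := hcK H hH W (by
    intro t ht
    rw [hW, Finset.mem_image] at ht
    obtain ⟨w, hw, rfl⟩ := ht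
    rw [Finset.mem_range] at hw
    have hwR : (w : ℝ) ≤ R := (Nat.le_floor_iff hR0).1 (by omega)
    have h2 : (w : ℝ) ^ k ≤ (H : ℝ) / K := by
      rw [← hroot ((H : ℝ) / K) (by positivity)]
      exact pow_le_pow_left₀ (Nat.cast_nonneg _) hwR k
    rw [le_div_iff₀ (by linarith)] at h2
    rw [abs_of_nonneg (by positivity)]
    exact_mod_cast h2)
  have h2 : (((FF n (k * e) H).filter (fun F => eval x F ∈ W)).card : ℝ) ≤
      ((PW n k e H x).card : ℝ) := by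
    refine Nat.cast_le.2 (Finset.card_le_card ?_)
    intro F hF
    rw [Finset.mem_filter] at hF
    obtain ⟨hF, hF2⟩ := hF
    rw [hW, Finset.mem_image] at hF2
    obtain ⟨w, _, hw⟩ := hF2
    exact mem_PW.2 ⟨hF, (w : ℤ), hw⟩
  refine le_trans ?_ (h1.trans h2)
  rw [hWcard]
  have h3 : (H : ℝ) ^ ((1 : ℝ) / k) / K ≤ R := by
    rw [hR, Real.div_rpow (by linarith) (by linarith)]
    refine div_le_div_of_nonneg_left (Real.rpow_nonneg (by linarith) _)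
      (Real.rpow_pos_of_pos (by linarith) _) ?_
    calc (K : ℝ) ^ ((1 : ℝ) / k) ≤ (K : ℝ) ^ (1 : ℝ) := by
          refine Real.rpow_le_rpow_of_exponent_le hKr ?_
          rw [div_le_one hk0]
          exact_mod_cast hk
      _ = K := Real.rpow_one _
  have h4 : (H : ℝ) ^ ((1 : ℝ) / k) / K ≤ ((⌊R⌋₊ + 1 : ℕ) : ℝ) := by
    push_cast
    exact h3.trans (Nat.lt_floor_add_one R).le
  have h5 : (0 : ℝ) ≤ ((FF n (k * e) H).card : ℝ) := Nat.cast_nonneg _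
  calc c / K * ((H : ℝ) ^ ((1 : ℝ) / k) / H) * ((FF n (k * e) H).card : ℝ)
      = c * ((H : ℝ) ^ ((1 : ℝ) / k) / K) * ((FF n (k * e) H).card : ℝ) / H := by ring
    _ ≤ c * ((⌊R⌋₊ + 1 : ℕ) : ℝ) * ((FF n (k * e) H).card : ℝ) / H :=
        div_le_div_of_nonneg_right (mul_le_mul_of_nonneg_right
          (mul_le_mul_of_nonneg_left h4 hc.le) h5) (by linarith)

theorem cov_lower (E : Set (MvPolynomial (Fin (n + 1)) ℚ))
    (hE : ∀ P ∈ E, ∃ e, P.IsHomogeneous e) {s : ℕ} (k e : Fin s → ℕ) (hk : ∀ i, 1 ≤ k i) (B₀ : ℕ)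
    (hpt : ∃ x : Fin (n + 1) → ℤ, x ≠ 0 ∧ (∀ j, |x j| ≤ B₀) ∧ InVar E x) :
    ∃ c : ℝ, 0 < c ∧ ∀ H B : ℕ, 1 ≤ H → B₀ ≤ B →
      c * (H : ℝ) ^ (-∑ i, (1 - 1 / (k i : ℝ))) *
        ((Systems n (fun i => k i * e i) H).ncard : ℝ) ≤ ((CovPoint E k e H B).ncard : ℝ) := by
  classical
  obtain ⟨x, hx, hxB, hxV⟩ := hpt
  obtain ⟨g, y, i0, b, hg, hxy, hy, hb⟩ := exists_prim x hx B₀ hxB
  have hyV := inVar_scale E hE g hg x y hxy hxV
  have hlow := fun i => low_power (k i) (e i) (hk i) y hy.1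
  choose c hc hcK using hlow
  refine ⟨∏ i, c i, Finset.prod_pos fun i _ => hc i, fun H B hH hB => ?_⟩
  have hHr : (0 : ℝ) < H := by exact_mod_cast hH
  have h1 : ((Fintype.piFinset (fun i => PW n (k i) (e i) H y) : Finset _) : Set _) ⊆
      CovPoint E k e H B := by
    intro F hF
    rw [Finset.mem_coe, Fintype.mem_piFinset] at hF
    have hw : ∀ i, ∃ w : ℤ, w ^ k i = eval y (F i) := fun i => (mem_PW.1 (hF i)).2
    choose w hw using hw
    refine ⟨fun i => (mem_FF _).1 (mem_PW.1 (hF i)).1, y, ?_, ?_, hyV,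
      fun i => (w i : ℚ), fun i => ?_⟩
    · intro h
      have h2 := hy.2.1
      rw [h] at h2
      simp only [Pi.zero_apply, abs_zero] at h2
      have := hy.2.2.1
      omega
    · intro j
      refine (hy.2.2.2 j).trans ?_
      exact_mod_cast hb.trans hB
    · rw [← hw i, Int.cast_pow]
  have h2 := Set.ncard_le_ncard h1 (fin_cov E k e H B)
  rw [Set.ncard_coe_finset, Fintype.card_piFinset] at h2
  have h3 : (((∏ i, (PW n (k i) (e i) H y).card : ℕ)) : ℝ) ≤ ((CovPoint E k e H B).ncard : ℝ) :=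
    Nat.cast_le.2 h2
  refine le_trans ?_ h3
  rw [card_systems, Nat.cast_prod, Nat.cast_prod, ← rpow_prod' k H hH]
  have h4 : (∏ i, c i) * (∏ i, ((H : ℝ) ^ ((1 : ℝ) / k i) / H)) *
      ∏ i, ((FF n (k i * e i) H).card : ℝ) =
      ∏ i, (c i * ((H : ℝ) ^ ((1 : ℝ) / k i) / H) * ((FF n (k i * e i) H).card : ℝ)) := by
    rw [Finset.prod_mul_distrib, Finset.prod_mul_distrib]
  rw [h4]
  refine Finset.prod_le_prod (fun i _ => ?_) (fun i _ => hcK i H hH)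
  exact mul_nonneg (mul_nonneg (hc i).le (div_nonneg (Real.rpow_nonneg hHr.le _) hHr.le))
    (Nat.cast_nonneg _)

theorem sum_ke {s : ℕ} (k e : Fin s → ℕ) (hk : ∀ i, 1 ≤ k i) :
    ∑ i, k i * e i = ∑ i, (k i - 1) * e i + ∑ i, e i := by
  rw [← Finset.sum_add_distrib]
  refine Finset.sum_congr rfl fun i _ => ?_
  have h2 : k i = (k i - 1) + 1 := by have := hk i; omega
  conv_lhs => rw [h2]
  ring

/-- **Random abelian covers of an arbitrary projective variety.** -/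
theorem covers' (n m s : ℕ) (E : Set (MvPolynomial (Fin (n + 1)) ℚ))
    (hE : ∀ P ∈ E, ∃ e, P.IsHomogeneous e) (hprime : (Ideal.span E).IsPrime)
    (hdim : Algebra.trdeg ℚ (MvPolynomial (Fin (n + 1)) ℚ ⧸ Ideal.span E) = m + 1)
    (k e : Fin s → ℕ) (hk : ∀ i, 1 ≤ k i) :
    (m + 2 ≤ ∑ i, (k i - 1) * e i → ∃ C : ℝ, 0 < C ∧ ∀ H B : ℕ, 1 ≤ H → 1 ≤ B →
      ((CovPoint E k e H B).ncard : ℝ) ≤ C * (H : ℝ) ^ (-∑ i, (1 - 1 / (k i : ℝ))) *
        (1 + (B : ℝ) ^ (m + 1 + ∑ i, e i) / (H : ℝ) ^ (∑ i, k i * e i)) *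
          ((Systems n (fun i => k i * e i) H).ncard : ℝ)) ∧
    (m + 1 ≤ ∑ i, (k i - 1) * e i → ¬ IsLin E → ∃ C : ℝ, 0 < C ∧ ∀ H B : ℕ, 1 ≤ H → 1 ≤ B →
      ((CovPoint E k e H B).ncard : ℝ) ≤ C * (H : ℝ) ^ (-∑ i, (1 - 1 / (k i : ℝ))) *
        (1 + (B : ℝ) ^ ((m : ℝ) + 1 - 1 / ((m : ℝ) + 3) + ((∑ i, e i : ℕ) : ℝ)) /
          (H : ℝ) ^ (∑ i, k i * e i)) *
          ((Systems n (fun i => k i * e i) H).ncard : ℝ)) ∧
    (∀ B₀ : ℕ, (∃ x : Fin (n + 1) → ℤ, x ≠ 0 ∧ (∀ j, |x j| ≤ B₀) ∧ InVar E x) →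
      ∃ c : ℝ, 0 < c ∧ ∀ H B : ℕ, 1 ≤ H → B₀ ≤ B →
        c * (H : ℝ) ^ (-∑ i, (1 - 1 / (k i : ℝ))) *
          ((Systems n (fun i => k i * e i) H).ncard : ℝ) ≤
            ((CovPoint E k e H B).ncard : ℝ)) := by
  refine ⟨fun hd => ?_, fun hd hlin => ?_, fun B₀ hpt => cov_lower E hE k e hk B₀ hpt⟩
  · obtain ⟨A, hA0, hA⟩ := count1 E hdim
    obtain ⟨C, hC0, hC⟩ := cov_upper E hE A ((m : ℝ) + 1) hA0 hA k e hk (by
      rw [sum_ke k e hk]
      have h1 : ((m + 2 : ℕ) : ℝ) ≤ ((∑ i, (k i - 1) * e i : ℕ) : ℝ) := Nat.cast_le.2 hd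
      rw [Nat.cast_add (∑ i, (k i - 1) * e i)]
      rw [Nat.cast_add] at h1
      norm_num at h1 ⊢
      linarith)
    refine ⟨C, hC0, fun H B hH hB => ?_⟩
    have h1 := hC H B hH hB
    have h2 : (B : ℝ) ^ ((m : ℝ) + 1 + ((∑ i, e i : ℕ) : ℝ)) = (B : ℝ) ^ (m + 1 + ∑ i, e i) := by
      rw [← Real.rpow_natCast]
      congr 1
      rw [Nat.cast_add, Nat.cast_add, Nat.cast_one]
    rwa [h2] at h1
  · obtain ⟨A, hA0, hA⟩ := count2 E hE hprime hdim hlin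
    exact cov_upper E hE A _ hA0 hA k e hk (by
      rw [sum_ke k e hk]
      have h1 : ((m + 1 : ℕ) : ℝ) ≤ ((∑ i, (k i - 1) * e i : ℕ) : ℝ) := Nat.cast_le.2 hd
      have h2 : (0 : ℝ) < 1 / ((m : ℝ) + 3) := by positivity
      rw [Nat.cast_add (∑ i, (k i - 1) * e i)]
      rw [Nat.cast_add] at h1
      generalize ((∑ i, (k i - 1) * e i : ℕ) : ℝ) = u at h1 ⊢
      push_cast at h1 ⊢
      linarith)

end Pool.Agent.Helper17.RV
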