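import Mathlib

set_option autoImplicit false

/-! # Integral points of a hypersurface in a residue class lie on a hyperplane -/

namespace Pool.Agent.Helper17.RV

open MvPolynomial Finset

/-- first-order Taylor expansion modulo `p ^ 2` -/
theorem taylor {k : ℕ} (G : MvPolynomial (Fin k) ℤ) (P E : Fin k → ℤ) (p : ℤ) :
    ∃ c : ℤ, eval (fun i => P i + p * E i) G =
      eval P G + p * ∑ i, eval P (pderiv i G) * E i + p ^ 2 * c := by
  classical
  induction G using MvPolynomial.induction_on with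
  | C a => exact ⟨0, by simp⟩
  | add f g hf hg =>
    obtain ⟨c, hc⟩ := hf
    obtain ⟨c', hc'⟩ := hg
    refine ⟨c + c', ?_⟩
    simp only [map_add, hc, hc', add_mul, Finset.sum_add_distrib]
    ring
  | mul_X f j hf =>
    obtain ⟨c, hc⟩ := hf
    refine ⟨(∑ i, eval P (pderiv i f) * E i) * E j + c * (P j + p * E j), ?_⟩
    have h1 : ∑ i, eval P (pderiv i (f * X j)) * E i =
        (∑ i, eval P (pderiv i f) * E i) * P j + eval P f * E j := by
      have h2 : ∀ i, eval P (pderiv i (f * X j)) * E i =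
          eval P (pderiv i f) * E i * P j + (if i = j then eval P f * E j else 0) := by
        intro i
        rw [Derivation.leibniz, pderiv_X]
        by_cases h : i = j
        · subst h
          simp
          ring
        · rw [if_neg h, Pi.single_eq_of_ne (Ne.symm h)]
          simp
          ring
      rw [Finset.sum_congr rfl (fun i _ => h2 i), Finset.sum_add_distrib, ← Finset.sum_mul,
        Finset.sum_ite_eq' Finset.univ j (fun _ => eval P f * E j)]
      simp
    rw [h1, map_mul, hc, eval_X, map_mul, eval_X]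
    ring

theorem det_dvd {k : ℕ} (p : ℕ) [Fact p.Prime] (E : Matrix (Fin (k + 1)) (Fin (k + 1)) ℤ)
    (g : Fin (k + 1) → ℤ) (hg : ((g 0 : ℤ) : ZMod p) ≠ 0)
    (h : ∀ a, (p : ℤ) ∣ ∑ i, g i * E a i) : (p : ℤ) ∣ E.det := by
  have h1 : ((E.det : ℤ) : ZMod p) = 0 := by
    have h2 : ((E.det : ℤ) : ZMod p) = (E.map (Int.castRingHom (ZMod p))).det := by
      rw [← RingHom.mapMatrix_apply, ← RingHom.map_det]
      rfl
    rw [h2, ← Matrix.exists_mulVec_eq_zero_iff]
    refine ⟨fun i => ((g i : ℤ) : ZMod p), ?_, ?_⟩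
    · intro h3
      exact hg (congrFun h3 0)
    · funext a
      have h3 := (ZMod.intCast_zmod_eq_zero_iff_dvd _ p).2 (h a)
      rw [Pi.zero_apply, ← h3, Matrix.mulVec, dotProduct]
      push_cast
      refine Finset.sum_congr rfl fun i _ => ?_
      simp [mul_comm]
  exact (ZMod.intCast_zmod_eq_zero_iff_dvd _ p).1 h1

/-- a set which spans contains a basis with nonzero determinant -/
theorem exists_det {k : ℕ} (s : Set (Fin k → ℚ)) (hs : Submodule.span ℚ s = ⊤) :
    ∃ f : Fin k → (Fin k → ℚ), (∀ a, f a ∈ s) ∧ (Matrix.of f).det ≠ 0 := by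
  classical
  obtain ⟨b, hb, hbs, hbl⟩ := exists_linearIndependent ℚ s
  have hb2 : Submodule.span ℚ b = ⊤ := by rw [hbs, hs]
  let B : Module.Basis b ℚ (Fin k → ℚ) := Module.Basis.mk hbl (by
    rw [Subtype.range_coe, hb2])
  haveI : Fintype b := FiniteDimensional.fintypeBasisIndex B
  have hcard : Fintype.card b = k := by
    rw [← Module.finrank_eq_card_basis B, Module.finrank_fin_fun]
  let e : Fin k ≃ b := (Fintype.equivFinOfCardEq hcard).symm
  refine ⟨fun a => (e a : Fin k → ℚ), fun a => hb (e a).2, ?_⟩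
  have h1 : LinearIndependent ℚ (fun a => (e a : Fin k → ℚ)) := hbl.comp e e.injective
  have h2 : IsUnit (Matrix.of fun a => (e a : Fin k → ℚ)) := by
    rw [← Matrix.linearIndependent_rows_iff_isUnit]
    exact h1
  exact ((Matrix.isUnit_iff_isUnit_det _).1 h2).ne_zero

/-- **Integral points in a nonsingular residue class lie on a hyperplane.** -/
theorem hyper {k : ℕ} (p : ℕ) [Fact p.Prime] (T : ℕ) (G : MvPolynomial (Fin (k + 1)) ℤ)
    (S : Finset (Fin (k + 1) → ℤ)) (P₀ : Fin (k + 1) → ℤ) (hP₀ : P₀ ∈ S)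
    (hc : ((eval P₀ (pderiv 0 G) : ℤ) : ZMod p) ≠ 0)
    (hT : ∀ P ∈ S, ∀ i, |P i| ≤ T) (hcl : ∀ P ∈ S, ∀ i, ((P i : ℤ) : ZMod p) = P₀ i)
    (h0 : ∀ P ∈ S, eval P G = 0)
    (hp : (k + 1).factorial * (2 * T) ^ (k + 1) < p ^ (k + 2)) :
    ∃ a : Fin (k + 1) → ℚ, a ≠ 0 ∧ ∃ a0 : ℚ, ∀ P ∈ S, ∑ i, a i * (P i : ℚ) = a0 := by
  classical
  let s : Set (Fin (k + 1) → ℚ) := {v | ∃ P ∈ S, v = fun i => ((P i - P₀ i : ℤ) : ℚ)}
  by_cases hs : Submodule.span ℚ s = ⊤
  · exfalso
    obtain ⟨f, hf, hdet⟩ := exists_det s hs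
    choose P hPS hPf using hf
    have hdvd : ∀ a i, (p : ℤ) ∣ P a i - P₀ i := by
      intro a i
      rw [← ZMod.intCast_zmod_eq_zero_iff_dvd]
      push_cast
      rw [hcl _ (hPS a) i, sub_self]
    choose E hE using hdvd
    have hpz : (p : ℤ) ≠ 0 := by exact_mod_cast (Fact.out : p.Prime).ne_zero
    have hg : ∀ a, (p : ℤ) ∣ ∑ i, eval P₀ (pderiv i G) * E a i := by
      intro a
      obtain ⟨c, hc'⟩ := taylor G P₀ (E a) p
      have h1 : (fun i => P₀ i + (p : ℤ) * E a i) = P a := by
        funext i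
        rw [← hE a i]
        ring
      rw [h1, h0 _ (hPS a), h0 _ hP₀] at hc'
      refine ⟨-c, ?_⟩
      have h2 : (p : ℤ) * (∑ i, eval P₀ (pderiv i G) * E a i) = p * (p * -c) := by
        linear_combination -hc'
      exact mul_left_cancel₀ hpz h2
    have h3 := det_dvd p (Matrix.of E) (fun i => eval P₀ (pderiv i G)) hc hg
    -- the integral matrix
    let D : Matrix (Fin (k + 1)) (Fin (k + 1)) ℤ := Matrix.of fun a i => P a i - P₀ i
    have hD : D = (p : ℤ) • Matrix.of E := by
      ext a i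
      simp [D, hE a i]
    have hDdet : D.det = (p : ℤ) ^ (k + 1) * (Matrix.of E).det := by
      rw [hD, Matrix.det_smul, Fintype.card_fin]
    have hDd : (p : ℤ) ^ (k + 2) ∣ D.det := by
      rw [hDdet, pow_succ (p : ℤ) (k + 1)]
      exact mul_dvd_mul_left _ h3
    have hDne : D.det ≠ 0 := by
      intro h4
      apply hdet
      have h5 : Matrix.of f = D.map (Int.castRingHom ℚ) := by
        ext a i
        simp [D, hPf a]
      rw [h5, ← RingHom.mapMatrix_apply, ← RingHom.map_det, h4, map_zero]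
    have hle : |D.det| ≤ (((k + 1).factorial * (2 * T) ^ (k + 1) : ℕ) : ℤ) := by
      have h4 : ∀ i j, (AbsoluteValue.abs : AbsoluteValue ℤ ℤ) (D i j) ≤ (2 * T : ℤ) := by
        intro a i
        show |P a i - P₀ i| ≤ 2 * (T : ℤ)
        have h5 := hT _ (hPS a) i
        have h6 := hT _ hP₀ i
        refine (abs_sub _ _).trans ?_
        linarith
      have h5 := Matrix.det_le (abv := (AbsoluteValue.abs : AbsoluteValue ℤ ℤ)) h4
      rw [Fintype.card_fin] at h5
      simp only [nsmul_eq_mul] at h5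
      push_cast
      exact h5
    have h6 := Int.le_of_dvd (abs_pos.2 hDne) ((dvd_abs _ _).2 hDd)
    have h7 : ((p ^ (k + 2) : ℕ) : ℤ) ≤ (((k + 1).factorial * (2 * T) ^ (k + 1) : ℕ) : ℤ) := by
      push_cast at h6 hle ⊢
      exact h6.trans hle
    have h8 : p ^ (k + 2) ≤ (k + 1).factorial * (2 * T) ^ (k + 1) := by exact_mod_cast h7
    omega
  · obtain ⟨φ, hφ, hle⟩ := Submodule.exists_le_ker_of_lt_top _ (lt_top_iff_ne_top.2 hs)
    refine ⟨fun i => φ (Pi.single i 1), ?_, φ fun i => (P₀ i : ℚ), ?_⟩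
    · intro h
      apply hφ
      refine LinearMap.pi_ext' fun i => ?_
      ext
      simpa using congrFun h i
    · intro P hP
      have h1 : (fun i => ((P i - P₀ i : ℤ) : ℚ)) ∈ LinearMap.ker φ :=
        hle (Submodule.subset_span ⟨P, hP, rfl⟩)
      rw [LinearMap.mem_ker] at h1
      have h2 : (fun i => ((P i - P₀ i : ℤ) : ℚ)) = (fun i => (P i : ℚ)) - fun i => (P₀ i : ℚ) := by
        funext i
        push_cast
        rfl
      rw [h2, map_sub, sub_eq_zero] at h1
      rw [← h1]
      have h3 : (fun i => (P i : ℚ)) = ∑ i, (P i : ℚ) • (Pi.single i (1 : ℚ) : Fin (k + 1) → ℚ) := by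
        funext j
        rw [Finset.sum_apply, Finset.sum_eq_single j]
        · simp
        · intro i _ hij
          simp [Pi.single_eq_of_ne (Ne.symm hij)]
        · intro h
          exact absurd (Finset.mem_univ _) h
      rw [h3, map_sum]
      refine Finset.sum_congr rfl fun i _ => ?_
      rw [map_smul, smul_eq_mul, mul_comm]

end Pool.Agent.Helper17.RV
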