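import Pool.Agent.Helper17.RV.Lim
import Pool.Agent.Helper17.RV.Fam

set_option autoImplicit false

/-! # The density of the forms vanishing at a point -/

namespace Pool.Agent.Helper17.RV

open MvPolynomial Finset Filter Topology Pool.Agent.R870.RC

variable {n : ℕ}

theorem eval_Phi {d : ℕ} (c : Mo n d → ℤ) (x : Fin (n + 1) → ℤ) :
    eval x (Phi n d c) = ∑ m : Mo n d, c m * ∏ i, x i ^ (m.1 i) := by
  unfold Phi
  rw [map_sum]
  refine Finset.sum_congr rfl fun m _ => ?_
  rw [eval_monomial]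
  congr 1
  exact Finsupp.prod_fintype _ _ (fun i => pow_zero _)

theorem card_zero_eq (d H : ℕ) (x : Fin (n + 1) → ℤ) :
    ((FF n d H).filter (fun F => eval x F = 0)).card =
      ((Fintype.piFinset (fun _ : Mo n d => Finset.Icc (-(H : ℤ)) H)).filter
        (fun c => ∑ m, c m * ∏ i, x i ^ (m.1 i) = 0)).card := by
  classical
  have h1 : (FF n d H).filter (fun F => eval x F = 0) =
      ((Fintype.piFinset (fun _ : Mo n d => Finset.Icc (-(H : ℤ)) H)).filter
        (fun c => ∑ m, c m * ∏ i, x i ^ (m.1 i) = 0)).image (Phi n d) := by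
    ext F
    unfold FF
    rw [Finset.mem_filter, Finset.mem_image, Finset.mem_image]
    constructor
    · rintro ⟨⟨c, hc, rfl⟩, h0⟩
      rw [eval_Phi] at h0
      exact ⟨c, Finset.mem_filter.2 ⟨hc, h0⟩, rfl⟩
    · rintro ⟨c, hc, rfl⟩
      rw [Finset.mem_filter] at hc
      refine ⟨⟨c, hc.1, rfl⟩, ?_⟩
      rw [eval_Phi]
      exact hc.2
  rw [h1, Finset.card_image_of_injective _ Phi_inj]

/-- the density of the forms of degree `d` vanishing at a given point -/
theorem form_lim (d : ℕ) (x : Fin (n + 1) → ℤ)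
    (hx : ∃ a : Fin (n + 1) → ℤ, ∑ i, a i * x i = 1) :
    ∃ κ : ℝ, 0 < κ ∧ Tendsto (fun H : ℕ =>
      ((((FF n d H).filter (fun F => eval x F = 0)).card : ℕ) : ℝ) * H / ((FF n d H).card : ℝ))
      atTop (𝓝 κ) := by
  classical
  obtain ⟨K0, G, hK0, hG, hG1⟩ := exists_one d x hx
  have ha : ∑ m : Mo n d, (fun m : Mo n d => G.coeff m.1) m *
      (fun m : Mo n d => ∏ i, x i ^ (m.1 i)) m = 1 := by
    have h1 : Phi n d (fun m : Mo n d => G.coeff m.1) = G := by
      have h2 : G ∈ FF n d K0 := (mem_FF G).2 hG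
      unfold FF at h2
      obtain ⟨c, _, hc⟩ := Finset.mem_image.1 h2
      have h3 : (fun m : Mo n d => G.coeff m.1) = c := by
        funext m
        rw [← hc, coeff_Phi, dif_pos m.2]
      rw [h3, hc]
    rw [← hG1]
    conv_rhs => rw [← h1]
    rw [eval_Phi]
  obtain ⟨κ, hκ, hlim⟩ := lattice_count (fun m : Mo n d => ∏ i, x i ^ (m.1 i))
    (fun m : Mo n d => G.coeff m.1) ha
  set N : ℕ := (Mo n d).card with hN
  have hN1 : 1 ≤ N := by
    rw [hN, card_Mo]
    exact Nat.choose_pos (by omega)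
  refine ⟨κ * (1 / 2) ^ N, by positivity, ?_⟩
  have h2 : Tendsto (fun H : ℕ => (H : ℝ) / (2 * H + 1)) atTop (𝓝 (1 / 2)) := by
    have h3 : Tendsto (fun H : ℕ => (1 : ℝ) / (2 + 1 / (H : ℝ))) atTop (𝓝 (1 / (2 + 0))) := by
      refine Tendsto.div tendsto_const_nhds ?_ (by norm_num)
      exact Tendsto.add tendsto_const_nhds tendsto_one_div_atTop_nhds_zero_nat
    rw [add_zero] at h3
    refine h3.congr' ?_
    filter_upwards [eventually_gt_atTop 0] with H hH
    have hHr : (0 : ℝ) < H := by exact_mod_cast hH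
    field_simp
  have h4 := hlim.mul (h2.pow N)
  refine h4.congr' ?_
  filter_upwards [eventually_gt_atTop 0] with H hH
  have hHr : (0 : ℝ) < H := by exact_mod_cast hH
  rw [card_FF, card_zero_eq, Fintype.card_coe, ← hN]
  push_cast
  rw [div_pow]
  obtain ⟨q, hq⟩ : ∃ q, N = q + 1 := ⟨N - 1, by omega⟩
  rw [hq, Nat.add_sub_cancel]
  have h5 : (0 : ℝ) < (2 * (H : ℝ) + 1) ^ (q + 1) := by positivity
  rw [div_mul_div_comm, div_eq_div_iff (by positivity) (by positivity)]
  ring

end Pool.Agent.Helper17.RV
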