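import Pool.Agent.Helper17.RV.Pts

set_option autoImplicit false

/-! # The limit law for the rational point -/

namespace Pool.Agent.Helper17.RV

open MvPolynomial Finset Filter Topology Pool.Agent.R870.RC

variable {n : ℕ}

theorem ax_lim {s : ℕ} (d : Fin s → ℕ) (x : Fin (n + 1) → ℤ)
    (hx : ∃ a : Fin (n + 1) → ℤ, ∑ i, a i * x i = 1) :
    ∃ μ : ℝ, 0 < μ ∧ Tendsto (fun H : ℕ => (AX d H x : ℝ) * (H : ℝ) ^ s / ((Sy n d H).card : ℝ))
      atTop (𝓝 μ) := by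
  classical
  have h1 := fun i => form_lim (d i) x hx
  choose κ hκ hlim using h1
  refine ⟨∏ i, κ i, Finset.prod_pos fun i _ => hκ i, ?_⟩
  have h2 := tendsto_finsetProd (Finset.univ : Finset (Fin s)) (fun i _ => hlim i)
  refine h2.congr fun H => ?_
  rw [Finset.prod_div_distrib, Finset.prod_mul_distrib, Finset.prod_const, Finset.card_univ,
    Fintype.card_fin, card_Sy]
  unfold AX
  rw [Nat.cast_prod, Nat.cast_prod]
  rfl

theorem one_eq (E : Set (MvPolynomial (Fin (n + 1)) ℚ))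
    (hE : ∀ P ∈ E, ∃ e, P.IsHomogeneous e) {s : ℕ} (d : Fin s → ℕ) (H T : ℕ) :
    SecPoint E d H T = ((One E d H T : Finset _) : Set _) := by
  ext F
  rw [Finset.mem_coe, mem_One]
  unfold SecPoint Sy
  constructor
  · rintro ⟨hF, x, hx, hxT, hxV, h0⟩
    obtain ⟨g, y, i0, b, hg, hxy, hy, hb⟩ := exists_prim x hx T hxT
    refine ⟨Fintype.mem_piFinset.2 fun i => (mem_FF _).2 (hF i), y, mem_PT.2 ⟨hy.1,
      inVar_scale E hE g hg x y hxy hxV, ht_le.2 fun j => (hy.2.2.2 j).trans (by exact_mod_cast hb)⟩,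
      fun i => ?_⟩
    have h2 := eval_scale (hF i) g x y hxy
    rw [h0 i] at h2
    exact (mul_eq_zero.1 h2.symm).resolve_left (pow_ne_zero _ hg)
  · rintro ⟨hF, x, hx, h0⟩
    rw [mem_PT] at hx
    obtain ⟨i0, hi0⟩ := prim_ht x hx.1
    refine ⟨fun i => (mem_FF _).1 (Fintype.mem_piFinset.1 hF i), x, ?_, ht_le.1 hx.2.2, hx.2.1,
      h0⟩
    intro h
    have h2 : x i0 = 0 := congrFun h i0
    have h3 := hi0.2.1
    rw [h2, abs_zero] at h3
    have := hi0.2.2.1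
    omega

section

variable (E : Set (MvPolynomial (Fin (n + 1)) ℚ)) {s : ℕ} (d : Fin s → ℕ)

/-- the bounds used below, all together -/
theorem bounds (A θ : ℝ) (hA0 : 0 ≤ A)
    (hcount : ∀ T : ℕ, 1 ≤ T → ∀ S : Finset (Fin (n + 1) → ℤ),
      (∀ x ∈ S, (∀ i, |x i| ≤ T) ∧ InVar E x) → (S.card : ℝ) ≤ A * (T : ℝ) ^ θ)
    (hd : ∀ i, 1 ≤ d i) (hθ : θ < ((∑ i, d i : ℕ) : ℝ)) :
    ∃ C : ℝ, 0 < C ∧ (∀ H T R : ℕ, 1 ≤ H → 1 ≤ T →
      (∑ x ∈ (PT E T).filter (fun x => R < ht x), (AX d H x : ℝ)) * (H : ℝ) ^ s /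
        ((Sy n d H).card : ℝ) ≤
        C * (((R : ℝ) + 1) ^ (θ - ((∑ i, d i : ℕ) : ℝ)) + (T : ℝ) ^ θ / (H : ℝ) ^ (∑ i, d i))) ∧
    (∀ H T R : ℕ, 1 ≤ H → 1 ≤ T →
      ((Far E d H T R).card : ℝ) * (H : ℝ) ^ s / ((Sy n d H).card : ℝ) ≤
        C * (((R : ℝ) + 1) ^ (θ - ((∑ i, d i : ℕ) : ℝ)) + (T : ℝ) ^ θ / (H : ℝ) ^ (∑ i, d i))) ∧
    (∀ H R : ℕ, 1 ≤ H → 1 ≤ R →
      ((∑ p ∈ PP E R, BX d H p.1 p.2 : ℕ) : ℝ) * (H : ℝ) ^ s / ((Sy n d H).card : ℝ) ≤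
        C * (R : ℝ) ^ (2 * (n + 1) + 2 * s) / (H : ℝ) ^ s) := by
  obtain ⟨C1, hC1, h1⟩ := tail_AX E A θ hA0 hcount d hθ
  obtain ⟨C2, hC2, h2⟩ := pairs_le E d hd
  have key : ∀ H T R : ℕ, 1 ≤ H → 1 ≤ T →
      (∑ x ∈ (PT E T).filter (fun x => R < ht x), (AX d H x : ℝ)) * (H : ℝ) ^ s /
        ((Sy n d H).card : ℝ) ≤ (C1 + C2) *
        (((R : ℝ) + 1) ^ (θ - ((∑ i, d i : ℕ) : ℝ)) + (T : ℝ) ^ θ / (H : ℝ) ^ (∑ i, d i)) := by
    intro H T R hH hT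
    have hS := card_Sy_pos (n := n) d H
    have hHs : (0 : ℝ) < (H : ℝ) ^ s := by
      have : (0 : ℝ) < H := by exact_mod_cast hH
      positivity
    rw [div_le_iff₀ hS]
    have h3 := h1 H T R hH hT
    have h4 : 0 ≤ ((R : ℝ) + 1) ^ (θ - ((∑ i, d i : ℕ) : ℝ)) +
        (T : ℝ) ^ θ / (H : ℝ) ^ (∑ i, d i) := by
      have h5 : 0 ≤ ((R : ℝ) + 1) ^ (θ - ((∑ i, d i : ℕ) : ℝ)) :=
        Real.rpow_nonneg (by positivity) _
      have h6 : 0 ≤ (T : ℝ) ^ θ := Real.rpow_nonneg (Nat.cast_nonneg _) _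
      positivity
    set X : ℝ := ((R : ℝ) + 1) ^ (θ - ((∑ i, d i : ℕ) : ℝ)) + (T : ℝ) ^ θ / (H : ℝ) ^ (∑ i, d i)
    calc _ ≤ (C1 * (((Sy n d H).card : ℝ) / (H : ℝ) ^ s) * X) * (H : ℝ) ^ s :=
          mul_le_mul_of_nonneg_right h3 hHs.le
      _ = C1 * X * ((Sy n d H).card : ℝ) := by
          field_simp
      _ ≤ (C1 + C2) * X * ((Sy n d H).card : ℝ) := by
          refine mul_le_mul_of_nonneg_right ?_ hS.le
          exact mul_le_mul_of_nonneg_right (by linarith) h4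
  refine ⟨C1 + C2, by positivity, key, fun H T R hH hT => ?_, fun H R hH hR => ?_⟩
  · refine le_trans ?_ (key H T R hH hT)
    have hS := card_Sy_pos (n := n) d H
    refine div_le_div_of_nonneg_right ?_ hS.le
    exact mul_le_mul_of_nonneg_right (card_Far_le E d H T R) (pow_nonneg (Nat.cast_nonneg _) _)
  · have hS := card_Sy_pos (n := n) d H
    have hHr : (0 : ℝ) < H := by exact_mod_cast hH
    have hRr : (0 : ℝ) < R := by exact_mod_cast hR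
    rw [div_le_iff₀ hS]
    have h3 := h2 H R hH hR
    calc _ ≤ (C2 * ((Sy n d H).card : ℝ) * (R : ℝ) ^ (2 * (n + 1) + 2 * s) / (H : ℝ) ^ (2 * s)) *
          (H : ℝ) ^ s := mul_le_mul_of_nonneg_right h3 (by positivity)
      _ = C2 * ((R : ℝ) ^ (2 * (n + 1) + 2 * s) / (H : ℝ) ^ s) * ((Sy n d H).card : ℝ) := by
          rw [two_mul s, pow_add (H : ℝ) s s]
          field_simp
      _ ≤ (C1 + C2) * ((R : ℝ) ^ (2 * (n + 1) + 2 * s) / (H : ℝ) ^ s) *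
          ((Sy n d H).card : ℝ) := by
          refine mul_le_mul_of_nonneg_right ?_ hS.le
          exact mul_le_mul_of_nonneg_right (by linarith) (by positivity)
      _ = _ := by ring

/-- the limit law -/
theorem law (hE : ∀ P ∈ E, ∃ e, P.IsHomogeneous e) (A θ : ℝ) (hA0 : 0 ≤ A) (hθ0 : 0 < θ)
    (hcount : ∀ T : ℕ, 1 ≤ T → ∀ S : Finset (Fin (n + 1) → ℤ),
      (∀ x ∈ S, (∀ i, |x i| ≤ T) ∧ InVar E x) → (S.card : ℝ) ≤ A * (T : ℝ) ^ θ)
    (hd : ∀ i, 1 ≤ d i) (hθ : θ < ((∑ i, d i : ℕ) : ℝ)) (x0 : Fin (n + 1) → ℤ)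
    (hx0 : ∃ a : Fin (n + 1) → ℤ, ∑ i, a i * x0 i = 1) (hx0V : InVar E x0) :
    ∃ (μ : (Fin (n + 1) → ℤ) → ℝ) (c : ℝ), 0 < c ∧ HasSum μ (2 * c) ∧
      (∀ x, (∃ a : Fin (n + 1) → ℤ, ∑ i, a i * x i = 1) ∧ InVar E x → 0 < μ x ∧
        Tendsto (fun H : ℕ => (AX d H x : ℝ) * (H : ℝ) ^ s / ((Sy n d H).card : ℝ))
          atTop (𝓝 (μ x))) ∧
      (∀ x, ¬ ((∃ a : Fin (n + 1) → ℤ, ∑ i, a i * x i = 1) ∧ InVar E x) → μ x = 0) ∧
      (∀ η : ℝ, 0 < η → ∀ T : ℕ → ℕ, Tendsto T atTop atTop →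
        (∀ᶠ H : ℕ in atTop, (T H : ℝ) ≤ (H : ℝ) ^ (((∑ i, d i : ℕ) : ℝ) / θ - η)) →
        Tendsto (fun H : ℕ => ((One E d H (T H)).card : ℝ) * (H : ℝ) ^ s /
          ((Sy n d H).card : ℝ)) atTop (𝓝 c)) := by
  classical
  obtain ⟨C, hC0, hC1, hC2, hC3⟩ := bounds E d A θ hA0 hcount hd hθ
  set D : ℕ := ∑ i, d i with hD
  have hs : 1 ≤ s := by
    by_contra h
    have h1 : s = 0 := by omega
    subst h1
    simp only [Finset.univ_eq_empty, Finset.sum_empty] at hD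
    rw [hD, Nat.cast_zero] at hθ
    linarith
  have hex : ∀ x : Fin (n + 1) → ℤ, ∃ m : ℝ,
      ((∃ a : Fin (n + 1) → ℤ, ∑ i, a i * x i = 1) ∧ InVar E x → 0 < m ∧
        Tendsto (fun H : ℕ => (AX d H x : ℝ) * (H : ℝ) ^ s / ((Sy n d H).card : ℝ))
          atTop (𝓝 m)) ∧
      (¬ ((∃ a : Fin (n + 1) → ℤ, ∑ i, a i * x i = 1) ∧ InVar E x) → m = 0) := by
    intro x
    by_cases h : (∃ a : Fin (n + 1) → ℤ, ∑ i, a i * x i = 1) ∧ InVar E x
    · obtain ⟨m, hm, hlim⟩ := ax_lim d x h.1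
      exact ⟨m, fun _ => ⟨hm, hlim⟩, fun h' => absurd h h'⟩
    · exact ⟨0, fun h' => absurd h' h, fun _ => rfl⟩
  choose μ hμ1 hμ2 using hex
  have hμ0 : ∀ x, 0 ≤ μ x := by
    intro x
    by_cases h : (∃ a : Fin (n + 1) → ℤ, ∑ i, a i * x i = 1) ∧ InVar E x
    · exact (hμ1 x h).1.le
    · rw [hμ2 x h]
  have hμPT : ∀ (T : ℕ) (x : Fin (n + 1) → ℤ), x ∈ PT E T → 0 < μ x ∧
      Tendsto (fun H : ℕ => (AX d H x : ℝ) * (H : ℝ) ^ s / ((Sy n d H).card : ℝ))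
          atTop (𝓝 (μ x)) := by
    intro T x hx
    rw [mem_PT] at hx
    exact hμ1 x ⟨hx.1, hx.2.1⟩
  -- the sums over finite sets converge
  have hsumlim : ∀ u : Finset (Fin (n + 1) → ℤ), (∃ T, u ⊆ PT E T) →
      Tendsto (fun H : ℕ => (∑ x ∈ u, (AX d H x : ℝ)) * (H : ℝ) ^ s / ((Sy n d H).card : ℝ))
        atTop (𝓝 (∑ x ∈ u, μ x)) := by
    rintro u ⟨T, hu⟩
    have h1 := tendsto_finsetSum u (fun x hx => (hμPT T x (hu hx)).2)
    refine h1.congr fun H => ?_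
    rw [Finset.sum_mul, Finset.sum_div]
  -- the tails
  have htail : ∀ R T : ℕ, 1 ≤ T → ∑ x ∈ (PT E T).filter (fun x => R < ht x), μ x ≤
      C * ((R : ℝ) + 1) ^ (θ - (D : ℝ)) := by
    intro R T hT
    have h1 := hsumlim ((PT E T).filter (fun x => R < ht x)) ⟨T, Finset.filter_subset _ _⟩
    have h2 : Tendsto (fun H : ℕ => C * (((R : ℝ) + 1) ^ (θ - (D : ℝ)) +
        (T : ℝ) ^ θ / (H : ℝ) ^ D)) atTop (𝓝 (C * (((R : ℝ) + 1) ^ (θ - (D : ℝ)) + 0))) := by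
      refine Tendsto.const_mul C (Tendsto.const_add _ ?_)
      have h3 : Tendsto (fun H : ℕ => (H : ℝ) ^ D) atTop atTop := by
        refine (tendsto_pow_atTop ?_).comp tendsto_natCast_atTop_atTop
        intro h0
        rw [h0, Nat.cast_zero] at hθ
        linarith
      exact h3.const_div_atTop _
    rw [add_zero] at h2
    refine le_of_tendsto_of_tendsto h1 h2 ?_
    filter_upwards [eventually_ge_atTop 1] with H hH
    exact hC1 H T R hH hT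
  have hfin : ∀ u : Finset (Fin (n + 1) → ℤ), ∀ R : ℕ, ∑ x ∈ u, μ x ≤
      ∑ x ∈ PT E R, μ x + C * ((R : ℝ) + 1) ^ (θ - (D : ℝ)) := by
    intro u R
    set T : ℕ := max (R + 1) (u.sup ht) with hT
    have h1 : ∑ x ∈ u, μ x ≤ ∑ x ∈ PT E T, μ x := by
      calc ∑ x ∈ u, μ x = ∑ x ∈ u.filter (fun x => (∃ a : Fin (n + 1) → ℤ, ∑ i, a i * x i = 1) ∧
            InVar E x), μ x := by
            rw [Finset.sum_filter]
            refine Finset.sum_congr rfl fun x _ => ?_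
            split_ifs with h
            · rfl
            · exact hμ2 x h
        _ ≤ _ := by
            refine Finset.sum_le_sum_of_subset_of_nonneg ?_ (fun x _ _ => hμ0 x)
            intro x hx
            rw [Finset.mem_filter] at hx
            exact mem_PT.2 ⟨hx.2.1, hx.2.2, (Finset.le_sup (f := ht) hx.1).trans (le_max_right _ _)⟩
    refine h1.trans ?_
    rw [← Finset.sum_filter_add_sum_filter_not (PT E T) (fun x => R < ht x), add_comm]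
    refine add_le_add ?_ (htail R T (le_trans (by omega) (le_max_left _ _)))
    refine Finset.sum_le_sum_of_subset_of_nonneg ?_ (fun x _ _ => hμ0 x)
    intro x hx
    rw [Finset.mem_filter, mem_PT] at hx
    exact mem_PT.2 ⟨hx.1.1, hx.1.2.1, not_lt.1 hx.2⟩
  have hsummable : Summable μ := summable_of_sum_le hμ0 (fun u => hfin u 1)
  set c : ℝ := (∑' x, μ x) / 2 with hc
  have hcle : ∀ R : ℕ, ∑ x ∈ PT E R, μ x ≤ 2 * c := by
    intro R
    rw [hc, mul_div_cancel₀ _ two_ne_zero]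
    exact hsummable.sum_le_tsum _ (fun x _ => hμ0 x)
  have hcge : ∀ R : ℕ, 2 * c ≤ ∑ x ∈ PT E R, μ x + C * ((R : ℝ) + 1) ^ (θ - (D : ℝ)) := by
    intro R
    rw [hc, mul_div_cancel₀ _ two_ne_zero]
    exact hsummable.tsum_le_of_sum_le (fun u => hfin u R)
  have hc0 : 0 < c := by
    have h1 := hcle (ht x0)
    have h2 : μ x0 ≤ ∑ x ∈ PT E (ht x0), μ x :=
      Finset.single_le_sum (fun x _ => hμ0 x) (mem_PT.2 ⟨hx0, hx0V, le_rfl⟩)
    have h3 := (hμ1 x0 ⟨hx0, hx0V⟩).1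
    linarith
  refine ⟨μ, c, hc0, ?_, hμ1, hμ2, ?_⟩
  · rw [hc, mul_div_cancel₀ _ two_ne_zero]
    exact hsummable.hasSum
  intro η hη T hT hTH
  rw [Metric.tendsto_atTop']
  intro ε hε
  -- choice of `R`
  have hR : ∃ R : ℕ, 1 ≤ R ∧ C * ((R : ℝ) + 1) ^ (θ - (D : ℝ)) < ε / 4 := by
    have h1 : Tendsto (fun R : ℕ => C * ((R : ℝ) + 1) ^ (θ - (D : ℝ))) atTop (𝓝 (C * 0)) := by
      refine Tendsto.const_mul C ?_
      have h2 := (tendsto_rpow_neg_atTop (y := (D : ℝ) - θ) (by linarith)).comp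
        (tendsto_atTop_add_const_right atTop (1 : ℝ) (tendsto_natCast_atTop_atTop (R := ℝ)))
      refine h2.congr fun R => ?_
      rw [Function.comp, neg_sub]
    rw [mul_zero] at h1
    obtain ⟨R, hR1, hR2⟩ := ((h1.eventually (gt_mem_nhds (by positivity : (0 : ℝ) < ε / 4))).and
      (eventually_ge_atTop 1)).exists
    exact ⟨R, hR2, hR1⟩
  obtain ⟨R, hR1, hR2⟩ := hR
  have e1 : ∀ᶠ H : ℕ in atTop, |(∑ x ∈ PT E R, (AX d H x : ℝ)) * (H : ℝ) ^ s /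
      ((Sy n d H).card : ℝ) - ∑ x ∈ PT E R, μ x| < ε / 4 := by
    have h1 := hsumlim (PT E R) ⟨R, Finset.Subset.refl _⟩
    rw [Metric.tendsto_atTop'] at h1
    obtain ⟨N, hN⟩ := h1 (ε / 4) (by positivity)
    filter_upwards [eventually_gt_atTop N] with H hH
    exact hN H hH
  have e2 : ∀ᶠ H : ℕ in atTop, C * (R : ℝ) ^ (2 * (n + 1) + 2 * s) / (H : ℝ) ^ s < ε / 4 := by
    have h1 : Tendsto (fun H : ℕ => C * (R : ℝ) ^ (2 * (n + 1) + 2 * s) / (H : ℝ) ^ s) atTop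
        (𝓝 0) := by
      have h3 : Tendsto (fun H : ℕ => (H : ℝ) ^ s) atTop atTop :=
        (tendsto_pow_atTop (by omega)).comp tendsto_natCast_atTop_atTop
      exact h3.const_div_atTop _
    exact h1.eventually (gt_mem_nhds (by positivity))
  have e3 : ∀ᶠ H : ℕ in atTop, C * (H : ℝ) ^ (-(η * θ)) < ε / 4 := by
    have h1 : Tendsto (fun H : ℕ => C * (H : ℝ) ^ (-(η * θ))) atTop (𝓝 (C * 0)) := by
      refine Tendsto.const_mul C ?_
      exact (tendsto_rpow_neg_atTop (y := η * θ) (by positivity)).comp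
        (tendsto_natCast_atTop_atTop (R := ℝ))
    rw [mul_zero] at h1
    exact h1.eventually (gt_mem_nhds (by positivity))
  have e4 := hT.eventually_ge_atTop R
  obtain ⟨N, hN⟩ := eventually_atTop.1 (e1.and (e2.and (e3.and (e4.and hTH))))
  refine ⟨max N 1, fun H hH => ?_⟩
  obtain ⟨h1, h2, h3, h4, hTH⟩ := hN H (le_trans (le_max_left _ _) hH.le)
  have hH1 : 1 ≤ H := le_trans (le_max_right _ _) hH.le
  have hHr : (1 : ℝ) ≤ H := by exact_mod_cast hH1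
  have hH0 : (0 : ℝ) < H := by linarith
  have hT1 : 1 ≤ T H := hR1.trans h4
  have hS := card_Sy_pos (n := n) d H
  have hTθ : (T H : ℝ) ^ θ / (H : ℝ) ^ D ≤ (H : ℝ) ^ (-(η * θ)) := by
    have h5 : (T H : ℝ) ^ θ ≤ ((H : ℝ) ^ ((D : ℝ) / θ - η)) ^ θ :=
      Real.rpow_le_rpow (Nat.cast_nonneg _) hTH hθ0.le
    rw [← Real.rpow_mul hH0.le] at h5
    calc (T H : ℝ) ^ θ / (H : ℝ) ^ D ≤ (H : ℝ) ^ (((D : ℝ) / θ - η) * θ) / (H : ℝ) ^ D :=
          div_le_div_of_nonneg_right h5 (by positivity)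
      _ = (H : ℝ) ^ (-(η * θ)) := by
          rw [← Real.rpow_natCast, ← Real.rpow_sub hH0]
          congr 1
          field_simp
          ring
  obtain ⟨ie1, ie2⟩ := incl_excl E hE d H R
  set W : ℝ := (H : ℝ) ^ s / ((Sy n d H).card : ℝ) with hW
  have hW0 : 0 < W := by positivity
  have f1 : 2 * ((One E d H R).card : ℝ) ≤ ∑ x ∈ PT E R, (AX d H x : ℝ) := by
    have := (Nat.cast_le (α := ℝ)).2 ie1
    push_cast at this
    exact this
  have f2 : ∑ x ∈ PT E R, (AX d H x : ℝ) ≤ 2 * ((One E d H R).card : ℝ) +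
      ((∑ p ∈ PP E R, BX d H p.1 p.2 : ℕ) : ℝ) := by
    have := (Nat.cast_le (α := ℝ)).2 ie2
    push_cast at this ⊢
    exact this
  have f3 : ((One E d H (T H)).card : ℝ) ≤ ((One E d H R).card : ℝ) +
      ((Far E d H (T H) R).card : ℝ) := by
    have := (Nat.cast_le (α := ℝ)).2 (card_One_le E d H (T H) R)
    push_cast at this
    exact this
  have f4 : ((One E d H R).card : ℝ) ≤ ((One E d H (T H)).card : ℝ) :=
    Nat.cast_le.2 (One_mono E d H h4)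
  have f5 : ((∑ p ∈ PP E R, BX d H p.1 p.2 : ℕ) : ℝ) * W < ε / 4 := by
    have h5 := hC3 H R hH1 hR1
    rw [mul_div_assoc] at h5
    exact h5.trans_lt h2
  have f6 : ((Far E d H (T H) R).card : ℝ) * W ≤ ε / 4 + ε / 4 := by
    have h5 := hC2 H (T H) R hH1 hT1
    rw [mul_div_assoc, mul_add] at h5
    have h6 := mul_le_mul_of_nonneg_left hTθ hC0.le
    linarith
  have f7 : |(∑ x ∈ PT E R, (AX d H x : ℝ)) * W - ∑ x ∈ PT E R, μ x| < ε / 4 := by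
    rw [mul_div_assoc] at h1
    exact h1
  have g1 := hcle R
  have g2 := hcge R
  have k1 := mul_le_mul_of_nonneg_right f1 hW0.le
  have k2 := mul_le_mul_of_nonneg_right f2 hW0.le
  have k3 := mul_le_mul_of_nonneg_right f3 hW0.le
  have k4 := mul_le_mul_of_nonneg_right f4 hW0.le
  rw [abs_lt] at f7
  rw [Real.dist_eq, mul_div_assoc, abs_lt]
  set o1 := ((One E d H R).card : ℝ) * W
  set o2 := ((One E d H (T H)).card : ℝ) * W
  set S1 := (∑ x ∈ PT E R, (AX d H x : ℝ)) * W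
  constructor
  · nlinarith
  · nlinarith

end

end Pool.Agent.Helper17.RV
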