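import Pool.Agent.Helper17.RV.Uniq
import Pool.Agent.Helper17.RV.LawDefs

set_option autoImplicit false

/-! # The limit law for the rational point: final form -/

namespace Pool.Agent.Helper17.RV

open MvPolynomial Finset Filter Topology Pool.Agent.R870.RC

variable {n : ℕ}

theorem gcd_iff (y : Fin (n + 1) → ℤ) :
    Finset.univ.gcd y = 1 ↔ ∃ a : Fin (n + 1) → ℤ, ∑ i, a i * y i = 1 := by
  constructor
  · intro h
    have h1 : Ideal.span (Set.range y) = ⊤ := by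
      have h2 : Ideal.span (Set.range y) = Ideal.span {Finset.univ.gcd y} := by
        apply le_antisymm
        · rw [Ideal.span_le]
          rintro _ ⟨k, rfl⟩
          exact Ideal.mem_span_singleton.2 (Finset.gcd_dvd (Finset.mem_univ k))
        · obtain ⟨g, hg⟩ := (IsPrincipalIdealRing.principal (Ideal.span (Set.range y))).principal
          rw [hg]
          rw [Ideal.submodule_span_eq, Ideal.span_singleton_le_span_singleton]
          apply Finset.dvd_gcd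
          intro k _
          have : y k ∈ Ideal.span (Set.range y) := Ideal.subset_span ⟨k, rfl⟩
          rw [hg] at this
          exact Ideal.mem_span_singleton.1 this
      rw [h2, h, Ideal.span_singleton_one]
    exact Ideal.mem_span_range_iff_exists_fun.1 ((Ideal.eq_top_iff_one _).1 h1)
  · rintro ⟨a, ha⟩
    have h1 : Finset.univ.gcd y ∣ 1 := by
      rw [← ha]
      exact Finset.dvd_sum (fun k hk => (Finset.gcd_dvd hk).mul_left _)
    have h2 : normalize (Finset.univ.gcd y) = Finset.univ.gcd y := Finset.normalize_gcd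
    rw [← h2]
    exact normalize_eq_one.2 (isUnit_of_dvd_one h1)

variable (E : Set (MvPolynomial (Fin (n + 1)) ℚ)) {s : ℕ} (d : Fin s → ℕ)

theorem mem_zeros {F : Fin s → MvPolynomial (Fin (n + 1)) ℤ} {T : ℕ} {x : Fin (n + 1) → ℤ} :
    x ∈ Zeros E F T ↔ x ∈ PT E T ∧ ∀ i, eval x (F i) = 0 := by
  unfold Zeros Points
  rw [mem_PT, ← gcd_iff, ht_le]
  simp only [Set.mem_ofPred_eq]
  tauto

theorem set_one (H T : ℕ) : {F | F ∈ Systems n d H ∧ (Zeros E F T).Nonempty} =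
    ((One E d H T : Finset _) : Set _) := by
  ext F
  rw [Finset.mem_coe, mem_One, systems_eq]
  unfold Sy
  constructor
  · rintro ⟨hF, x, hx⟩
    rw [mem_zeros] at hx
    exact ⟨hF, x, hx⟩
  · rintro ⟨hF, x, hx⟩
    exact ⟨hF, x, (mem_zeros E).2 hx⟩

theorem set_two (H T : ℕ) : {F | F ∈ Systems n d H ∧
      ∃ x ∈ Zeros E F T, ∃ y ∈ Zeros E F T, y ≠ x ∧ y ≠ -x} =
    ((Two E d H T : Finset _) : Set _) := by
  ext F
  rw [Finset.mem_coe, mem_Two, systems_eq]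
  unfold Sy
  constructor
  · rintro ⟨hF, x, hx, y, hy, h1, h2⟩
    rw [mem_zeros] at hx hy
    exact ⟨hF, x, hx.1, y, hy.1, h1, h2, hx.2, hy.2⟩
  · rintro ⟨hF, x, hx, y, hy, h1, h2, h3, h4⟩
    exact ⟨hF, x, (mem_zeros E).2 ⟨hx, h3⟩, y, (mem_zeros E).2 ⟨hy, h4⟩, h1, h2⟩

theorem set_far (H T R : ℕ) : {F | F ∈ Systems n d H ∧ ∃ x ∈ Zeros E F T, ∃ k, (R : ℤ) < |x k|} =
    ((Far E d H T R : Finset _) : Set _) := by
  ext F
  rw [Finset.mem_coe, mem_Far, systems_eq]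
  unfold Sy
  constructor
  · rintro ⟨hF, x, hx, hR⟩
    rw [mem_zeros] at hx
    exact ⟨hF, x, hx.1, lt_ht.2 hR, hx.2⟩
  · rintro ⟨hF, x, hx, hR, h0⟩
    exact ⟨hF, x, (mem_zeros E).2 ⟨hx, h0⟩, lt_ht.1 hR⟩

theorem set_ax (H : ℕ) (x : Fin (n + 1) → ℤ) :
    ({F | F ∈ Systems n d H ∧ ∀ i, eval x (F i) = 0} : Set _).ncard = AX d H x := by
  have h1 : {F | F ∈ Systems n d H ∧ ∀ i, eval x (F i) = 0} =
      ((SyZ d H x : Finset _) : Set (Fin s → MvPolynomial (Fin (n + 1)) ℤ)) := by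
    ext F
    rw [Finset.mem_coe, mem_SyZ, systems_eq]
    rfl
  rw [h1, Set.ncard_coe_finset, card_SyZ]

/-- **The limit law for the rational point.** -/
theorem limit_law (hE : ∀ P ∈ E, ∃ e, P.IsHomogeneous e) (A θ : ℝ) (hA0 : 0 ≤ A) (hθ0 : 0 < θ)
    (hcount : ∀ T : ℕ, 1 ≤ T → ∀ S : Finset (Fin (n + 1) → ℤ),
      (∀ x ∈ S, (∀ i, |x i| ≤ T) ∧ InVar E x) → (S.card : ℝ) ≤ A * (T : ℝ) ^ θ)
    (hd : ∀ i, 1 ≤ d i) (hθ : θ < ((∑ i, d i : ℕ) : ℝ)) (hV : (Points E).Nonempty) :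
    ∃ (μ : (Fin (n + 1) → ℤ) → ℝ) (c : ℝ), 0 < c ∧ HasSum μ (2 * c) ∧
      (∀ x ∈ Points E, 0 < μ x) ∧ (∀ x, x ∉ Points E → μ x = 0) ∧
      (∀ x ∈ Points E, Tendsto (fun H : ℕ => (H : ℝ) ^ s *
        (({F | F ∈ Systems n d H ∧ ∀ i, eval x (F i) = 0} : Set _).ncard : ℝ) /
          ((Systems n d H).ncard : ℝ)) atTop (𝓝 (μ x))) ∧
      (∀ η : ℝ, 0 < η → ∀ T : ℕ → ℕ, Tendsto T atTop atTop →
        (∀ᶠ H : ℕ in atTop, (T H : ℝ) ≤ (H : ℝ) ^ (((∑ i, d i : ℕ) : ℝ) / θ - η)) →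
        Tendsto (fun H : ℕ => (H : ℝ) ^ s *
          (({F | F ∈ Systems n d H ∧ (Zeros E F (T H)).Nonempty} : Set _).ncard : ℝ) /
            ((Systems n d H).ncard : ℝ)) atTop (𝓝 c) ∧
        ∀ x ∈ Points E, Tendsto (fun H : ℕ =>
          (({F | F ∈ Systems n d H ∧ ∀ i, eval x (F i) = 0} : Set _).ncard : ℝ) /
            (({F | F ∈ Systems n d H ∧ (Zeros E F (T H)).Nonempty} : Set _).ncard : ℝ))
          atTop (𝓝 (μ x / c))) ∧
      ∃ T₀ : ℕ, ∀ η : ℝ, 0 < η → ∃ C δ : ℝ, 0 < C ∧ 0 < δ ∧ ∀ H T : ℕ, 1 ≤ H → T₀ ≤ T →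
        (T : ℝ) ≤ (H : ℝ) ^ (((∑ i, d i : ℕ) : ℝ) / θ - η) →
        (({F | F ∈ Systems n d H ∧ ∃ x ∈ Zeros E F T, ∃ y ∈ Zeros E F T, y ≠ x ∧ y ≠ -x} :
          Set _).ncard : ℝ) ≤ C * (H : ℝ) ^ (-δ) *
            (({F | F ∈ Systems n d H ∧ (Zeros E F T).Nonempty} : Set _).ncard : ℝ) ∧
        ∀ R : ℕ, (({F | F ∈ Systems n d H ∧ ∃ x ∈ Zeros E F T, ∃ k, (R : ℤ) < |x k|} :
          Set _).ncard : ℝ) ≤
            C * (((R : ℝ) + 1) ^ (θ - ((∑ i, d i : ℕ) : ℝ)) + (H : ℝ) ^ (-δ)) *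
            (({F | F ∈ Systems n d H ∧ (Zeros E F T).Nonempty} : Set _).ncard : ℝ) := by
  obtain ⟨x0, hx0, hx0V⟩ := hV
  rw [gcd_iff] at hx0
  obtain ⟨μ, c, hc, hsum, h1, h2, h3⟩ := law E d hE A θ hA0 hθ0 hcount hd hθ x0 hx0 hx0V
  have hmem : ∀ x : Fin (n + 1) → ℤ, x ∈ Points E ↔
      ((∃ a : Fin (n + 1) → ℤ, ∑ i, a i * x i = 1) ∧ InVar E x) := by
    intro x
    unfold Points
    rw [← gcd_iff]
    rfl
  have hcard : ∀ H : ℕ, (Systems n d H).ncard = (Sy n d H).card := by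
    intro H
    rw [card_systems, card_Sy]
  have h4 : ∀ x ∈ Points E, Tendsto (fun H : ℕ => (H : ℝ) ^ s *
        (({F | F ∈ Systems n d H ∧ ∀ i, eval x (F i) = 0} : Set _).ncard : ℝ) /
          ((Systems n d H).ncard : ℝ)) atTop (𝓝 (μ x)) := by
    intro x hx
    refine (h1 x ((hmem x).1 hx)).2.congr fun H => ?_
    rw [set_ax, hcard, mul_comm]
  refine ⟨μ, c, hc, hsum, fun x hx => (h1 x ((hmem x).1 hx)).1,
    fun x hx => h2 x (fun h => hx ((hmem x).2 h)), h4, fun η hη T hT hTH => ?_, ht x0,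
    fun η hη => ?_⟩
  · have h5 : Tendsto (fun H : ℕ => (H : ℝ) ^ s *
          (({F | F ∈ Systems n d H ∧ (Zeros E F (T H)).Nonempty} : Set _).ncard : ℝ) /
            ((Systems n d H).ncard : ℝ)) atTop (𝓝 c) := by
      refine (h3 η hη T hT hTH).congr fun H => ?_
      rw [set_one, Set.ncard_coe_finset, hcard, mul_comm]
    refine ⟨h5, fun x hx => ?_⟩
    refine ((h4 x hx).div h5 hc.ne').congr' ?_
    filter_upwards [eventually_ge_atTop 1] with H hH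
    have hS := card_Sy_pos (n := n) d H
    have hHs : (0 : ℝ) < (H : ℝ) ^ s := by
      have : (0 : ℝ) < H := by exact_mod_cast hH
      positivity
    simp only [Pi.div_apply]
    rw [hcard, div_div_div_cancel_right₀ hS.ne', mul_div_mul_left _ _ hHs.ne']
  · obtain ⟨C, δ, hC, hδ, h⟩ := unique E d hE A θ hA0 hθ0 hcount hd hθ x0 hx0 hx0V η hη
    refine ⟨C, δ, hC, hδ, fun H T hH hT hTH => ?_⟩
    obtain ⟨h5, h6⟩ := h H T hH hT hTH
    rw [set_one, set_two, Set.ncard_coe_finset, Set.ncard_coe_finset]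
    refine ⟨h5, fun R => ?_⟩
    rw [set_far, Set.ncard_coe_finset]
    exact h6 R

end Pool.Agent.Helper17.RV
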