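import Mathlib

set_option autoImplicit false

/-! # Integral vectors orthogonal to a primitive vector in a large cube -/

namespace Pool.Agent.Helper17.RV

open Finset Filter MeasureTheory Topology

open scoped Pointwise

section

variable {ι : Type} [Fintype ι] [DecidableEq ι]

/-- the linear form with coefficients `v` -/
def dotL (v : ι → ℤ) : (ι → ℤ) →ₗ[ℤ] ℤ where
  toFun c := ∑ i, c i * v i
  map_add' c c' := by
    simp only [Pi.add_apply, add_mul, Finset.sum_add_distrib]
  map_smul' t c := by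
    simp only [Pi.smul_apply, smul_eq_mul, RingHom.id_apply, Finset.mul_sum, mul_assoc]

omit [DecidableEq ι] in
theorem dotL_apply (v c : ι → ℤ) : dotL v c = ∑ i, c i * v i := rfl

/-- the projection onto the kernel -/
def prj (v a : ι → ℤ) (ha : ∑ i, a i * v i = 1) : (ι → ℤ) →ₗ[ℤ] LinearMap.ker (dotL v) where
  toFun c := ⟨c - dotL v c • a, by
    rw [LinearMap.mem_ker, map_sub, map_smul, dotL_apply v a, ha, smul_eq_mul, mul_one, sub_self]⟩
  map_add' c c' := by
    apply Subtype.ext
    show (c + c') - dotL v (c + c') • a = (c - dotL v c • a) + (c' - dotL v c' • a)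
    rw [map_add, add_smul]
    abel
  map_smul' t c := by
    apply Subtype.ext
    show (t • c) - dotL v (t • c) • a = t • (c - dotL v c • a)
    rw [map_smul, smul_sub, smul_assoc]

omit [DecidableEq ι] in
theorem prj_of_mem (v a : ι → ℤ) (ha : ∑ i, a i * v i = 1) (c : LinearMap.ker (dotL v)) :
    prj v a ha c = c := by
  apply Subtype.ext
  show (c : ι → ℤ) - dotL v c • a = c
  rw [LinearMap.mem_ker.1 c.2, zero_smul, sub_zero]

omit [DecidableEq ι] in
theorem rank_ker (v a : ι → ℤ) (ha : ∑ i, a i * v i = 1) :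
    Module.finrank ℤ (LinearMap.ker (dotL v)) = Fintype.card ι - 1 := by
  have hsurj : LinearMap.range (dotL v) = ⊤ := by
    rw [LinearMap.range_eq_top]
    intro t
    refine ⟨t • a, ?_⟩
    rw [map_smul, dotL_apply, ha, smul_eq_mul, mul_one]
  have h1 := Submodule.finrank_quotient_add_finrank (LinearMap.ker (dotL v))
  have h2 : Module.finrank ℤ ((ι → ℤ) ⧸ LinearMap.ker (dotL v)) = 1 := by
    rw [((dotL v).quotKerEquivRange).finrank_eq, hsurj, finrank_top, Module.finrank_self]
  rw [h2, Module.finrank_pi] at h1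
  omega

/-- the number of integral vectors orthogonal to a primitive vector in a large cube -/
theorem lattice_count (v a : ι → ℤ) (ha : ∑ i, a i * v i = 1) :
    ∃ κ : ℝ, 0 < κ ∧ Tendsto (fun H : ℕ =>
      ((((Fintype.piFinset (fun _ : ι => Finset.Icc (-(H : ℤ)) H)).filter
        (fun c => ∑ i, c i * v i = 0)).card : ℕ) : ℝ) / (H : ℝ) ^ (Fintype.card ι - 1))
      atTop (𝓝 κ) := by
  classical
  set Λ := LinearMap.ker (dotL v) with hΛ
  set r := Module.finrank ℤ Λ with hr
  have hrank : r = Fintype.card ι - 1 := rank_ker v a ha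
  let b : Module.Basis (Fin r) ℤ Λ := Module.finBasis ℤ Λ
  set φ : Fin r → ι → ℤ := fun j => ((b j : Λ) : ι → ℤ) with hφ
  set ψ : Fin r → ι → ℤ := fun j α => b.repr (prj v a ha (Pi.single α 1)) j with hψ
  -- the coordinates are linear forms
  have hrepr : ∀ (c : ι → ℤ) (j : Fin r), b.repr (prj v a ha c) j = ∑ α, c α * ψ j α := by
    intro c j
    have h1 : c = ∑ α, c α • (Pi.single α (1 : ℤ) : ι → ℤ) := by
      funext β
      rw [Finset.sum_apply, Finset.sum_eq_single β]
      · simp
      · intro α _ hα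
        simp [Pi.single_eq_of_ne (Ne.symm hα)]
      · intro h
        exact absurd (Finset.mem_univ _) h
    conv_lhs => rw [h1]
    rw [map_sum, map_sum, Finset.sum_apply']
    refine Finset.sum_congr rfl fun α _ => ?_
    rw [map_smul, map_smul, Finsupp.smul_apply, smul_eq_mul]
  have hdelta : ∀ j j' : Fin r, ∑ α, φ j' α * ψ j α = if j' = j then 1 else 0 := by
    intro j j'
    rw [← hrepr, hφ]
    show b.repr (prj v a ha ((b j' : Λ) : ι → ℤ)) j = _
    rw [prj_of_mem, b.repr_self, Finsupp.single_apply]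
  -- the combination with given coordinates
  have hcomb : ∀ c : Λ, ∀ α, (c : ι → ℤ) α = ∑ j, b.repr c j * φ j α := by
    intro c α
    have h1 := congrArg (fun c : Λ => (c : ι → ℤ) α) (b.sum_repr c).symm
    refine h1.trans ?_
    simp only [AddSubmonoidClass.coe_finsetSum, Submodule.coe_smul, Finset.sum_apply,
      Pi.smul_apply, smul_eq_mul]
    rfl
  -- the convex body
  set K : Set (Fin r → ℝ) := {z | ∀ α, |∑ j, z j * (φ j α : ℝ)| ≤ 1} with hK
  have hcoord : ∀ z : Fin r → ℝ, ∀ j, z j = ∑ α, (∑ j', z j' * (φ j' α : ℝ)) * (ψ j α : ℝ) := by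
    intro z j
    have h1 : ∑ α, (∑ j', z j' * (φ j' α : ℝ)) * (ψ j α : ℝ) =
        ∑ j', z j' * ((∑ α, φ j' α * ψ j α : ℤ) : ℝ) := by
      simp only [Finset.sum_mul, Int.cast_sum, Int.cast_mul, Finset.mul_sum]
      rw [Finset.sum_comm]
      refine Finset.sum_congr rfl fun j' _ => Finset.sum_congr rfl fun α _ => ?_
      ring
    rw [h1]
    simp only [hdelta, Int.cast_ite, Int.cast_one, Int.cast_zero, mul_ite, mul_one, mul_zero]
    rw [Finset.sum_ite_eq' Finset.univ j]
    simp
  have hKb : Bornology.IsBounded K := by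
    refine (Metric.isBounded_iff_subset_closedBall 0).2 ⟨∑ j, ∑ α, |(ψ j α : ℝ)|, fun z hz => ?_⟩
    rw [mem_closedBall_zero_iff, pi_norm_le_iff_of_nonneg
      (Finset.sum_nonneg fun _ _ => Finset.sum_nonneg fun _ _ => abs_nonneg _)]
    intro j
    rw [hcoord z j, Real.norm_eq_abs]
    refine (Finset.abs_sum_le_sum_abs _ _).trans ?_
    have h1 : ∑ α, |(∑ j', z j' * (φ j' α : ℝ)) * (ψ j α : ℝ)| ≤ ∑ α, |(ψ j α : ℝ)| := by
      refine Finset.sum_le_sum fun α _ => ?_
      rw [abs_mul]
      calc _ ≤ 1 * |(ψ j α : ℝ)| := mul_le_mul_of_nonneg_right (hz α) (abs_nonneg _)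
        _ = _ := one_mul _
    refine h1.trans ?_
    exact Finset.single_le_sum (f := fun j => ∑ α, |(ψ j α : ℝ)|)
      (fun _ _ => Finset.sum_nonneg fun _ _ => abs_nonneg _) (Finset.mem_univ j)
  have hcont : ∀ α, Continuous (fun z : Fin r → ℝ => |∑ j, z j * (φ j α : ℝ)|) := by
    intro α
    refine continuous_abs.comp ?_
    exact continuous_finsetSum _ fun j _ => (continuous_apply j).mul continuous_const
  have hKc : IsClosed K := by
    rw [hK, Set.ofPred_forall]
    exact isClosed_iInter fun α => isClosed_le (hcont α) continuous_const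
  have hKconv : Convex ℝ K := by
    intro z hz w hw s t hs ht hst
    intro α
    have h1 : ∑ j, (s • z + t • w) j * (φ j α : ℝ) =
        s * (∑ j, z j * (φ j α : ℝ)) + t * ∑ j, w j * (φ j α : ℝ) := by
      rw [Finset.mul_sum, Finset.mul_sum, ← Finset.sum_add_distrib]
      refine Finset.sum_congr rfl fun j _ => ?_
      simp only [Pi.add_apply, Pi.smul_apply, smul_eq_mul]
      ring
    rw [h1]
    refine (abs_add_le _ _).trans ?_
    rw [abs_mul, abs_mul, abs_of_nonneg hs, abs_of_nonneg ht]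
    calc s * |∑ j, z j * (φ j α : ℝ)| + t * |∑ j, w j * (φ j α : ℝ)| ≤ s * 1 + t * 1 :=
          add_le_add (mul_le_mul_of_nonneg_left (hz α) hs) (mul_le_mul_of_nonneg_left (hw α) ht)
      _ = 1 := by rw [mul_one, mul_one, hst]
  have hfront : volume (frontier K) = 0 := hKconv.addHaar_frontier volume
  have hpos : 0 < volume.real K := by
    have h1 : IsOpen {z : Fin r → ℝ | ∀ α, |∑ j, z j * (φ j α : ℝ)| < 1} := by
      rw [Set.ofPred_forall]
      exact isOpen_iInter_of_finite fun α => isOpen_lt (hcont α) continuous_const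
    have h2 : (0 : Fin r → ℝ) ∈ {z : Fin r → ℝ | ∀ α, |∑ j, z j * (φ j α : ℝ)| < 1} := by
      intro α
      simp
    have h3 : 0 < volume {z : Fin r → ℝ | ∀ α, |∑ j, z j * (φ j α : ℝ)| < 1} :=
      h1.measure_pos volume ⟨0, h2⟩
    have h4 : 0 < volume K := h3.trans_le (measure_mono fun z hz α => (hz α).le)
    exact ENNReal.toReal_pos h4.ne' hKb.measure_lt_top.ne
  refine ⟨volume.real K, hpos, ?_⟩
  have hlim := tendsto_card_div_pow_atTop_volume K hKb hKc.measurableSet hfront
  rw [Fintype.card_fin] at hlim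
  rw [← hrank]
  refine hlim.congr' ?_
  filter_upwards [eventually_gt_atTop 0] with N hN
  congr 2
  have hNr : (0 : ℝ) < N := by exact_mod_cast hN
  -- the bijection
  set F := (Fintype.piFinset (fun _ : ι => Finset.Icc (-(N : ℤ)) N)).filter
    (fun c => ∑ i, c i * v i = 0) with hF
  have hmemF : ∀ c, c ∈ F ↔ (∀ α, |c α| ≤ N) ∧ c ∈ Λ := by
    intro c
    rw [hF, Finset.mem_filter, Fintype.mem_piFinset]
    simp only [Finset.mem_Icc, ← abs_le]
    rfl
  set g : (ι → ℤ) → (Fin r → ℝ) := fun c j => (N : ℝ)⁻¹ * ((∑ α, c α * ψ j α : ℤ) : ℝ) with hg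
  have himg : K ∩ (N : ℝ)⁻¹ • (Submodule.span ℤ (Set.range (Pi.basisFun ℝ (Fin r))) :
      Set (Fin r → ℝ)) = g '' (F : Set (ι → ℤ)) := by
    ext z
    constructor
    · rintro ⟨hzK, hzL⟩
      rw [Set.mem_inv_smul_set_iff₀ hNr.ne', SetLike.mem_coe,
        Module.Basis.mem_span_iff_repr_mem] at hzL
      simp only [Pi.basisFun_repr, Pi.smul_apply, smul_eq_mul] at hzL
      choose w hw using hzL
      have hw : ∀ j, (w j : ℝ) = N * z j := hw
      set c : Λ := ∑ j, w j • b j with hc
      have hcr : ∀ j, b.repr c j = w j := by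
        intro j
        rw [hc, b.repr_sum_self]
      refine ⟨(c : ι → ℤ), ?_, ?_⟩
      · rw [Finset.mem_coe, hmemF]
        refine ⟨fun α => ?_, c.2⟩
        have h1 := hcomb c α
        simp only [hcr] at h1
        have h2 : (((c : ι → ℤ) α : ℤ) : ℝ) = N * ∑ j, z j * (φ j α : ℝ) := by
          rw [h1, Int.cast_sum, Finset.mul_sum]
          refine Finset.sum_congr rfl fun j _ => ?_
          rw [Int.cast_mul, hw j]
          ring
        have h3 : |(((c : ι → ℤ) α : ℤ) : ℝ)| ≤ N := by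
          rw [h2, abs_mul, abs_of_pos hNr]
          calc (N : ℝ) * |∑ j, z j * (φ j α : ℝ)| ≤ N * 1 :=
                mul_le_mul_of_nonneg_left (hzK α) hNr.le
            _ = N := mul_one _
        exact_mod_cast h3
      · funext j
        show (N : ℝ)⁻¹ * ((∑ α, (c : ι → ℤ) α * ψ j α : ℤ) : ℝ) = z j
        rw [← hrepr, prj_of_mem, hcr, hw j, ← mul_assoc, inv_mul_cancel₀ hNr.ne', one_mul]
    · rintro ⟨c, hc, rfl⟩
      rw [Finset.mem_coe, hmemF] at hc
      obtain ⟨hcN, hcΛ⟩ := hc
      constructor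
      · intro α
        have h1 : ∑ j, g c j * (φ j α : ℝ) = (N : ℝ)⁻¹ * ((c α : ℤ) : ℝ) := by
          have h2 := hcomb ⟨c, hcΛ⟩ α
          have h3 : ∀ j, b.repr (⟨c, hcΛ⟩ : Λ) j = ∑ β, c β * ψ j β := by
            intro j
            have h4 := hrepr c j
            have h5 := prj_of_mem v a ha ⟨c, hcΛ⟩
            rw [← h4]
            exact congrArg (fun t => b.repr t j) h5.symm
          simp only [h3] at h2
          have h2 : c α = ∑ j, (∑ β, c β * ψ j β) * φ j α := h2
          rw [h2, Int.cast_sum, Finset.mul_sum]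
          refine Finset.sum_congr rfl fun j _ => ?_
          rw [Int.cast_mul, hg]
          ring
        rw [h1, abs_mul, abs_of_pos (inv_pos.2 hNr), inv_mul_le_iff₀ hNr, mul_one]
        exact_mod_cast hcN α
      · rw [Set.mem_inv_smul_set_iff₀ hNr.ne', SetLike.mem_coe,
          Module.Basis.mem_span_iff_repr_mem]
        intro j
        simp only [Pi.basisFun_repr, Pi.smul_apply, smul_eq_mul]
        refine ⟨∑ α, c α * ψ j α, ?_⟩
        show ((∑ α, c α * ψ j α : ℤ) : ℝ) = N * ((N : ℝ)⁻¹ * ((∑ α, c α * ψ j α : ℤ) : ℝ))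
        rw [← mul_assoc, mul_inv_cancel₀ hNr.ne', one_mul]
  have hinj : Set.InjOn g (F : Set (ι → ℤ)) := by
    intro c hc c' hc' h
    rw [Finset.mem_coe, hmemF] at hc hc'
    have h1 : ∀ j, ∑ α, c α * ψ j α = ∑ α, c' α * ψ j α := by
      intro j
      have h2 := congrFun h j
      have h3 : (N : ℝ)⁻¹ * ((∑ α, c α * ψ j α : ℤ) : ℝ) =
        (N : ℝ)⁻¹ * ((∑ α, c' α * ψ j α : ℤ) : ℝ) := h2
      have h4 := mul_left_cancel₀ (inv_ne_zero hNr.ne') h3
      exact_mod_cast h4
    have h2 : (⟨c, hc.2⟩ : Λ) = ⟨c', hc'.2⟩ := by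
      apply b.repr.injective
      ext j
      have e1 := hrepr c j
      have e2 := hrepr c' j
      have e3 : prj v a ha c = ⟨c, hc.2⟩ := prj_of_mem v a ha ⟨c, hc.2⟩
      have e4 : prj v a ha c' = ⟨c', hc'.2⟩ := prj_of_mem v a ha ⟨c', hc'.2⟩
      rw [e3] at e1
      rw [e4] at e2
      rw [e1, e2]
      exact h1 j
    exact congrArg Subtype.val h2
  rw [himg]
  have h1 : Nat.card (g '' (F : Set (ι → ℤ))) = (F : Set (ι → ℤ)).ncard := by
    rw [Nat.card_coe_set_eq]
    exact Set.InjOn.ncard_image hinj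
  rw [h1, Set.ncard_coe_finset]

end

end Pool.Agent.Helper17.RV
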