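import Pool.Agent.Helper17.RV.Var

set_option autoImplicit false

/-! # Integral points of height at most `T` on a nonlinear affine variety -/

namespace Pool.Agent.Helper17.RV

open MvPolynomial Finset

/-- the ideal is generated by polynomials of degree at most one -/
def Linear {N : ℕ} (I : Ideal (MvPolynomial (Fin N) ℚ)) : Prop :=
  ∃ L : Set (MvPolynomial (Fin N) ℚ), (∀ l ∈ L, l.totalDegree ≤ 1) ∧ I = Ideal.span L

theorem exists_basis {N : ℕ} (I : Ideal (MvPolynomial (Fin N) ℚ)) [hI : I.IsPrime] {k : ℕ}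
    (hk : Algebra.trdeg ℚ (MvPolynomial (Fin N) ℚ ⧸ I) = k) :
    ∃ v : Fin k → Fin N, AlgebraicIndependent ℚ
      (fun i => (Ideal.Quotient.mk I (X (v i)) : MvPolynomial (Fin N) ℚ ⧸ I)) := by
  classical
  set A := MvPolynomial (Fin N) ℚ ⧸ I with hA
  set s : Set A := Set.range fun i => (Ideal.Quotient.mk I (X i) : A) with hs
  have hadj : ∀ a : A, a ∈ Algebra.adjoin ℚ s := by
    intro a
    obtain ⟨f, rfl⟩ := Ideal.Quotient.mk_surjective a
    have h1 : (Ideal.Quotient.mk I f : A) = aeval (fun i => (Ideal.Quotient.mk I (X i) : A)) f := by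
      have h2 : aeval (fun i => (Ideal.Quotient.mk I (X i) : A)) = Ideal.Quotient.mkₐ ℚ I := by
        apply MvPolynomial.algHom_ext
        intro i
        simp
      rw [h2]
      rfl
    rw [h1, hs, Algebra.adjoin_range_eq_range_aeval]
    exact ⟨f, rfl⟩
  have : Algebra.IsAlgebraic (Algebra.adjoin ℚ s) A :=
    ⟨fun a => isAlgebraic_algebraMap (⟨a, hadj a⟩ : Algebra.adjoin ℚ s)⟩
  obtain ⟨t, hts, ht⟩ := exists_isTranscendenceBasis_subset (R := ℚ) s
  have hcard := ht.cardinalMk_eq_trdeg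
  rw [hk] at hcard
  have hfin : Finite t := by
    rw [← Cardinal.lt_aleph0_iff_finite, hcard]
    exact Cardinal.natCast_lt_aleph0
  have : Fintype t := Fintype.ofFinite t
  have hc : Fintype.card t = k := by
    rw [Cardinal.mk_fintype] at hcard
    exact_mod_cast hcard
  let e : Fin k ≃ t := (Fintype.equivFinOfCardEq hc).symm
  choose v hv using fun i : Fin k => hts (e i).2
  refine ⟨v, ?_⟩
  have h1 : (fun i => (Ideal.Quotient.mk I (X (v i)) : A)) = (Subtype.val : t → A) ∘ e := by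
    funext i
    exact hv i
  rw [h1]
  exact ht.1.comp e e.injective

theorem exists_nonspan {N : ℕ} (I : Ideal (MvPolynomial (Fin N) ℚ)) {k : ℕ}
    (v : Fin k → Fin N) (hv : AlgebraicIndependent ℚ
      (fun i => (Ideal.Quotient.mk I (X (v i)) : MvPolynomial (Fin N) ℚ ⧸ I)))
    (hnl : ¬ Linear I) :
    ∃ j : Fin N, ∀ (b0 : ℚ) (b : Fin k → ℚ), (Ideal.Quotient.mk I (X j) :
      MvPolynomial (Fin N) ℚ ⧸ I) ≠ algebraMap ℚ _ b0 +
        ∑ i, algebraMap ℚ _ (b i) * Ideal.Quotient.mk I (X (v i)) := by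
  classical
  by_contra hno
  push Not at hno
  choose b0 b hb using hno
  apply hnl
  set τ : Fin N → MvPolynomial (Fin k) ℚ := fun j => C (b0 j) + ∑ i, C (b j i) * X i with hτ
  set ρ : Fin N → MvPolynomial (Fin N) ℚ := fun j => rename v (τ j) with hρ
  have hρe : ∀ j, ρ j = C (b0 j) + ∑ i, C (b j i) * X (v i) := by
    intro j
    rw [hρ, hτ]
    simp
  have hmk : ∀ j, (Ideal.Quotient.mk I (ρ j) : MvPolynomial (Fin N) ℚ ⧸ I) =
      Ideal.Quotient.mk I (X j) := by
    intro j
    rw [hb j, hρe j, map_add, map_sum]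
    congr 1
  refine ⟨Set.range fun j => X j - ρ j, ?_, le_antisymm ?_ ?_⟩
  · rintro _ ⟨j, rfl⟩
    refine (totalDegree_sub _ _).trans (max_le ?_ ?_)
    · rw [totalDegree_X]
    · show (ρ j).totalDegree ≤ 1
      rw [hρe j]
      refine (totalDegree_add _ _).trans (max_le ?_ ?_)
      · rw [totalDegree_C]
        exact Nat.zero_le _
      · refine (totalDegree_finsetSum _ _).trans (Finset.sup_le fun i _ => ?_)
        refine (totalDegree_mul _ _).trans ?_
        rw [totalDegree_C, totalDegree_X]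
  · intro f hf
    have h1 : (aeval (fun i => (Ideal.Quotient.mk I (X (v i)) : MvPolynomial (Fin N) ℚ ⧸ I)) :
        MvPolynomial (Fin k) ℚ →ₐ[ℚ] _).comp (aeval τ) = Ideal.Quotient.mkₐ ℚ I := by
      apply MvPolynomial.algHom_ext
      intro j
      rw [AlgHom.comp_apply, aeval_X]
      show _ = Ideal.Quotient.mk I (X j)
      rw [← hmk j, hρe j, hτ, map_add, map_sum, map_add, map_sum]
      congr 1
      · rw [aeval_C]
        rfl
      · refine Finset.sum_congr rfl fun i _ => ?_
        rw [map_mul, map_mul, aeval_X, aeval_C]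
        rfl
    have h2 := DFunLike.congr_fun h1 f
    rw [AlgHom.comp_apply] at h2
    have h3 : Ideal.Quotient.mkₐ ℚ I f = 0 := Ideal.Quotient.eq_zero_iff_mem.2 hf
    rw [h3] at h2
    have h4 : aeval τ f = 0 := (injective_iff_map_eq_zero _).1 hv _ h2
    set L := Ideal.span (Set.range fun j => X j - ρ j) with hL
    have h5 : (Ideal.Quotient.mkₐ ℚ L).comp ((rename v).comp (aeval τ)) =
        Ideal.Quotient.mkₐ ℚ L := by
      apply MvPolynomial.algHom_ext
      intro j
      rw [AlgHom.comp_apply, AlgHom.comp_apply, aeval_X]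
      symm
      rw [Ideal.Quotient.mkₐ_eq_mk, Ideal.Quotient.mk_eq_mk_iff_sub_mem]
      exact Ideal.subset_span ⟨j, rfl⟩
    have h6 := DFunLike.congr_fun h5 f
    rw [AlgHom.comp_apply, AlgHom.comp_apply, h4, map_zero, map_zero] at h6
    exact Ideal.Quotient.eq_zero_iff_mem.1 h6.symm
  · rw [Ideal.span_le]
    rintro _ ⟨j, rfl⟩
    show X j - ρ j ∈ I
    rw [← Ideal.Quotient.eq_zero_iff_mem, map_sub, hmk j, sub_self]

/-- **Integral points on a nonlinear affine variety.** -/
theorem count_nonlinear {N : ℕ} (I : Ideal (MvPolynomial (Fin N) ℚ)) [hI : I.IsPrime] {k : ℕ}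
    (hk : Algebra.trdeg ℚ (MvPolynomial (Fin N) ℚ ⧸ I) = (k + 1 : ℕ)) (hnl : ¬ Linear I) :
    ∃ C : ℝ, 0 < C ∧ ∀ T : ℕ, 1 ≤ T → ∀ S : Finset (Fin N → ℤ),
      (∀ x ∈ S, (∀ i, |x i| ≤ T) ∧ OnV I x) →
      (S.card : ℝ) ≤ C * (T : ℝ) ^ (((k + 1 : ℕ) : ℝ) - 1 / (((k + 1 : ℕ) : ℝ) + 2)) := by
  classical
  set K : ℕ := k + 1 with hK
  set A := MvPolynomial (Fin N) ℚ ⧸ I with hA
  obtain ⟨v, hv⟩ := exists_basis I hk
  obtain ⟨j, hj⟩ := exists_nonspan I v hv hnl
  set u : Fin K → A := fun i => (Ideal.Quotient.mk I (X (v i)) : A) with hu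
  set z : A := Ideal.Quotient.mk I (X j) with hz
  obtain ⟨G, hG0, hGNL, hGd⟩ := exists_rel u z hv hj
    (dep hk (Fin (K + 1)) (by rw [Fintype.card_fin]; omega) _)
  obtain ⟨C, hC0, hC⟩ := box G hGNL
  -- the relations for the coordinates
  have hrel : ∀ i : Fin N, ∃ q : MvPolynomial (Fin (K + 1)) ℚ, q ≠ 0 ∧
      aeval (Fin.cons (Ideal.Quotient.mk I (X i)) u : Fin (K + 1) → A) q = 0 :=
    fun i => dep hk (Fin (K + 1)) (by rw [Fintype.card_fin]; omega) _
  choose q hq0 hq using hrel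
  -- the leading coefficients
  set c : Fin N → MvPolynomial (Fin K) ℚ := fun i => (finSuccEquiv ℚ K (q i)).leadingCoeff with hc
  have hc0 : ∀ i, c i ≠ 0 := by
    intro i h
    rw [hc] at h
    have h1 : finSuccEquiv ℚ K (q i) = 0 := Polynomial.leadingCoeff_eq_zero.1 h
    exact hq0 i ((finSuccEquiv ℚ K).injective (by rw [h1, map_zero]))
  set M : ℕ := Finset.univ.sup fun i => (finSuccEquiv ℚ K (q i)).natDegree with hM
  -- the bad function
  set w : Fin (K + 1) → MvPolynomial (Fin N) ℚ := Fin.cons (X j) (fun i => X (v i)) with hw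
  set h1 : MvPolynomial (Fin N) ℚ := aeval w (map (Int.castRingHom ℚ) (pderiv 0 G)) with hh1
  set h2 : MvPolynomial (Fin N) ℚ := ∏ i, aeval (fun l => X (v l) : Fin K → MvPolynomial (Fin N) ℚ)
    (c i) with hh2
  have hmkw : ∀ g : MvPolynomial (Fin (K + 1)) ℚ, (Ideal.Quotient.mk I (aeval w g) : A) =
      aeval (Fin.cons z u : Fin (K + 1) → A) g := by
    intro g
    have h3 : (Ideal.Quotient.mkₐ ℚ I).comp (aeval w) =
        aeval (Fin.cons z u : Fin (K + 1) → A) := by
      apply MvPolynomial.algHom_ext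
      intro l
      rw [AlgHom.comp_apply, aeval_X, aeval_X]
      refine Fin.cases ?_ (fun l => ?_) l
      · rw [hw, Fin.cons_zero, Fin.cons_zero]
        rfl
      · rw [hw, Fin.cons_succ, Fin.cons_succ]
        rfl
    exact DFunLike.congr_fun h3 g
  have hmku : ∀ g : MvPolynomial (Fin K) ℚ, (Ideal.Quotient.mk I
      (aeval (fun l => X (v l) : Fin K → MvPolynomial (Fin N) ℚ) g) : A) = aeval u g := by
    intro g
    have h3 : (Ideal.Quotient.mkₐ ℚ I).comp
        (aeval (fun l => X (v l) : Fin K → MvPolynomial (Fin N) ℚ)) = aeval u := by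
      apply MvPolynomial.algHom_ext
      intro l
      rw [AlgHom.comp_apply, aeval_X, aeval_X]
      rfl
    exact DFunLike.congr_fun h3 g
  have hbad : h1 * h2 ∉ I := by
    intro h3
    rcases hI.mem_or_mem h3 with h4 | h4
    · rw [← Ideal.Quotient.eq_zero_iff_mem, hh1, hmkw] at h4
      exact hGd h4
    · rw [hh2] at h4
      obtain ⟨i, -, h5⟩ := (Ideal.IsPrime.prod_mem_iff).1 h4
      rw [← Ideal.Quotient.eq_zero_iff_mem, hmku] at h5
      exact hc0 i ((injective_iff_map_eq_zero _).1 hv _ h5)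
  obtain ⟨C1, hC1⟩ := count_zero I hk (h1 * h2) hbad
  refine ⟨C1 + (M + 1) ^ N * C, by positivity, fun T hT S hS => ?_⟩
  have hTr : (1 : ℝ) ≤ T := by exact_mod_cast hT
  have hT0 : (0 : ℝ) < T := by linarith
  set S1 := S.filter (fun x => eval (fun i => (x i : ℚ)) (h1 * h2) = 0) with hS1
  set S2 := S.filter (fun x => ¬ eval (fun i => (x i : ℚ)) (h1 * h2) = 0) with hS2
  have hcard : S.card = S1.card + S2.card := (Finset.card_filter_add_card_filter_not _).symm
  have hb1 : S1.card ≤ C1 * T ^ k := hC1 T hT S1 (by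
    intro x hx
    obtain ⟨hx1, hx2⟩ := Finset.mem_filter.1 hx
    exact ⟨(hS x hx1).1, (hS x hx1).2, hx2⟩)
  -- the projection
  let π : (Fin N → ℤ) → (Fin (K + 1) → ℤ) := fun x => Fin.cons (x j) (fun i => x (v i))
  have hπ : ∀ (x : Fin N → ℤ) (hx : OnV I x) (g : MvPolynomial (Fin (K + 1)) ℤ),
      ((eval (π x) g : ℤ) : ℚ) = eval (fun i => (x i : ℚ)) (aeval w (map (Int.castRingHom ℚ) g)) := by
    intro x _ g
    have h3 : ((eval (fun i => (x i : ℚ))).comp ((aeval w : MvPolynomial (Fin (K + 1)) ℚ →ₐ[ℚ] _) :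
        MvPolynomial (Fin (K + 1)) ℚ →+* MvPolynomial (Fin N) ℚ)).comp (map (Int.castRingHom ℚ)) =
        (Int.castRingHom ℚ).comp (eval (π x)) := by
      apply MvPolynomial.ringHom_ext
      · intro r
        simp
      · intro l
        refine Fin.cases ?_ (fun l => ?_) l
        · simp [hw, π]
        · simp [hw, π]
    exact (DFunLike.congr_fun h3 g).symm
  have himg : ∀ P ∈ S2.image π, (∀ i, |P i| ≤ T) ∧ eval P G = 0 ∧ eval P (pderiv 0 G) ≠ 0 := by
    intro P hP
    obtain ⟨x, hx, rfl⟩ := Finset.mem_image.1 hP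
    obtain ⟨hx1, hx2⟩ := Finset.mem_filter.1 hx
    obtain ⟨hx3, hx4⟩ := hS x hx1
    refine ⟨?_, ?_, ?_⟩
    · intro i
      refine Fin.cases ?_ (fun i => ?_) i
      · exact hx3 j
      · exact hx3 (v i)
    · have h3 := hπ x hx4 G
      have h4 := congrArg (evA I x hx4) (hmkw (map (Int.castRingHom ℚ) G))
      rw [hG0, map_zero, evA_mk, ← h3] at h4
      exact_mod_cast h4
    · intro h3
      apply hx2
      have h4 := hπ x hx4 (pderiv 0 G)
      rw [h3, Int.cast_zero] at h4
      rw [map_mul, hh1, ← h4, zero_mul]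
  have hfib : S2.card ≤ (M + 1) ^ N * (S2.image π).card := by
    refine Finset.card_le_mul_card_image S2 _ fun P hP => ?_
    obtain ⟨x₀, hx₀, rfl⟩ := Finset.mem_image.1 hP
    set F := S2.filter (fun x => π x = π x₀) with hF
    have h3 : F ⊆ Fintype.piFinset (fun i => F.image (fun x => x i)) := by
      intro x hx
      rw [Fintype.mem_piFinset]
      intro i
      exact Finset.mem_image_of_mem (fun x : Fin N → ℤ => x i) hx
    refine (Finset.card_le_card h3).trans ?_
    rw [Fintype.card_piFinset]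
    refine (Finset.prod_le_pow_card _ _ (M + 1) fun i _ => ?_).trans (by simp)
    -- roots of a polynomial
    set t₀ : Fin K → ℚ := fun l => ((x₀ (v l) : ℤ) : ℚ) with ht₀
    set R : Polynomial ℚ := Polynomial.map (eval t₀) (finSuccEquiv ℚ K (q i)) with hR
    have hx₀' := Finset.mem_filter.1 hx₀
    have hR0 : R ≠ 0 := by
      intro h4
      apply hx₀'.2
      have h5 : R.coeff (finSuccEquiv ℚ K (q i)).natDegree = eval t₀ (c i) := by
        rw [hR, Polynomial.coeff_map, hc]
        rfl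
      rw [h4, Polynomial.coeff_zero] at h5
      rw [map_mul, hh2, map_prod, Finset.prod_eq_zero (Finset.mem_univ i), mul_zero]
      rw [h5]
      have h6 : (aeval (fun i => (x₀ i : ℚ)) : MvPolynomial (Fin N) ℚ →ₐ[ℚ] ℚ).comp
          (aeval (fun l => X (v l) : Fin K → MvPolynomial (Fin N) ℚ)) = aeval t₀ := by
        apply MvPolynomial.algHom_ext
        intro l
        simp [ht₀]
      exact DFunLike.congr_fun h6 (c i)
    have h4 : (F.image (fun x => x i)).card ≤ R.roots.toFinset.card := by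
      refine Finset.card_le_card_of_injOn (fun t : ℤ => (t : ℚ)) ?_ ?_
      · intro t ht
        rw [Finset.mem_coe] at ht
        obtain ⟨x, hx, rfl⟩ := Finset.mem_image.1 ht
        obtain ⟨hx1, hx2⟩ := Finset.mem_filter.1 hx
        have hx3 := Finset.mem_filter.1 hx1
        obtain ⟨-, hx4⟩ := hS x hx3.1
        have ht : ∀ l, (x (v l) : ℤ) = x₀ (v l) := by
          intro l
          exact congrFun hx2 l.succ
        rw [Finset.mem_coe, Multiset.mem_toFinset, Polynomial.mem_roots hR0,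
          Polynomial.IsRoot.def, hR, ← eval_eq_eval_mv_eval']
        have h5 := congrArg (evA I x hx4) (hq i)
        rw [map_zero, ev_comp] at h5
        rw [← h5]
        congr 1
        congr 1
        funext l
        refine Fin.cases ?_ (fun l => ?_) l
        · rw [Fin.cons_zero, Fin.cons_zero, evA_mk, eval_X]
        · rw [Fin.cons_succ, Fin.cons_succ, hu, evA_mk, eval_X, ht l]
      · intro t _ t' _ h
        have h : (t : ℚ) = (t' : ℚ) := h
        exact_mod_cast h
    refine h4.trans ((Multiset.toFinset_card_le _).trans ((Polynomial.card_roots' _).trans ?_))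
    refine (Polynomial.natDegree_map_le).trans ?_
    have h5 : (finSuccEquiv ℚ K (q i)).natDegree ≤ M :=
      Finset.le_sup (f := fun i => (finSuccEquiv ℚ K (q i)).natDegree) (Finset.mem_univ i)
    omega
  have hbox := hC T hT (S2.image π) himg
  set θ : ℝ := ((K : ℕ) : ℝ) - 1 / (((K : ℕ) : ℝ) + 2) with hθ
  have hθk : (k : ℝ) ≤ θ := by
    have h3 : (0 : ℝ) ≤ k := Nat.cast_nonneg k
    have h4 : 1 / (((K : ℕ) : ℝ) + 2) ≤ 1 := by
      rw [div_le_one (by positivity)]
      rw [hK]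
      push_cast
      linarith
    rw [hθ, hK] at *
    push_cast at h4 ⊢
    linarith
  have h3 : (S1.card : ℝ) ≤ C1 * (T : ℝ) ^ θ := by
    have h4 : (S1.card : ℝ) ≤ C1 * (T : ℝ) ^ k := by exact_mod_cast hb1
    refine h4.trans (mul_le_mul_of_nonneg_left ?_ (Nat.cast_nonneg _))
    rw [← Real.rpow_natCast]
    exact Real.rpow_le_rpow_of_exponent_le hTr hθk
  have h4 : (S2.card : ℝ) ≤ ((M : ℝ) + 1) ^ N * (C * (T : ℝ) ^ θ) := by
    have h5 : (S2.card : ℝ) ≤ ((M : ℝ) + 1) ^ N * ((S2.image π).card : ℝ) := by exact_mod_cast hfib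
    exact h5.trans (mul_le_mul_of_nonneg_left hbox (by positivity))
  rw [hcard]
  push_cast
  calc (S1.card : ℝ) + S2.card ≤ C1 * (T : ℝ) ^ θ + ((M : ℝ) + 1) ^ N * (C * (T : ℝ) ^ θ) :=
        add_le_add h3 h4
    _ = _ := by ring

end Pool.Agent.Helper17.RV
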