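import Pool.Agent.Helper17.RV.Fam

set_option autoImplicit false

/-! # Forms vanishing at two points -/

namespace Pool.Agent.Helper17.RV

open MvPolynomial Finset Pool.Agent.R870.RC

variable {n : ℕ}

/-- primitive vectors which are not proportional up to sign are independent -/
theorem indep_of_prim (x y : Fin (n + 1) → ℤ) (hx : ∃ a : Fin (n + 1) → ℤ, ∑ i, a i * x i = 1)
    (hy : ∃ a : Fin (n + 1) → ℤ, ∑ i, a i * y i = 1) (h1 : y ≠ x) (h2 : y ≠ -x) :
    ∃ i j, x i * y j ≠ x j * y i := by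
  by_contra hcon
  push Not at hcon
  obtain ⟨a, ha⟩ := hx
  obtain ⟨b, hb⟩ := hy
  have h3 : ∀ j, y j = (∑ k, a k * y k) * x j := by
    intro j
    rw [Finset.sum_mul]
    calc y j = (∑ k, a k * x k) * y j := by rw [ha, one_mul]
      _ = ∑ k, a k * y k * x j := by
        rw [Finset.sum_mul]
        refine Finset.sum_congr rfl (fun k _ => ?_)
        have := hcon k j
        linear_combination a k * this
  have h4 : (∑ k, b k * x k) * (∑ k, a k * y k) = 1 := by
    rw [Finset.sum_mul]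
    calc ∑ k, b k * x k * (∑ k, a k * y k) = ∑ k, b k * y k := by
          refine Finset.sum_congr rfl (fun k _ => ?_)
          rw [h3 k]; ring
      _ = 1 := hb
  rcases Int.isUnit_iff.1 (IsUnit.of_mul_eq_one _ (by rw [mul_comm]; exact h4)) with h5 | h5
  · apply h1
    funext j
    rw [h3 j, h5, one_mul]
  · apply h2
    funext j
    rw [h3 j, h5, Pi.neg_apply]
    ring

/-- a form of degree `d` separating two points -/
theorem separate (d R : ℕ) (hd : 1 ≤ d) (x y : Fin (n + 1) → ℤ) (hx0 : ∃ k, x k ≠ 0)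
    (hy : ∀ j, |y j| ≤ R) (i j : Fin (n + 1)) (hxy : x i * y j ≠ x j * y i) :
    ∃ G ∈ Forms n d (2 * R), eval x G ≠ 0 ∧ eval y G = 0 := by
  obtain ⟨k, hk⟩ := hx0
  obtain ⟨e, rfl⟩ : ∃ e, d = e + 1 := ⟨d - 1, by omega⟩
  have hdeg : ∀ l : Fin (n + 1), (Finsupp.single l 1 + Finsupp.single k e :
      Fin (n + 1) →₀ ℕ).degree = e + 1 := by
    intro l
    rw [map_add, Finsupp.degree_single, Finsupp.degree_single]
    ring
  have hev : ∀ (z : Fin (n + 1) → ℤ) (l : Fin (n + 1)) (t : ℤ),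
      eval z (monomial (Finsupp.single l 1 + Finsupp.single k e) t) = t * (z l * z k ^ e) := by
    intro z l t
    rw [eval_monomial, Finsupp.prod_add_index', Finsupp.prod_single_index, Finsupp.prod_single_index,
      pow_one]
    · exact pow_zero _
    · exact pow_zero _
    · exact fun _ => pow_zero _
    · exact fun _ _ _ => pow_add _ _ _
  refine ⟨monomial (Finsupp.single i 1 + Finsupp.single k e) (y j) +
    monomial (Finsupp.single j 1 + Finsupp.single k e) (-(y i)), ?_, ?_, ?_⟩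
  · have h1 := forms_add (forms_monomial _ (hdeg i) (y j) (hy j))
      (forms_monomial _ (hdeg j) (-(y i)) (by rw [abs_neg]; exact hy i))
    rwa [← two_mul] at h1
  · rw [map_add, hev, hev]
    have h1 : y j * (x i * x k ^ e) + -(y i) * (x j * x k ^ e) =
        (x i * y j - x j * y i) * x k ^ e := by ring
    rw [h1]
    exact mul_ne_zero (sub_ne_zero.2 hxy) (pow_ne_zero _ hk)
  · rw [map_add, hev, hev]
    ring

/-- the number of the forms vanishing at two points -/
theorem pair_count (d H R : ℕ) (hd : 1 ≤ d) (hH : 1 ≤ H) (hR : 1 ≤ R) (x y : Fin (n + 1) → ℤ)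
    (hx : ∀ j, |x j| ≤ R) (hy : ∀ j, |y j| ≤ R) (i j : Fin (n + 1))
    (hxy : x i * y j ≠ x j * y i) :
    (((FF n d H).filter (fun F => eval x F = 0 ∧ eval y F = 0)).card : ℝ) ≤
      2 ^ (Mo n d).card * 16 * ((R : ℝ) / H) ^ 2 * (FF n d H).card := by
  classical
  have hx0 : ∃ k, x k ≠ 0 := by
    by_contra h
    push Not at h
    exact hxy (by rw [h i, h j, zero_mul, zero_mul])
  have hy0 : ∃ k, y k ≠ 0 := by
    by_contra h
    push Not at h
    exact hxy (by rw [h i, h j, mul_zero, mul_zero])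
  obtain ⟨G1, hG1, hG1x, hG1y⟩ := separate d R hd x y hx0 hy i j hxy
  obtain ⟨G2, hG2, hG2y, hG2x⟩ := separate d R hd y x hy0 hx i j (by
    intro h
    apply hxy
    linear_combination -h)
  set M : ℕ := H / (4 * R) with hM
  have hMH : M * (4 * R) ≤ H := Nat.div_mul_le_self _ _
  have hlt : H < (M + 1) * (4 * R) := by
    have h1 := Nat.lt_div_mul_add (a := H) (b := 4 * R) (by omega)
    calc H < H / (4 * R) * (4 * R) + 4 * R := h1
      _ = (M + 1) * (4 * R) := by rw [hM]; ring
  have h1 : (((FF n d H).filter (fun F => eval x F = 0 ∧ eval y F = 0)) ×ˢ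
      (Finset.range (M + 1) ×ˢ Finset.range (M + 1))).card ≤ (FF n d (2 * H)).card := by
    refine Finset.card_le_card_of_injOn
      (fun p => p.1 + C (p.2.1 : ℤ) * G1 + C (p.2.2 : ℤ) * G2) ?_ ?_
    · rintro ⟨F, a, b⟩ hp
      rw [Finset.mem_coe, Finset.mem_product, Finset.mem_product, Finset.mem_filter, mem_FF,
        Finset.mem_range, Finset.mem_range] at hp
      obtain ⟨⟨hF, -⟩, ha, hb⟩ := hp
      have ha : a < M + 1 := ha
      have hb : b < M + 1 := hb
      rw [Finset.mem_coe, mem_FF]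
      have ha' : |(a : ℤ)| ≤ (M : ℤ) := by
        rw [abs_of_nonneg (Nat.cast_nonneg _)]
        exact_mod_cast Nat.lt_succ_iff.1 ha
      have hb' : |(b : ℤ)| ≤ (M : ℤ) := by
        rw [abs_of_nonneg (Nat.cast_nonneg _)]
        exact_mod_cast Nat.lt_succ_iff.1 hb
      have h2 := forms_add (forms_add hF (forms_C_mul (a : ℤ) ha' hG1))
        (forms_C_mul (b : ℤ) hb' hG2)
      refine forms_mono ?_ h2
      nlinarith
    · rintro ⟨F, a, b⟩ hp ⟨F', a', b'⟩ hp' h
      rw [Finset.mem_coe, Finset.mem_product, Finset.mem_filter] at hp hp'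
      have h : F + C (a : ℤ) * G1 + C (b : ℤ) * G2 = F' + C (a' : ℤ) * G1 + C (b' : ℤ) * G2 := h
      have hFx : eval x F = 0 := hp.1.2.1
      have hFy : eval y F = 0 := hp.1.2.2
      have hFx' : eval x F' = 0 := hp'.1.2.1
      have hFy' : eval y F' = 0 := hp'.1.2.2
      have h3 := congrArg (eval x) h
      have h4 := congrArg (eval y) h
      simp only [map_add, map_mul, eval_C, hFx, hFx', hG2x, mul_zero, add_zero, zero_add] at h3
      simp only [map_add, map_mul, eval_C, hFy, hFy', hG1y, mul_zero, add_zero, zero_add] at h4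
      have h5 : (a : ℤ) = a' := mul_right_cancel₀ hG1x h3
      have h6 : (b : ℤ) = b' := mul_right_cancel₀ hG2y h4
      have h5' : a = a' := by exact_mod_cast h5
      have h6' : b = b' := by exact_mod_cast h6
      subst h5'
      subst h6'
      have h7 : F = F' := add_right_cancel (add_right_cancel h)
      rw [h7]
  rw [Finset.card_product, Finset.card_product, Finset.card_range] at h1
  have h2 := h1.trans (card_FF_mul n d H 2 (by omega))
  have hHr : (0 : ℝ) < H := by exact_mod_cast hH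
  have hRr : (0 : ℝ) < R := by exact_mod_cast hR
  have h3 : ((((FF n d H).filter (fun F => eval x F = 0 ∧ eval y F = 0)).card *
    ((M + 1) * (M + 1)) : ℕ) : ℝ) ≤ ((2 ^ (Mo n d).card * (FF n d H).card : ℕ) : ℝ) :=
    Nat.cast_le.2 h2
  have h4 : (H : ℝ) ≤ ((M : ℝ) + 1) * (4 * R) := by
    have h5 : (H : ℝ) ≤ (((M + 1) * (4 * R) : ℕ) : ℝ) := Nat.cast_le.2 hlt.le
    push_cast at h5
    exact h5
  have h5 : ((H : ℝ) / (4 * R)) ^ 2 ≤ ((M : ℝ) + 1) * (M + 1) := by
    rw [← sq]
    refine pow_le_pow_left₀ (by positivity) ?_ 2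
    rw [div_le_iff₀ (by positivity)]
    exact h4
  rw [Nat.cast_mul, Nat.cast_mul, Nat.cast_mul] at h3
  push_cast at h3
  set z : ℝ := (((FF n d H).filter (fun F => eval x F = 0 ∧ eval y F = 0)).card : ℝ) with hz
  have hz0 : 0 ≤ z := Nat.cast_nonneg _
  have h6 : z * ((H : ℝ) / (4 * R)) ^ 2 ≤ 2 ^ (Mo n d).card * ((FF n d H).card : ℝ) :=
    (mul_le_mul_of_nonneg_left h5 hz0).trans h3
  have h7 : z = (z * ((H : ℝ) / (4 * R)) ^ 2) * (16 * ((R : ℝ) / H) ^ 2) := by
    field_simp
    ring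
  rw [h7]
  calc (z * ((H : ℝ) / (4 * R)) ^ 2) * (16 * ((R : ℝ) / H) ^ 2)
      ≤ (2 ^ (Mo n d).card * ((FF n d H).card : ℝ)) * (16 * ((R : ℝ) / H) ^ 2) :=
        mul_le_mul_of_nonneg_right h6 (by positivity)
    _ = _ := by ring

end Pool.Agent.Helper17.RV
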