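import Pool.Agent.Helper17.RV.Slice

set_option autoImplicit false

/-! # Integral points of height at most `T` on a nonlinear hypersurface -/

namespace Pool.Agent.Helper17.RV

open MvPolynomial Finset

theorem eval_mod {k : ℕ} (p : ℕ) (P : Fin k → ℤ) (G : MvPolynomial (Fin k) ℤ) :
    eval (fun i => ((P i : ℤ) : ZMod p)) (map (Int.castRingHom (ZMod p)) G) =
      ((eval P G : ℤ) : ZMod p) := by
  rw [eval_map]
  have h3 := MvPolynomial.eval₂_comp_left (Int.castRingHom (ZMod p)) (RingHom.id ℤ) P G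
  simp only [RingHom.comp_id] at h3
  exact h3.symm

/-- the points which are nonsingular modulo `p` -/
theorem card_nonsing {k : ℕ} (G : MvPolynomial (Fin (k + 1)) ℤ) (D : ℕ)
    (hD : G.totalDegree ≤ D)
    (hNL : ∀ (i0 : Fin (k + 1)) (a : Fin k → ℚ) (a0 : ℚ),
      restr (map (Int.castRingHom ℚ) G) i0 a a0 ≠ 0)
    (p T : ℕ) (hpp : p.Prime) (hp : (k + 1).factorial * (2 * T) ^ (k + 1) < p ^ (k + 2))
    (S : Finset (Fin (k + 1) → ℤ)) (hT : ∀ P ∈ S, ∀ i, |P i| ≤ T)
    (h0 : ∀ P ∈ S, eval P G = 0) (hns : ∀ P ∈ S, ¬ (p : ℤ) ∣ eval P (pderiv 0 G)) :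
    S.card ≤ (k * D * (2 * T / p + 1) ^ (k - 1)) * (D * p ^ k) := by
  classical
  haveI : Fact p.Prime := ⟨hpp⟩
  let π : (Fin (k + 1) → ℤ) → (Fin (k + 1) → ZMod p) := fun P i => ((P i : ℤ) : ZMod p)
  have h1 : S.card ≤ (k * D * (2 * T / p + 1) ^ (k - 1)) * (S.image π).card := by
    refine Finset.card_le_mul_card_image S _ fun c hc => ?_
    obtain ⟨P₀, hP₀, rfl⟩ := Finset.mem_image.1 hc
    set S' := S.filter (fun P => π P = π P₀) with hS'
    have hP₀' : P₀ ∈ S' := by
      rw [hS', Finset.mem_filter]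
      exact ⟨hP₀, rfl⟩
    have hcl : ∀ P ∈ S', ∀ i, ((P i : ℤ) : ZMod p) = P₀ i := by
      intro P hP i
      exact congrFun (Finset.mem_filter.1 hP).2 i
    have hc' : ((eval P₀ (pderiv 0 G) : ℤ) : ZMod p) ≠ 0 := by
      intro h
      exact hns P₀ hP₀ ((ZMod.intCast_zmod_eq_zero_iff_dvd _ p).1 h)
    obtain ⟨a, ha, a0, hH⟩ := hyper p T G S' P₀ hP₀' hc'
      (fun P hP => hT P (Finset.mem_filter.1 hP).1) hcl
      (fun P hP => h0 P (Finset.mem_filter.1 hP).1) hp
    refine card_section G D hD hNL p T hpp.one_lt.le P₀ S'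
      (fun P hP => hT P (Finset.mem_filter.1 hP).1) ?_
      (fun P hP => h0 P (Finset.mem_filter.1 hP).1) a ha a0 hH
    intro P hP i
    rw [← ZMod.intCast_zmod_eq_zero_iff_dvd]
    push_cast
    rw [hcl P hP i, sub_self]
  refine h1.trans (Nat.mul_le_mul_left _ ?_)
  -- the number of the classes
  set Gp := map (Int.castRingHom (ZMod p)) G with hGp
  have h2 : (S.image π).card ≤ D * ((S.image π).image (fun c => Fin.tail c)).card := by
    refine Finset.card_le_mul_card_image _ _ fun t ht => ?_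
    obtain ⟨c0, hc0, rfl⟩ := Finset.mem_image.1 ht
    obtain ⟨P₀, hP₀, rfl⟩ := Finset.mem_image.1 hc0
    set q := slice Gp (Fin.tail (π P₀)) with hq
    have hder : (Polynomial.derivative q).eval (π P₀ 0) ≠ 0 := by
      rw [hq, slice_deriv, slice_eval, Fin.cons_self_tail, hGp, pderiv_map, eval_mod]
      intro h
      exact hns P₀ hP₀ ((ZMod.intCast_zmod_eq_zero_iff_dvd _ p).1 h)
    have hq0 : q ≠ 0 := by
      intro h
      apply hder
      rw [h]
      simp
    have h3 : ((S.image π).filter (fun c => Fin.tail c = Fin.tail (π P₀))).card ≤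
        q.roots.toFinset.card := by
      refine Finset.card_le_card_of_injOn (fun c => c 0) ?_ ?_
      · intro c hc
        rw [Finset.mem_coe, Finset.mem_filter] at hc
        obtain ⟨P, hP, rfl⟩ := Finset.mem_image.1 hc.1
        rw [Finset.mem_coe, Multiset.mem_toFinset, Polynomial.mem_roots hq0, Polynomial.IsRoot.def,
          hq, slice_eval, ← hc.2, Fin.cons_self_tail, hGp, eval_mod, h0 P hP, Int.cast_zero]
      · intro c hc c' hc' h
        rw [Finset.mem_coe, Finset.mem_filter] at hc hc'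
        rw [← Fin.cons_self_tail c, ← Fin.cons_self_tail c', hc.2, hc'.2]
        have h : c 0 = c' 0 := h
        rw [h]
    refine h3.trans ((Multiset.toFinset_card_le _).trans ((Polynomial.card_roots' _).trans ?_))
    exact (slice_natDegree _ _).trans ((Finset.sup_mono (support_map_subset _ _)).trans hD)
  refine h2.trans (Nat.mul_le_mul_left _ ?_)
  refine (Finset.card_le_univ _).trans (le_of_eq ?_)
  rw [Fintype.card_fun, ZMod.card, Fintype.card_fin]

/-- there are many primes -/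
theorem primes (Q : ℕ) (hQ : 1 ≤ Q) : ∀ r : ℕ, ∃ PP : Finset ℕ, PP.card = r ∧
    ∀ p ∈ PP, p.Prime ∧ Q < p ∧ p ≤ 2 ^ r * Q := by
  classical
  intro r
  induction r with
  | zero => exact ⟨∅, rfl, fun p hp => absurd hp (Finset.notMem_empty p)⟩
  | succ r ih =>
    obtain ⟨PP, h1, h2⟩ := ih
    have h3 : 1 ≤ 2 ^ r := Nat.one_le_two_pow
    obtain ⟨p, hp1, hp2, hp3⟩ := Nat.exists_prime_lt_and_le_two_mul (2 ^ r * Q) (by positivity)
    refine ⟨insert p PP, ?_, ?_⟩
    · rw [Finset.card_insert_of_notMem, h1]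
      intro h4
      have := (h2 p h4).2.2
      omega
    · intro q hq
      rcases Finset.mem_insert.1 hq with h | h
      · subst h
        refine ⟨hp1, ?_, ?_⟩
        · calc Q = 1 * Q := (one_mul Q).symm
            _ ≤ 2 ^ r * Q := Nat.mul_le_mul_right _ h3
            _ < q := hp2
        · refine hp3.trans (le_of_eq ?_)
          rw [pow_succ]
          ring
      · obtain ⟨h4, h5, h6⟩ := h2 q h
        refine ⟨h4, h5, h6.trans ?_⟩
        refine Nat.mul_le_mul_right _ ?_
        exact Nat.pow_le_pow_right (by norm_num) (Nat.le_succ r)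

/-- the size of the values -/
theorem abs_eval_le' {k : ℕ} (G : MvPolynomial (Fin k) ℤ) (P : Fin k → ℤ) (T : ℕ) (hT1 : 1 ≤ T)
    (hT : ∀ i, |P i| ≤ T) :
    |eval P G| ≤ (∑ m ∈ G.support, |G.coeff m|) * (T : ℤ) ^ G.totalDegree := by
  rw [eval_eq', Finset.sum_mul]
  refine (Finset.abs_sum_le_sum_abs _ _).trans (Finset.sum_le_sum fun m hm => ?_)
  rw [abs_mul, Finset.abs_prod]
  refine mul_le_mul_of_nonneg_left ?_ (abs_nonneg _)
  have h1 : ∏ i, |P i ^ m i| ≤ ∏ i, (T : ℤ) ^ m i := by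
    refine Finset.prod_le_prod (fun _ _ => abs_nonneg _) fun i _ => ?_
    rw [abs_pow]
    exact pow_le_pow_left₀ (abs_nonneg _) (hT i) _
  refine h1.trans ?_
  rw [Finset.prod_pow_eq_pow_sum]
  refine pow_le_pow_right₀ (by exact_mod_cast hT1) ?_
  have h4 := le_totalDegree hm
  rwa [Finsupp.sum_fintype _ _ (fun _ => rfl)] at h4

end Pool.Agent.Helper17.RV
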