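import Pool.Agent.Helper17.RV.Sum

set_option autoImplicit false

/-! # Partial summation: tails -/

namespace Pool.Agent.Helper17.RV

open Finset

theorem rpow_diff (γ : ℝ) (hγ : 0 < γ) : ∃ K : ℝ, 0 < K ∧ ∀ t : ℝ, 1 ≤ t →
    t ^ (-γ - 1) ≤ K * (t ^ (-γ) - (t + 1) ^ (-γ)) := by
  set c : ℝ := min γ 1 with hc
  have hc0 : 0 < c := lt_min hγ one_pos
  refine ⟨2 / c, by positivity, fun t ht => ?_⟩
  have ht0 : 0 < t := by linarith
  have ht1 : 0 < t + 1 := by linarith
  have h1 : (t / (t + 1)) ^ γ ≤ 1 - c / (t + 1) := by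
    have hq0 : 0 < t / (t + 1) := by positivity
    have hq1 : t / (t + 1) ≤ 1 := by
      rw [div_le_one ht1]
      linarith
    have h2 : (t / (t + 1)) ^ γ ≤ (t / (t + 1)) ^ c :=
      Real.rpow_le_rpow_of_exponent_ge hq0 hq1 (min_le_left _ _)
    refine h2.trans ?_
    have h3 : t / (t + 1) = 1 + -(1 / (t + 1)) := by
      field_simp
      ring
    rw [h3]
    have h4 := rpow_one_add_le_one_add_mul_self (s := -(1 / (t + 1))) (by
      have : 1 / (t + 1) ≤ 1 := by
        rw [div_le_one ht1]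
        linarith
      linarith) hc0.le (min_le_right _ _)
    refine h4.trans (le_of_eq ?_)
    ring
  have h5 : (t + 1) ^ (-γ) = t ^ (-γ) * (t / (t + 1)) ^ γ := by
    rw [Real.div_rpow ht0.le ht1.le, Real.rpow_neg ht0.le, Real.rpow_neg ht1.le]
    have : t ^ γ ≠ 0 := (Real.rpow_pos_of_pos ht0 _).ne'
    field_simp
  have h6 : 0 < t ^ (-γ) := Real.rpow_pos_of_pos ht0 _
  have h7 : t ^ (-γ) * (c / (t + 1)) ≤ t ^ (-γ) - (t + 1) ^ (-γ) := by
    rw [h5]
    nlinarith
  have h8 : t ^ (-γ - 1) = t ^ (-γ) / t := by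
    rw [Real.rpow_sub_one ht0.ne']
  rw [h8]
  have h9 : t ^ (-γ) / t ≤ 2 / c * (t ^ (-γ) * (c / (t + 1))) := by
    have e : 2 / c * (t ^ (-γ) * (c / (t + 1))) = t ^ (-γ) * (2 / (t + 1)) := by
      field_simp
    rw [e, div_eq_mul_one_div]
    refine mul_le_mul_of_nonneg_left ?_ h6.le
    rw [div_le_div_iff₀ ht0 ht1]
    linarith
  exact h9.trans (mul_le_mul_of_nonneg_left h7 (by positivity))

theorem telescope (g : ℕ → ℝ) (R T : ℕ) :
    ∑ t ∈ Finset.Icc 1 T, (if R < t then g t - g (t + 1) else 0) =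
      if R < T then g (R + 1) - g (T + 1) else 0 := by
  induction T with
  | zero => simp
  | succ T ih =>
    rw [Finset.sum_Icc_succ_top (by omega), ih]
    rcases lt_trichotomy R T with h | h | h
    · rw [if_pos h, if_pos (by omega), if_pos (by omega)]
      ring
    · subst h
      rw [if_neg (lt_irrefl _), if_pos (by omega)]
      ring
    · rw [if_neg (by omega), if_neg (by omega), if_neg (by omega)]
      ring

/-- tails of weighted sums -/
theorem tail_weight (A θ : ℝ) (hA : 0 ≤ A) (q : ℕ) (hθ : θ < q) :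
    ∃ C : ℝ, 0 < C ∧ ∀ a : ℕ → ℝ, (∀ b, 0 ≤ a b) →
      (∀ T : ℕ, 1 ≤ T → ∑ b ∈ Finset.Icc 1 T, a b ≤ A * (T : ℝ) ^ θ) →
      ∀ R T : ℕ, ∑ b ∈ Finset.Icc 1 T, (if R < b then a b else 0) * (1 / (b : ℝ) ^ q) ≤
        C * ((R : ℝ) + 1) ^ (θ - q) := by
  obtain ⟨K, hK0, hK⟩ := rpow_diff (q - θ) (by linarith)
  refine ⟨A + A * q * K + 1, by positivity, fun a ha hT R T => ?_⟩
  have hR1 : (0 : ℝ) < (R : ℝ) + 1 := by positivity
  have hRp : 0 < ((R : ℝ) + 1) ^ (θ - q) := Real.rpow_pos_of_pos hR1 _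
  rcases Nat.eq_zero_or_pos T with h | h
  · subst h
    simp only [Finset.Icc_eq_empty_of_lt Nat.zero_lt_one, Finset.sum_empty]
    positivity
  obtain ⟨T', rfl⟩ : ∃ T', T = T' + 1 := ⟨T - 1, by omega⟩
  rw [abel]
  -- the partial sums
  have hS : ∀ t : ℕ, ∑ b ∈ Finset.Icc 1 t, (if R < b then a b else 0) ≤
      if R < t then A * (t : ℝ) ^ θ else 0 := by
    intro t
    by_cases hRt : R < t
    · rw [if_pos hRt]
      refine (Finset.sum_le_sum fun b _ => ?_).trans (hT t (by omega))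
      split_ifs
      · exact le_rfl
      · exact ha b
    · rw [if_neg hRt]
      refine le_of_eq (Finset.sum_eq_zero fun b hb => ?_)
      have := (Finset.mem_Icc.1 hb).2
      rw [if_neg (by omega)]
  have h1 : (∑ b ∈ Finset.Icc 1 (T' + 1), (if R < b then a b else 0)) *
      (1 / ((T' : ℝ) + 1) ^ q) ≤ A * ((R : ℝ) + 1) ^ (θ - q) := by
    have hT1 : (0 : ℝ) < (T' : ℝ) + 1 := by positivity
    have h2 := hS (T' + 1)
    by_cases hRt : R < T' + 1
    · rw [if_pos hRt] at h2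
      have h3 : ((T' + 1 : ℕ) : ℝ) ^ θ * (1 / ((T' : ℝ) + 1) ^ q) = ((T' : ℝ) + 1) ^ (θ - q) := by
        push_cast
        rw [Real.rpow_sub hT1, Real.rpow_natCast]
        ring
      calc _ ≤ A * ((T' + 1 : ℕ) : ℝ) ^ θ * (1 / ((T' : ℝ) + 1) ^ q) :=
            mul_le_mul_of_nonneg_right h2 (by positivity)
        _ = A * ((T' : ℝ) + 1) ^ (θ - q) := by rw [mul_assoc, h3]
        _ ≤ _ := by
            refine mul_le_mul_of_nonneg_left ?_ hA
            refine Real.rpow_le_rpow_of_nonpos hR1 ?_ (by linarith)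
            have : (R : ℝ) + 1 ≤ ((T' + 1 : ℕ) : ℝ) := by exact_mod_cast hRt
            push_cast at this
            linarith
    · rw [if_neg hRt] at h2
      calc _ ≤ 0 * (1 / ((T' : ℝ) + 1) ^ q) := mul_le_mul_of_nonneg_right h2 (by positivity)
        _ = 0 := zero_mul _
        _ ≤ _ := by positivity
  have h2 : ∑ t ∈ Finset.Icc 1 T', (∑ b ∈ Finset.Icc 1 t, (if R < b then a b else 0)) *
      (1 / (t : ℝ) ^ q - 1 / ((t : ℝ) + 1) ^ q) ≤ A * q * K * ((R : ℝ) + 1) ^ (θ - q) := by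
    have h3 : ∀ t ∈ Finset.Icc 1 T', (∑ b ∈ Finset.Icc 1 t, (if R < b then a b else 0)) *
        (1 / (t : ℝ) ^ q - 1 / ((t : ℝ) + 1) ^ q) ≤
        A * q * K * (if R < t then (fun u : ℕ => (u : ℝ) ^ (θ - q)) t -
          (fun u : ℕ => (u : ℝ) ^ (θ - q)) (t + 1) else 0) := by
      intro t ht
      have ht1 : 1 ≤ t := (Finset.mem_Icc.1 ht).1
      have htr : (1 : ℝ) ≤ t := by exact_mod_cast ht1
      have ht0 : (0 : ℝ) < t := by linarith
      have h4 := pow_diff q t htr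
      have h5 : 0 ≤ ∑ b ∈ Finset.Icc 1 t, (if R < b then a b else 0) :=
        Finset.sum_nonneg fun b _ => by
          split_ifs
          · exact ha b
          · exact le_rfl
      have h7 := hS t
      by_cases hRt : R < t
      · rw [if_pos hRt] at h7 ⊢
        have h6 : (t : ℝ) ^ (-(q - θ) - 1) = (t : ℝ) ^ θ * (1 / (t : ℝ) ^ (q + 1)) := by
          rw [one_div, ← Real.rpow_natCast, ← Real.rpow_neg ht0.le, ← Real.rpow_add ht0]
          congr 1
          push_cast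
          ring
        have h8 := hK t htr
        have e1 : -((q : ℝ) - θ) = θ - q := by ring
        rw [e1] at h8 h6
        calc (∑ b ∈ Finset.Icc 1 t, (if R < b then a b else 0)) *
              (1 / (t : ℝ) ^ q - 1 / ((t : ℝ) + 1) ^ q)
            ≤ (∑ b ∈ Finset.Icc 1 t, (if R < b then a b else 0)) *
              (q * (1 / (t : ℝ) ^ (q + 1))) := mul_le_mul_of_nonneg_left h4 h5
          _ ≤ (A * (t : ℝ) ^ θ) * (q * (1 / (t : ℝ) ^ (q + 1))) :=
              mul_le_mul_of_nonneg_right h7 (by positivity)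
          _ = A * q * (t : ℝ) ^ (θ - q - 1) := by
              rw [h6]
              ring
          _ ≤ A * q * (K * ((t : ℝ) ^ (θ - q) - ((t : ℝ) + 1) ^ (θ - q))) :=
              mul_le_mul_of_nonneg_left h8 (by positivity)
          _ = _ := by
              push_cast
              ring
      · rw [if_neg hRt] at h7 ⊢
        have h8 : ∑ b ∈ Finset.Icc 1 t, (if R < b then a b else 0) = 0 := le_antisymm h7 h5
        rw [h8, zero_mul, mul_zero]
    refine (Finset.sum_le_sum h3).trans ?_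
    rw [← Finset.mul_sum, telescope]
    refine mul_le_mul_of_nonneg_left ?_ (by positivity)
    split_ifs
    · have h9 : 0 ≤ ((T' + 1 : ℕ) : ℝ) ^ (θ - q) := Real.rpow_nonneg (Nat.cast_nonneg _) _
      push_cast at h9 ⊢
      linarith
    · exact hRp.le
  nlinarith

/-- tails of the sums over the points -/
theorem tail_points (A θ : ℝ) (hA : 0 ≤ A) (D : ℕ) (hθ : θ < D) :
    ∃ C : ℝ, 0 < C ∧ ∀ a : ℕ → ℝ, (∀ b, 0 ≤ a b) →
      (∀ T : ℕ, 1 ≤ T → ∑ b ∈ Finset.Icc 1 T, a b ≤ A * (T : ℝ) ^ θ) →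
      ∀ H B R : ℕ, 1 ≤ H → 1 ≤ B →
        ∑ b ∈ Finset.Icc 1 B, (if R < b then a b else 0) * (1 / ((min b H : ℕ) : ℝ) ^ D) ≤
          C * (((R : ℝ) + 1) ^ (θ - D) + (B : ℝ) ^ θ / (H : ℝ) ^ D) := by
  obtain ⟨C, hC0, hC⟩ := tail_weight A θ hA D hθ
  refine ⟨C + A, by positivity, fun a ha hT H B R hH hB => ?_⟩
  have hHr : (1 : ℝ) ≤ H := by exact_mod_cast hH
  have hBr : (1 : ℝ) ≤ B := by exact_mod_cast hB
  have ha' : ∀ b, 0 ≤ (if R < b then a b else 0) := by
    intro b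
    split_ifs
    · exact ha b
    · exact le_rfl
  have key : ∀ b ∈ Finset.Icc 1 B, (if R < b then a b else 0) *
      (1 / ((min b H : ℕ) : ℝ) ^ D) ≤
      (if R < b then a b else 0) * (1 / (b : ℝ) ^ D) + a b * (1 / (H : ℝ) ^ D) := by
    intro b hb
    obtain ⟨hb1, hb2⟩ := Finset.mem_Icc.1 hb
    have hbr : (1 : ℝ) ≤ b := by exact_mod_cast hb1
    have h1 : 0 ≤ 1 / (b : ℝ) ^ D := by positivity
    have h2 : 0 ≤ 1 / (H : ℝ) ^ D := by positivity
    rcases le_total b H with h | h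
    · rw [min_eq_left h]
      have := mul_nonneg (ha b) h2
      linarith
    · rw [min_eq_right h]
      have h3 : (if R < b then a b else 0) ≤ a b := by
        split_ifs
        · exact le_rfl
        · exact ha b
      have h4 := mul_le_mul_of_nonneg_right h3 h2
      have h5 := mul_nonneg (ha' b) h1
      linarith
  refine (Finset.sum_le_sum key).trans ?_
  rw [Finset.sum_add_distrib, ← Finset.sum_mul]
  have h1 := hC a ha hT R B
  have h2 := hT B hB
  have h3 : (∑ b ∈ Finset.Icc 1 B, a b) * (1 / (H : ℝ) ^ D) ≤ A * ((B : ℝ) ^ θ / (H : ℝ) ^ D) := by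
    calc _ ≤ (A * (B : ℝ) ^ θ) * (1 / (H : ℝ) ^ D) :=
          mul_le_mul_of_nonneg_right h2 (by positivity)
      _ = _ := by ring
  have h4 : 0 ≤ (B : ℝ) ^ θ / (H : ℝ) ^ D := by positivity
  have h5 : 0 < ((R : ℝ) + 1) ^ (θ - D) := Real.rpow_pos_of_pos (by positivity) _
  nlinarith

end Pool.Agent.Helper17.RV
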