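import Pool.Agent.Helper17.RV.Sec
import Pool.Agent.Helper17.RV.Pair
import Pool.Agent.Helper17.RV.Tail
import Pool.Agent.Helper17.RV.FormLim

set_option autoImplicit false

/-! # Counting systems by their zeros -/

namespace Pool.Agent.Helper17.RV

open MvPolynomial Finset Pool.Agent.R870.RC

variable {n : ℕ}

/-- the height of an integral vector -/
def ht (x : Fin (n + 1) → ℤ) : ℕ := Finset.univ.sup (fun j => (x j).natAbs)

theorem ht_le {x : Fin (n + 1) → ℤ} {T : ℕ} : ht x ≤ T ↔ ∀ j, |x j| ≤ T := by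
  unfold ht
  rw [Finset.sup_le_iff]
  constructor
  · intro h j
    rw [Int.abs_eq_natAbs]
    exact_mod_cast h j (Finset.mem_univ j)
  · intro h j _
    have h1 := h j
    rw [Int.abs_eq_natAbs] at h1
    exact_mod_cast h1

theorem lt_ht {x : Fin (n + 1) → ℤ} {T : ℕ} : T < ht x ↔ ∃ j, (T : ℤ) < |x j| := by
  rw [← not_le, ht_le]
  push Not
  rfl

theorem prim_ht (x : Fin (n + 1) → ℤ) (hx : ∃ a : Fin (n + 1) → ℤ, ∑ i, a i * x i = 1) :
    ∃ i0, Prim x i0 (ht x) := by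
  obtain ⟨i0, _, hi0⟩ := Finset.exists_mem_eq_sup (Finset.univ : Finset (Fin (n + 1)))
    ⟨0, Finset.mem_univ 0⟩ (fun j => (x j).natAbs)
  have h1 : |x i0| = ((ht x : ℕ) : ℤ) := by
    rw [Int.abs_eq_natAbs]
    unfold ht
    rw [hi0]
  refine ⟨i0, hx, h1, ?_, ht_le.1 le_rfl⟩
  by_contra h
  have h2 : ht x = 0 := by omega
  have h3 := ht_le.1 h2.le
  obtain ⟨a, ha⟩ := hx
  have h4 : ∑ i, a i * x i = 0 := by
    refine Finset.sum_eq_zero fun i _ => ?_
    have h5 := h3 i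
    have h6 : x i = 0 := abs_nonpos_iff.1 (by exact_mod_cast h5)
    rw [h6, mul_zero]
  rw [h4] at ha
  exact zero_ne_one ha

/-- the primitive vectors of height at most `T` on the cone over the variety -/
noncomputable def PT (E : Set (MvPolynomial (Fin (n + 1)) ℚ)) (T : ℕ) :
    Finset (Fin (n + 1) → ℤ) := by
  classical
  exact (Fintype.piFinset (fun _ => Finset.Icc (-(T : ℤ)) T)).filter
    (fun x => (∃ a : Fin (n + 1) → ℤ, ∑ i, a i * x i = 1) ∧ InVar E x)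

theorem mem_PT {E : Set (MvPolynomial (Fin (n + 1)) ℚ)} {T : ℕ} {x : Fin (n + 1) → ℤ} :
    x ∈ PT E T ↔ (∃ a : Fin (n + 1) → ℤ, ∑ i, a i * x i = 1) ∧ InVar E x ∧ ht x ≤ T := by
  classical
  unfold PT
  rw [Finset.mem_filter, Fintype.mem_piFinset, ht_le]
  simp only [Finset.mem_Icc, ← abs_le]
  tauto

theorem card_fibres (E : Set (MvPolynomial (Fin (n + 1)) ℚ)) (T : ℕ) (f : ℕ → ℝ) :
    ∑ x ∈ PT E T, f (ht x) =
      ∑ b ∈ Finset.Icc 1 T, (((PT E b).filter (fun x => ht x = b)).card : ℝ) * f b := by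
  classical
  rw [← Finset.sum_fiberwise_of_maps_to (s := PT E T) (t := Finset.Icc 1 T) (g := ht)]
  · refine Finset.sum_congr rfl fun b hb => ?_
    have h1 : (PT E T).filter (fun x => ht x = b) = (PT E b).filter (fun x => ht x = b) := by
      ext x
      rw [Finset.mem_filter, Finset.mem_filter, mem_PT, mem_PT]
      have := (Finset.mem_Icc.1 hb).2
      constructor
      · rintro ⟨⟨h1, h2, h3⟩, h4⟩
        exact ⟨⟨h1, h2, h4.le⟩, h4⟩
      · rintro ⟨⟨h1, h2, h3⟩, h4⟩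
        exact ⟨⟨h1, h2, h3.trans this⟩, h4⟩
    rw [← h1, ← nsmul_eq_mul]
    refine Finset.sum_eq_card_nsmul fun x hx => ?_
    rw [(Finset.mem_filter.1 hx).2]
  · intro x hx
    rw [mem_PT] at hx
    obtain ⟨i0, h⟩ := prim_ht x hx.1
    exact Finset.mem_Icc.2 ⟨h.2.2.1, hx.2.2⟩

/-- the number of the systems vanishing at a point -/
noncomputable def AX {s : ℕ} (d : Fin s → ℕ) (H : ℕ) (x : Fin (n + 1) → ℤ) : ℕ :=
  ∏ i, (Z0 d H x i).card

/-- the finset of all systems -/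
noncomputable def Sy (n : ℕ) {s : ℕ} (d : Fin s → ℕ) (H : ℕ) :
    Finset (Fin s → MvPolynomial (Fin (n + 1)) ℤ) := Fintype.piFinset fun i => FF n (d i) H

theorem card_Sy {s : ℕ} (d : Fin s → ℕ) (H : ℕ) :
    (Sy n d H).card = ∏ i, (FF n (d i) H).card := by
  unfold Sy
  rw [Fintype.card_piFinset]

theorem card_Sy_pos {s : ℕ} (d : Fin s → ℕ) (H : ℕ) : (0 : ℝ) < ((Sy n d H).card : ℝ) := by
  rw [card_Sy]
  refine Nat.cast_pos.2 (Finset.prod_pos fun i _ => ?_)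
  rw [card_FF]
  positivity

/-- the systems vanishing at a point -/
noncomputable def SyZ {s : ℕ} (d : Fin s → ℕ) (H : ℕ) (x : Fin (n + 1) → ℤ) :
    Finset (Fin s → MvPolynomial (Fin (n + 1)) ℤ) := by
  classical
  exact (Sy n d H).filter (fun F => ∀ i, eval x (F i) = 0)

theorem mem_SyZ {s : ℕ} {d : Fin s → ℕ} {H : ℕ} {x : Fin (n + 1) → ℤ}
    {F : Fin s → MvPolynomial (Fin (n + 1)) ℤ} :
    F ∈ SyZ d H x ↔ F ∈ Sy n d H ∧ ∀ i, eval x (F i) = 0 := by
  classical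
  unfold SyZ
  exact Finset.mem_filter

theorem card_SyZ {s : ℕ} (d : Fin s → ℕ) (H : ℕ) (x : Fin (n + 1) → ℤ) :
    (SyZ d H x).card = AX d H x := by
  classical
  have h1 : SyZ d H x = Fintype.piFinset (Z0 d H x) := by
    ext F
    rw [mem_SyZ, Fintype.mem_piFinset]
    unfold Sy
    rw [Fintype.mem_piFinset, ← forall_and]
    exact forall_congr' fun i => mem_Z0.symm
  rw [h1, Fintype.card_piFinset]
  rfl

theorem ax_le {s : ℕ} (d : Fin s → ℕ) (H : ℕ) (hH : 1 ≤ H) (x : Fin (n + 1) → ℤ)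
    (hx : ∃ a : Fin (n + 1) → ℤ, ∑ i, a i * x i = 1) :
    (AX d H x : ℝ) ≤ (∏ i, (cst n (d i) : ℝ)) * ((Sy n d H).card : ℝ) / (H : ℝ) ^ s *
      (1 / ((min (ht x) H : ℕ) : ℝ) ^ (∑ i, d i)) := by
  obtain ⟨i0, hi0⟩ := prim_ht x hx
  unfold AX
  rw [Nat.cast_prod]
  refine (Finset.prod_le_prod (fun i _ => Nat.cast_nonneg _)
    (fun i _ => count_real (d i) H hH x i0 (ht x) hi0 0)).trans (le_of_eq ?_)
  rw [Finset.prod_div_distrib, Finset.prod_mul_distrib, Finset.prod_mul_distrib,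
    Finset.prod_const, Finset.card_univ, Fintype.card_fin, Finset.prod_pow_eq_pow_sum,
    card_Sy, Nat.cast_prod]
  rw [mul_one_div, div_div]

/-- the tail of the sum over the points -/
theorem tail_AX (E : Set (MvPolynomial (Fin (n + 1)) ℚ)) (A θ : ℝ) (hA0 : 0 ≤ A)
    (hcount : ∀ T : ℕ, 1 ≤ T → ∀ S : Finset (Fin (n + 1) → ℤ),
      (∀ x ∈ S, (∀ i, |x i| ≤ T) ∧ InVar E x) → (S.card : ℝ) ≤ A * (T : ℝ) ^ θ)
    {s : ℕ} (d : Fin s → ℕ) (hθ : θ < ((∑ i, d i : ℕ) : ℝ)) :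
    ∃ C : ℝ, 0 < C ∧ ∀ H B R : ℕ, 1 ≤ H → 1 ≤ B →
      ∑ x ∈ (PT E B).filter (fun x => R < ht x), (AX d H x : ℝ) ≤
        C * (((Sy n d H).card : ℝ) / (H : ℝ) ^ s) *
          (((R : ℝ) + 1) ^ (θ - ((∑ i, d i : ℕ) : ℝ)) + (B : ℝ) ^ θ / (H : ℝ) ^ (∑ i, d i)) := by
  classical
  obtain ⟨C, hC0, hC⟩ := tail_points A θ hA0 (∑ i, d i) hθ
  have hcst : (0 : ℝ) < ∏ i, (cst n (d i) : ℝ) := Finset.prod_pos fun i _ => cst_pos n (d i)
  refine ⟨(∏ i, (cst n (d i) : ℝ)) * C, mul_pos hcst hC0, fun H B R hH hB => ?_⟩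
  set W : ℝ := (∏ i, (cst n (d i) : ℝ)) * ((Sy n d H).card : ℝ) / (H : ℝ) ^ s with hW
  have hW0 : 0 ≤ W := div_nonneg (mul_nonneg hcst.le (Nat.cast_nonneg _))
    (pow_nonneg (Nat.cast_nonneg _) _)
  have h1 : ∑ x ∈ (PT E B).filter (fun x => R < ht x), (AX d H x : ℝ) ≤
      ∑ x ∈ PT E B, (fun b : ℕ => if R < b then W * (1 / ((min b H : ℕ) : ℝ) ^ (∑ i, d i))
        else 0) (ht x) := by
    rw [Finset.sum_filter]
    refine Finset.sum_le_sum fun x hx => ?_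
    show (if R < ht x then (AX d H x : ℝ) else 0) ≤
      if R < ht x then W * (1 / ((min (ht x) H : ℕ) : ℝ) ^ (∑ i, d i)) else 0
    split_ifs
    · exact ax_le d H hH x (mem_PT.1 hx).1
    · exact le_rfl
  refine h1.trans ?_
  rw [card_fibres E B (fun b : ℕ => if R < b then W * (1 / ((min b H : ℕ) : ℝ) ^ (∑ i, d i))
    else 0)]
  have h2 : ∑ b ∈ Finset.Icc 1 B, (((PT E b).filter (fun x => ht x = b)).card : ℝ) *
      (if R < b then W * (1 / ((min b H : ℕ) : ℝ) ^ (∑ i, d i)) else 0) =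
      W * ∑ b ∈ Finset.Icc 1 B, (if R < b then (((PT E b).filter (fun x => ht x = b)).card : ℝ)
        else 0) * (1 / ((min b H : ℕ) : ℝ) ^ (∑ i, d i)) := by
    rw [Finset.mul_sum]
    refine Finset.sum_congr rfl fun b _ => ?_
    split_ifs
    · ring
    · ring
  rw [h2]
  have h3 := hC (fun b => (((PT E b).filter (fun x => ht x = b)).card : ℝ))
    (fun b => Nat.cast_nonneg _) (fun T hT => by
      have h4 := card_fibres E T (fun _ => 1)
      simp only [mul_one] at h4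
      rw [← h4, Finset.sum_const, nsmul_eq_mul, mul_one]
      refine hcount T hT _ fun x hx => ?_
      rw [mem_PT] at hx
      exact ⟨ht_le.1 hx.2.2, hx.2.1⟩) H B R hH hB
  calc _ ≤ W * (C * (((R : ℝ) + 1) ^ (θ - ((∑ i, d i : ℕ) : ℝ)) +
        (B : ℝ) ^ θ / (H : ℝ) ^ (∑ i, d i))) := mul_le_mul_of_nonneg_left h3 hW0
    _ = _ := by
        rw [hW]
        ring

/-- the systems with a zero on the variety of height at most `T` -/
noncomputable def One (E : Set (MvPolynomial (Fin (n + 1)) ℚ)) {s : ℕ} (d : Fin s → ℕ)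
    (H T : ℕ) : Finset (Fin s → MvPolynomial (Fin (n + 1)) ℤ) := by
  classical
  exact (Sy n d H).filter (fun F => ∃ x ∈ PT E T, ∀ i, eval x (F i) = 0)

theorem mem_One {E : Set (MvPolynomial (Fin (n + 1)) ℚ)} {s : ℕ} {d : Fin s → ℕ} {H T : ℕ}
    {F : Fin s → MvPolynomial (Fin (n + 1)) ℤ} :
    F ∈ One E d H T ↔ F ∈ Sy n d H ∧ ∃ x ∈ PT E T, ∀ i, eval x (F i) = 0 := by
  classical
  unfold One
  exact Finset.mem_filter

/-- the systems with a zero on the variety of height in `(R, T]` -/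
noncomputable def Far (E : Set (MvPolynomial (Fin (n + 1)) ℚ)) {s : ℕ} (d : Fin s → ℕ)
    (H T R : ℕ) : Finset (Fin s → MvPolynomial (Fin (n + 1)) ℤ) := by
  classical
  exact (Sy n d H).filter (fun F => ∃ x ∈ PT E T, R < ht x ∧ ∀ i, eval x (F i) = 0)

theorem mem_Far {E : Set (MvPolynomial (Fin (n + 1)) ℚ)} {s : ℕ} {d : Fin s → ℕ} {H T R : ℕ}
    {F : Fin s → MvPolynomial (Fin (n + 1)) ℤ} :
    F ∈ Far E d H T R ↔ F ∈ Sy n d H ∧ ∃ x ∈ PT E T, R < ht x ∧ ∀ i, eval x (F i) = 0 := by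
  classical
  unfold Far
  exact Finset.mem_filter

/-- the systems with two zeros on the variety of height at most `T` -/
noncomputable def Two (E : Set (MvPolynomial (Fin (n + 1)) ℚ)) {s : ℕ} (d : Fin s → ℕ)
    (H T : ℕ) : Finset (Fin s → MvPolynomial (Fin (n + 1)) ℤ) := by
  classical
  exact (Sy n d H).filter (fun F => ∃ x ∈ PT E T, ∃ y ∈ PT E T, y ≠ x ∧ y ≠ -x ∧
    (∀ i, eval x (F i) = 0) ∧ ∀ i, eval y (F i) = 0)

theorem mem_Two {E : Set (MvPolynomial (Fin (n + 1)) ℚ)} {s : ℕ} {d : Fin s → ℕ} {H T : ℕ}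
    {F : Fin s → MvPolynomial (Fin (n + 1)) ℤ} :
    F ∈ Two E d H T ↔ F ∈ Sy n d H ∧ ∃ x ∈ PT E T, ∃ y ∈ PT E T, y ≠ x ∧ y ≠ -x ∧
      (∀ i, eval x (F i) = 0) ∧ ∀ i, eval y (F i) = 0 := by
  classical
  unfold Two
  exact Finset.mem_filter

theorem card_Far_le (E : Set (MvPolynomial (Fin (n + 1)) ℚ)) {s : ℕ} (d : Fin s → ℕ)
    (H T R : ℕ) : ((Far E d H T R).card : ℝ) ≤
      ∑ x ∈ (PT E T).filter (fun x => R < ht x), (AX d H x : ℝ) := by
  classical
  have h1 : Far E d H T R ⊆ ((PT E T).filter (fun x => R < ht x)).biUnion (SyZ d H) := by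
    intro F hF
    obtain ⟨hF, x, hx, hR, h0⟩ := mem_Far.1 hF
    exact Finset.mem_biUnion.2 ⟨x, Finset.mem_filter.2 ⟨hx, hR⟩, mem_SyZ.2 ⟨hF, h0⟩⟩
  have h2 := (Finset.card_le_card h1).trans Finset.card_biUnion_le
  simp only [card_SyZ] at h2
  exact_mod_cast h2

theorem card_One_le (E : Set (MvPolynomial (Fin (n + 1)) ℚ)) {s : ℕ} (d : Fin s → ℕ)
    (H T R : ℕ) : (One E d H T).card ≤ (One E d H R).card + (Far E d H T R).card := by
  classical
  refine (Finset.card_le_card ?_).trans (Finset.card_union_le _ _)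
  intro F hF
  obtain ⟨hF, x, hx, h0⟩ := mem_One.1 hF
  rw [Finset.mem_union]
  by_cases h : ht x ≤ R
  · left
    rw [mem_PT] at hx
    exact mem_One.2 ⟨hF, x, mem_PT.2 ⟨hx.1, hx.2.1, h⟩, h0⟩
  · right
    exact mem_Far.2 ⟨hF, x, hx, by omega, h0⟩

theorem card_Two_le (E : Set (MvPolynomial (Fin (n + 1)) ℚ)) {s : ℕ} (d : Fin s → ℕ)
    (H T R : ℕ) : (Two E d H T).card ≤ (Two E d H R).card + (Far E d H T R).card := by
  classical
  refine (Finset.card_le_card ?_).trans (Finset.card_union_le _ _)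
  intro F hF
  obtain ⟨hF, x, hx, y, hy, h1, h2, h0, h0'⟩ := mem_Two.1 hF
  rw [Finset.mem_union]
  by_cases h : ht x ≤ R
  · by_cases h' : ht y ≤ R
    · left
      rw [mem_PT] at hx hy
      exact mem_Two.2 ⟨hF, x, mem_PT.2 ⟨hx.1, hx.2.1, h⟩, y, mem_PT.2 ⟨hy.1, hy.2.1, h'⟩,
        h1, h2, h0, h0'⟩
    · right
      exact mem_Far.2 ⟨hF, y, hy, by omega, h0'⟩
  · right
    exact mem_Far.2 ⟨hF, x, hx, by omega, h0⟩

theorem One_mono (E : Set (MvPolynomial (Fin (n + 1)) ℚ)) {s : ℕ} (d : Fin s → ℕ)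
    (H : ℕ) {R T : ℕ} (h : R ≤ T) : (One E d H R).card ≤ (One E d H T).card := by
  refine Finset.card_le_card fun F hF => ?_
  obtain ⟨hF, x, hx, h0⟩ := mem_One.1 hF
  rw [mem_PT] at hx
  exact mem_One.2 ⟨hF, x, mem_PT.2 ⟨hx.1, hx.2.1, hx.2.2.trans h⟩, h0⟩

/-- the number of the systems vanishing at two points -/
noncomputable def BX {s : ℕ} (d : Fin s → ℕ) (H : ℕ) (x y : Fin (n + 1) → ℤ) : ℕ := by
  classical
  exact ((Sy n d H).filter (fun F => (∀ i, eval x (F i) = 0) ∧ ∀ i, eval y (F i) = 0)).card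

/-- the pairs of different points -/
noncomputable def PP (E : Set (MvPolynomial (Fin (n + 1)) ℚ)) (T : ℕ) :
    Finset ((Fin (n + 1) → ℤ) × (Fin (n + 1) → ℤ)) := by
  classical
  exact (PT E T ×ˢ PT E T).filter (fun p => p.2 ≠ p.1 ∧ p.2 ≠ -p.1)

theorem mem_PP {E : Set (MvPolynomial (Fin (n + 1)) ℚ)} {T : ℕ}
    {p : (Fin (n + 1) → ℤ) × (Fin (n + 1) → ℤ)} :
    p ∈ PP E T ↔ p.1 ∈ PT E T ∧ p.2 ∈ PT E T ∧ p.2 ≠ p.1 ∧ p.2 ≠ -p.1 := by
  classical
  unfold PP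
  rw [Finset.mem_filter, Finset.mem_product]
  tauto

theorem card_Two_pairs (E : Set (MvPolynomial (Fin (n + 1)) ℚ)) {s : ℕ} (d : Fin s → ℕ)
    (H R : ℕ) : (Two E d H R).card ≤ ∑ p ∈ PP E R, BX d H p.1 p.2 := by
  classical
  have h1 : Two E d H R ⊆ (PP E R).biUnion (fun p => (Sy n d H).filter
      (fun F => (∀ i, eval p.1 (F i) = 0) ∧ ∀ i, eval p.2 (F i) = 0)) := by
    intro F hF
    obtain ⟨hF, x, hx, y, hy, h1, h2, h0, h0'⟩ := mem_Two.1 hF
    exact Finset.mem_biUnion.2 ⟨(x, y), mem_PP.2 ⟨hx, hy, h1, h2⟩,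
      Finset.mem_filter.2 ⟨hF, h0, h0'⟩⟩
  exact (Finset.card_le_card h1).trans Finset.card_biUnion_le

theorem neg_mem_PT {E : Set (MvPolynomial (Fin (n + 1)) ℚ)}
    (hE : ∀ P ∈ E, ∃ e, P.IsHomogeneous e) {T : ℕ} {x : Fin (n + 1) → ℤ} (hx : x ∈ PT E T) :
    -x ∈ PT E T := by
  rw [mem_PT] at hx ⊢
  obtain ⟨⟨a, ha⟩, h1, h2⟩ := hx
  refine ⟨⟨-a, ?_⟩, ?_, ?_⟩
  · rw [← ha]
    refine Finset.sum_congr rfl fun i _ => ?_
    simp only [Pi.neg_apply]
    ring
  · exact inVar_scale E hE (-1) (by norm_num) x (-x) (fun j => by simp) h1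
  · rw [ht_le] at h2 ⊢
    intro j
    rw [Pi.neg_apply, abs_neg]
    exact h2 j

theorem ne_neg_of_prim (x : Fin (n + 1) → ℤ)
    (hx : ∃ a : Fin (n + 1) → ℤ, ∑ i, a i * x i = 1) : x ≠ -x := by
  intro h
  obtain ⟨i0, hi0⟩ := prim_ht x hx
  have h1 := congrFun h i0
  rw [Pi.neg_apply] at h1
  have h2 : x i0 = 0 := by omega
  have h3 := hi0.2.1
  rw [h2, abs_zero] at h3
  have := hi0.2.2.1
  omega

/-- inclusion and exclusion -/
theorem incl_excl (E : Set (MvPolynomial (Fin (n + 1)) ℚ))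
    (hE : ∀ P ∈ E, ∃ e, P.IsHomogeneous e) {s : ℕ} (d : Fin s → ℕ) (H R : ℕ) :
    2 * (One E d H R).card ≤ ∑ x ∈ PT E R, AX d H x ∧
    ∑ x ∈ PT E R, AX d H x ≤ 2 * (One E d H R).card + ∑ p ∈ PP E R, BX d H p.1 p.2 := by
  classical
  -- the number of the zeros
  set z : (Fin s → MvPolynomial (Fin (n + 1)) ℤ) → Finset (Fin (n + 1) → ℤ) :=
    fun F => (PT E R).filter (fun x => ∀ i, eval x (F i) = 0) with hz
  set pz : (Fin s → MvPolynomial (Fin (n + 1)) ℤ) →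
      Finset ((Fin (n + 1) → ℤ) × (Fin (n + 1) → ℤ)) :=
    fun F => (PP E R).filter (fun p => (∀ i, eval p.1 (F i) = 0) ∧ ∀ i, eval p.2 (F i) = 0) with hpz
  have e1 : ∑ x ∈ PT E R, AX d H x = ∑ F ∈ Sy n d H, (z F).card := by
    have h1 : ∀ x ∈ PT E R, AX d H x = ∑ F ∈ Sy n d H, if ∀ i, eval x (F i) = 0 then 1 else 0 := by
      intro x _
      rw [← card_SyZ, Finset.sum_boole, Nat.cast_id]
      unfold SyZ
      rfl
    rw [Finset.sum_congr rfl h1, Finset.sum_comm]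
    refine Finset.sum_congr rfl fun F _ => ?_
    rw [Finset.sum_boole, Nat.cast_id]
  have e2 : ∑ p ∈ PP E R, BX d H p.1 p.2 = ∑ F ∈ Sy n d H, (pz F).card := by
    have h1 : ∀ p ∈ PP E R, BX d H p.1 p.2 = ∑ F ∈ Sy n d H,
        if (∀ i, eval p.1 (F i) = 0) ∧ ∀ i, eval p.2 (F i) = 0 then 1 else 0 := by
      intro p _
      rw [Finset.sum_boole, Nat.cast_id]
      unfold BX
      rfl
    rw [Finset.sum_congr rfl h1, Finset.sum_comm]
    refine Finset.sum_congr rfl fun F _ => ?_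
    rw [Finset.sum_boole, Nat.cast_id]
  have e3 : (One E d H R).card = ∑ F ∈ Sy n d H, if F ∈ One E d H R then 1 else 0 := by
    rw [Finset.sum_boole, Nat.cast_id]
    congr 1
    ext F
    rw [Finset.mem_filter]
    constructor
    · intro h
      exact ⟨(mem_One.1 h).1, h⟩
    · exact fun h => h.2
  rw [e1, e2, e3, Finset.mul_sum, ← Finset.sum_add_distrib]
  constructor
  · refine Finset.sum_le_sum fun F hF => ?_
    split_ifs with h
    · obtain ⟨_, x, hx, h0⟩ := mem_One.1 h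
      have h1 : x ∈ z F := Finset.mem_filter.2 ⟨hx, h0⟩
      have h2 : -x ∈ z F := by
        refine Finset.mem_filter.2 ⟨neg_mem_PT hE hx, fun i => ?_⟩
        have hFi : F i ∈ Forms n (d i) H := (mem_FF _).1 (Fintype.mem_piFinset.1 hF i)
        have h3 := eval_scale hFi (-1) (-x) x (fun j => by simp)
        rw [h3, h0 i, mul_zero]
      have h3 : ({x, -x} : Finset (Fin (n + 1) → ℤ)) ⊆ z F := by
        intro y hy
        rw [Finset.mem_insert, Finset.mem_singleton] at hy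
        rcases hy with rfl | rfl
        · exact h1
        · exact h2
      have h4 := Finset.card_le_card h3
      rw [Finset.card_pair (ne_neg_of_prim x (mem_PT.1 hx).1)] at h4
      omega
    · omega
  · refine Finset.sum_le_sum fun F hF => ?_
    by_cases h : F ∈ One E d H R
    · rw [if_pos h]
      obtain ⟨_, x, hx, h0⟩ := mem_One.1 h
      have h1 : z F ⊆ ({x, -x} : Finset (Fin (n + 1) → ℤ)) ∪ (pz F).image Prod.snd := by
        intro y hy
        obtain ⟨hy1, hy2⟩ := Finset.mem_filter.1 hy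
        rw [Finset.mem_union, Finset.mem_insert, Finset.mem_singleton, Finset.mem_image]
        by_cases h2 : y = x
        · exact Or.inl (Or.inl h2)
        by_cases h3 : y = -x
        · exact Or.inl (Or.inr h3)
        right
        exact ⟨(x, y), Finset.mem_filter.2 ⟨mem_PP.2 ⟨hx, hy1, h2, h3⟩, h0, hy2⟩, rfl⟩
      have h2 := (Finset.card_le_card h1).trans (Finset.card_union_le _ _)
      have h3 : ({x, -x} : Finset (Fin (n + 1) → ℤ)).card ≤ 2 := Finset.card_le_two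
      have h4 : ((pz F).image Prod.snd).card ≤ (pz F).card := Finset.card_image_le
      omega
    · rw [if_neg h]
      have h1 : z F = ∅ := by
        rw [Finset.eq_empty_iff_forall_notMem]
        intro x hx
        obtain ⟨hx1, hx2⟩ := Finset.mem_filter.1 hx
        exact h (mem_One.2 ⟨hF, x, hx1, hx2⟩)
      rw [h1, Finset.card_empty]
      omega

/-- the pairs of points of small height -/
theorem pairs_le (E : Set (MvPolynomial (Fin (n + 1)) ℚ)) {s : ℕ} (d : Fin s → ℕ)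
    (hd : ∀ i, 1 ≤ d i) : ∃ C : ℝ, 0 < C ∧ ∀ H R : ℕ, 1 ≤ H → 1 ≤ R →
      ((∑ p ∈ PP E R, BX d H p.1 p.2 : ℕ) : ℝ) ≤
        C * ((Sy n d H).card : ℝ) * (R : ℝ) ^ (2 * (n + 1) + 2 * s) / (H : ℝ) ^ (2 * s) := by
  classical
  refine ⟨9 ^ (n + 1) * ∏ i, (2 ^ (Mo n (d i)).card * 16 : ℝ), by positivity,
    fun H R hH hR => ?_⟩
  have hHr : (0 : ℝ) < H := by exact_mod_cast hH
  have hRr : (1 : ℝ) ≤ R := by exact_mod_cast hR
  have h1 : ∀ p ∈ PP E R, (BX d H p.1 p.2 : ℝ) ≤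
      (∏ i, (2 ^ (Mo n (d i)).card * 16 : ℝ)) * (((R : ℝ) / H) ^ 2) ^ s *
        ((Sy n d H).card : ℝ) := by
    intro p hp
    obtain ⟨hx, hy, h1, h2⟩ := mem_PP.1 hp
    rw [mem_PT] at hx hy
    obtain ⟨i, j, hij⟩ := indep_of_prim p.1 p.2 hx.1 hy.1 h1 h2
    have h3 : BX d H p.1 p.2 = ∏ l, ((FF n (d l) H).filter
        (fun F => eval p.1 F = 0 ∧ eval p.2 F = 0)).card := by
      have h4 : (Sy n d H).filter (fun F => (∀ i, eval p.1 (F i) = 0) ∧ ∀ i, eval p.2 (F i) = 0) =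
          Fintype.piFinset (fun l => (FF n (d l) H).filter
            (fun F => eval p.1 F = 0 ∧ eval p.2 F = 0)) := by
        ext F
        unfold Sy
        simp only [Finset.mem_filter, Fintype.mem_piFinset]
        constructor
        · rintro ⟨h5, h6, h7⟩ l
          exact ⟨h5 l, h6 l, h7 l⟩
        · intro h5
          exact ⟨fun l => (h5 l).1, fun l => (h5 l).2.1, fun l => (h5 l).2.2⟩
      unfold BX
      rw [← Fintype.card_piFinset, ← h4]
    rw [h3, Nat.cast_prod, card_Sy, Nat.cast_prod]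
    refine (Finset.prod_le_prod (fun _ _ => Nat.cast_nonneg _) (fun l _ =>
      pair_count (d l) H R (hd l) hH hR p.1 p.2 (ht_le.1 hx.2.2) (ht_le.1 hy.2.2) i j hij)).trans
      (le_of_eq ?_)
    rw [Finset.prod_mul_distrib, Finset.prod_mul_distrib, Finset.prod_const, Finset.card_univ,
      Fintype.card_fin]
  have h2 : ((PP E R).card : ℝ) ≤ 9 ^ (n + 1) * (R : ℝ) ^ (2 * (n + 1)) := by
    have h3 : (PT E R).card ≤ (3 * R) ^ (n + 1) := by
      have h4 : PT E R ⊆ Fintype.piFinset (fun _ : Fin (n + 1) => Finset.Icc (-(R : ℤ)) R) := by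
        intro x hx
        rw [mem_PT, ht_le] at hx
        rw [Fintype.mem_piFinset]
        intro j
        rw [Finset.mem_Icc, ← abs_le]
        exact hx.2.2 j
      have h5 := Finset.card_le_card h4
      rw [Fintype.card_piFinset, Finset.prod_const, Finset.card_univ, Fintype.card_fin,
        Int.card_Icc] at h5
      refine h5.trans (Nat.pow_le_pow_left ?_ _)
      omega
    have h4 : (PP E R).card ≤ (3 * R) ^ (n + 1) * (3 * R) ^ (n + 1) := by
      have h5 : PP E R ⊆ PT E R ×ˢ PT E R := by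
        intro p hp
        rw [mem_PP] at hp
        exact Finset.mem_product.2 ⟨hp.1, hp.2.1⟩
      refine (Finset.card_le_card h5).trans ?_
      rw [Finset.card_product]
      exact Nat.mul_le_mul h3 h3
    have h5 : ((PP E R).card : ℝ) ≤ (((3 * R) ^ (n + 1) * (3 * R) ^ (n + 1) : ℕ) : ℝ) :=
      Nat.cast_le.2 h4
    refine h5.trans (le_of_eq ?_)
    push_cast
    rw [mul_pow, two_mul, pow_add]
    have : (9 : ℝ) ^ (n + 1) = 3 ^ (n + 1) * 3 ^ (n + 1) := by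
      rw [← mul_pow]
      norm_num
    rw [this]
    ring
  rw [Nat.cast_sum]
  refine (Finset.sum_le_sum h1).trans ?_
  rw [Finset.sum_const, nsmul_eq_mul]
  set Q : ℝ := ∏ i, (2 ^ (Mo n (d i)).card * 16 : ℝ) with hQ
  have hQ0 : 0 ≤ Q := Finset.prod_nonneg fun i _ => by positivity
  have h3 : 0 ≤ Q * (((R : ℝ) / H) ^ 2) ^ s * ((Sy n d H).card : ℝ) :=
    mul_nonneg (mul_nonneg hQ0 (by positivity)) (Nat.cast_nonneg _)
  refine (mul_le_mul_of_nonneg_right h2 h3).trans (le_of_eq ?_)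
  rw [← pow_mul, div_pow, pow_add (R : ℝ) (2 * (n + 1)) (2 * s)]
  ring

end Pool.Agent.Helper17.RV
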