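import Pool.Agent.Helper17.RV.Hom

set_option autoImplicit false

/-! # Random complete intersections in an arbitrary projective variety -/

namespace Pool.Agent.Helper17.RV

open MvPolynomial Finset Pool.Agent.R870.RC

variable {n : ℕ}

theorem cst_pos (n d : ℕ) : (0 : ℝ) < (cst n d : ℝ) := by
  refine Nat.cast_pos.2 ?_
  unfold cst
  exact pow_pos (by omega) _

theorem fin_sec (E : Set (MvPolynomial (Fin (n + 1)) ℚ)) {s : ℕ} (d : Fin s → ℕ) (H B : ℕ) :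
    (SecPoint E d H B).Finite := (fin_systems d H).subset fun _ hF => hF.1

/-- the forms vanishing at a point -/
noncomputable def Z0 {s : ℕ} (d : Fin s → ℕ) (H : ℕ) (x : Fin (n + 1) → ℤ) (i : Fin s) :
    Finset (MvPolynomial (Fin (n + 1)) ℤ) := by
  classical
  exact (FF n (d i) H).filter (fun F => eval x F = 0)

theorem mem_Z0 {s : ℕ} {d : Fin s → ℕ} {H : ℕ} {x : Fin (n + 1) → ℤ} {i : Fin s}
    {F : MvPolynomial (Fin (n + 1)) ℤ} : F ∈ Z0 d H x i ↔ F ∈ FF n (d i) H ∧ eval x F = 0 := by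
  classical
  unfold Z0
  exact Finset.mem_filter

theorem sec_upper (E : Set (MvPolynomial (Fin (n + 1)) ℚ))
    (hE : ∀ P ∈ E, ∃ e, P.IsHomogeneous e) (A θ : ℝ) (hA0 : 0 ≤ A)
    (hcount : ∀ T : ℕ, 1 ≤ T → ∀ S : Finset (Fin (n + 1) → ℤ),
      (∀ x ∈ S, (∀ i, |x i| ≤ T) ∧ InVar E x) → (S.card : ℝ) ≤ A * (T : ℝ) ^ θ)
    {s : ℕ} (d : Fin s → ℕ) (hθ : θ < ((∑ i, d i : ℕ) : ℝ)) :
    ∃ C : ℝ, 0 < C ∧ ∀ H B : ℕ, 1 ≤ H → 1 ≤ B →
      ((SecPoint E d H B).ncard : ℝ) ≤ C / (H : ℝ) ^ s *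
        (1 + (B : ℝ) ^ θ / (H : ℝ) ^ (∑ i, d i)) * ((Systems n d H).ncard : ℝ) := by
  classical
  obtain ⟨C, hC0, hC⟩ := card_badV (InVar E) A θ hA0 hcount (∑ i, d i) 0 (by simpa using hθ)
  have hcst : ∀ i, (0 : ℝ) < cst n (d i) := fun i => cst_pos n (d i)
  refine ⟨C * ∏ i, (cst n (d i) : ℝ), mul_pos hC0 (Finset.prod_pos fun i _ => hcst i),
    fun H B hH hB => ?_⟩
  have hHr : (1 : ℝ) ≤ H := by exact_mod_cast hH
  have h1 : SecPoint E d H B ⊆ ((badV (InVar E) (Z0 d H) B : Finset _) : Set _) := by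
    rintro F ⟨hF, x, hx, hxB, hxV, h0⟩
    obtain ⟨g, y, i0, b, hg, hxy, hy, hb⟩ := exists_prim x hx B hxB
    unfold badV
    simp only [Finset.mem_coe, Finset.mem_biUnion, Finset.mem_univ, true_and, Finset.mem_Icc,
      Fintype.mem_piFinset]
    refine ⟨i0, b, ⟨hy.2.2.1, hb⟩, y, mem_Xb.2 ⟨mem_Bx hy, hy, inVar_scale E hE g hg x y hxy hxV⟩,
      fun i => mem_Z0.2 ⟨(mem_FF _).2 (hF i), ?_⟩⟩
    have h2 := eval_scale (hF i) g x y hxy
    rw [h0 i] at h2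
    exact (mul_eq_zero.1 h2.symm).resolve_left (pow_ne_zero _ hg)
  have h2 := Set.ncard_le_ncard h1 (Finset.finite_toSet _)
  rw [Set.ncard_coe_finset] at h2
  have h3 := hC H B hH hB s (Z0 d H)
    ((∏ i, (cst n (d i) : ℝ)) * (∏ i, ((FF n (d i) H).card : ℝ)) / (H : ℝ) ^ s)
    (div_nonneg (mul_nonneg (Finset.prod_nonneg fun i _ => Nat.cast_nonneg _)
      (Finset.prod_nonneg fun i _ => Nat.cast_nonneg _)) (pow_nonneg (Nat.cast_nonneg _) _)) (by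
      intro x i0 b hx
      have hb : 1 ≤ min b H := le_min hx.2.2.1 hH
      refine (Finset.prod_le_prod (fun i _ => Nat.cast_nonneg _)
        (fun i _ => count_real (d i) H hH x i0 b hx 0)).trans (le_of_eq ?_)
      rw [Finset.prod_div_distrib, Finset.prod_mul_distrib, Finset.prod_mul_distrib,
        Finset.prod_const, Finset.card_univ, Fintype.card_fin, Finset.prod_pow_eq_pow_sum,
        pow_zero, mul_one_div, div_div])
  have h4 : ((SecPoint E d H B).ncard : ℝ) ≤ ((badV (InVar E) (Z0 d H) B).card : ℝ) :=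
    Nat.cast_le.2 h2
  refine h4.trans (h3.trans (le_of_eq ?_))
  rw [card_systems, Nat.cast_prod]
  simp only [Nat.cast_zero, add_zero]
  ring

theorem sec_lower (E : Set (MvPolynomial (Fin (n + 1)) ℚ))
    (hE : ∀ P ∈ E, ∃ e, P.IsHomogeneous e) {s : ℕ} (d : Fin s → ℕ) (B₀ : ℕ)
    (hpt : ∃ x : Fin (n + 1) → ℤ, x ≠ 0 ∧ (∀ j, |x j| ≤ B₀) ∧ InVar E x) :
    ∃ c : ℝ, 0 < c ∧ ∀ H B : ℕ, 1 ≤ H → B₀ ≤ B →
      c / (H : ℝ) ^ s * ((Systems n d H).ncard : ℝ) ≤ ((SecPoint E d H B).ncard : ℝ) := by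
  classical
  obtain ⟨x, hx, hxB, hxV⟩ := hpt
  obtain ⟨g, y, i0, b, hg, hxy, hy, hb⟩ := exists_prim x hx B₀ hxB
  have hyV := inVar_scale E hE g hg x y hxy hxV
  have hlow := fun i => low_gen (d i) y hy.1
  choose c K hc hK hcK using hlow
  refine ⟨∏ i, c i, Finset.prod_pos fun i _ => hc i, fun H B hH hB => ?_⟩
  have hHr : (0 : ℝ) < H := by exact_mod_cast hH
  have h1 : ((Fintype.piFinset (Z0 d H y) : Finset _) : Set _) ⊆ SecPoint E d H B := by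
    intro F hF
    rw [Finset.mem_coe, Fintype.mem_piFinset] at hF
    refine ⟨fun i => (mem_FF _).1 (mem_Z0.1 (hF i)).1, y, ?_, ?_, hyV,
      fun i => (mem_Z0.1 (hF i)).2⟩
    · intro h
      have h2 := hy.2.1
      rw [h] at h2
      simp only [Pi.zero_apply, abs_zero] at h2
      have := hy.2.2.1
      omega
    · intro j
      refine (hy.2.2.2 j).trans ?_
      exact_mod_cast hb.trans hB
  have h2 := Set.ncard_le_ncard h1 (fin_sec E d H B)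
  rw [Set.ncard_coe_finset, Fintype.card_piFinset] at h2
  have h3 : (((∏ i, (Z0 d H y i).card : ℕ)) : ℝ) ≤ ((SecPoint E d H B).ncard : ℝ) :=
    Nat.cast_le.2 h2
  refine le_trans ?_ h3
  rw [card_systems, Nat.cast_prod, Nat.cast_prod]
  have h4 : (∏ i, c i) / (H : ℝ) ^ s * ∏ i, ((FF n (d i) H).card : ℝ) =
      ∏ i, (c i * ((FF n (d i) H).card : ℝ) / H) := by
    rw [Finset.prod_div_distrib, Finset.prod_mul_distrib, Finset.prod_const, Finset.card_univ,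
      Fintype.card_fin]
    ring
  rw [h4]
  refine Finset.prod_le_prod (fun i _ => ?_) (fun i _ => ?_)
  · exact div_nonneg (mul_nonneg (hc i).le (Nat.cast_nonneg _)) hHr.le
  · have h5 := hcK i H hH {0} (by
      intro t ht
      rw [Finset.mem_singleton] at ht
      subst ht
      simp)
    rw [Finset.card_singleton, Nat.cast_one, mul_one] at h5
    refine h5.trans (Nat.cast_le.2 (Finset.card_le_card ?_))
    intro F hF
    rw [Finset.mem_filter, Finset.mem_singleton] at hF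
    exact mem_Z0.2 hF

/-- **Random complete intersections in an arbitrary projective variety.** -/
theorem sections (n m s : ℕ) (E : Set (MvPolynomial (Fin (n + 1)) ℚ))
    (hE : ∀ P ∈ E, ∃ e, P.IsHomogeneous e) (hprime : (Ideal.span E).IsPrime)
    (hdim : Algebra.trdeg ℚ (MvPolynomial (Fin (n + 1)) ℚ ⧸ Ideal.span E) = m + 1)
    (d : Fin s → ℕ) :
    (m + 2 ≤ ∑ i, d i → ∃ C : ℝ, 0 < C ∧ ∀ H B : ℕ, 1 ≤ H → 1 ≤ B →
      ((SecPoint E d H B).ncard : ℝ) ≤ C / (H : ℝ) ^ s *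
        (1 + (B : ℝ) ^ (m + 1) / (H : ℝ) ^ (∑ i, d i)) * ((Systems n d H).ncard : ℝ)) ∧
    (m + 1 ≤ ∑ i, d i → ¬ IsLin E → ∃ C : ℝ, 0 < C ∧ ∀ H B : ℕ, 1 ≤ H → 1 ≤ B →
      ((SecPoint E d H B).ncard : ℝ) ≤ C / (H : ℝ) ^ s *
        (1 + (B : ℝ) ^ ((m : ℝ) + 1 - 1 / ((m : ℝ) + 3)) / (H : ℝ) ^ (∑ i, d i)) *
          ((Systems n d H).ncard : ℝ)) ∧
    (∀ B₀ : ℕ, (∃ x : Fin (n + 1) → ℤ, x ≠ 0 ∧ (∀ j, |x j| ≤ B₀) ∧ InVar E x) →
      ∃ c : ℝ, 0 < c ∧ ∀ H B : ℕ, 1 ≤ H → B₀ ≤ B →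
        c / (H : ℝ) ^ s * ((Systems n d H).ncard : ℝ) ≤ ((SecPoint E d H B).ncard : ℝ)) := by
  refine ⟨fun hd => ?_, fun hd hlin => ?_, fun B₀ hpt => sec_lower E hE d B₀ hpt⟩
  · obtain ⟨A, hA0, hA⟩ := count1 E hdim
    obtain ⟨C, hC0, hC⟩ := sec_upper E hE A ((m : ℝ) + 1) hA0 hA d (by
      have h1 : ((m + 2 : ℕ) : ℝ) ≤ ((∑ i, d i : ℕ) : ℝ) := Nat.cast_le.2 hd
      push_cast at h1 ⊢
      linarith)
    refine ⟨C, hC0, fun H B hH hB => ?_⟩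
    have h1 := hC H B hH hB
    have h2 : (B : ℝ) ^ ((m : ℝ) + 1) = (B : ℝ) ^ (m + 1) := by
      have h3 : ((m : ℝ) + 1) = ((m + 1 : ℕ) : ℝ) := by push_cast; rfl
      rw [h3, Real.rpow_natCast]
    rwa [h2] at h1
  · obtain ⟨A, hA0, hA⟩ := count2 E hE hprime hdim hlin
    exact sec_upper E hE A _ hA0 hA d (by
      have h1 : ((m + 1 : ℕ) : ℝ) ≤ ((∑ i, d i : ℕ) : ℝ) := Nat.cast_le.2 hd
      have h2 : (0 : ℝ) < 1 / ((m : ℝ) + 3) := by positivity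
      push_cast at h1 ⊢
      linarith)

end Pool.Agent.Helper17.RV
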