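import Pool.Agent.Helper17.RV.Det

set_option autoImplicit false

/-! # Slices of polynomials, the Schwartz-Zippel bound, hyperplane sections -/

namespace Pool.Agent.Helper17.RV

open MvPolynomial Finset

/-- the polynomial `G (X, t)` in one variable -/
noncomputable def slice {R : Type} [CommRing R] {k : ℕ} (G : MvPolynomial (Fin (k + 1)) R)
    (t : Fin k → R) : Polynomial R :=
  aeval (Fin.cons Polynomial.X (fun j => Polynomial.C (t j)) : Fin (k + 1) → Polynomial R) G

theorem slice_eval {R : Type} [CommRing R] {k : ℕ} (G : MvPolynomial (Fin (k + 1)) R)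
    (t : Fin k → R) (z : R) :
    (slice G t).eval z = eval (Fin.cons z t : Fin (k + 1) → R) G := by
  unfold slice
  have h : ((Polynomial.aeval z).comp (aeval (Fin.cons Polynomial.X
      (fun j => Polynomial.C (t j)) : Fin (k + 1) → Polynomial R)) :
      MvPolynomial (Fin (k + 1)) R →ₐ[R] R) = aeval (Fin.cons z t : Fin (k + 1) → R) := by
    apply MvPolynomial.algHom_ext
    intro i
    refine Fin.cases ?_ (fun j => ?_) i
    · simp
    · simp
  have h2 := DFunLike.congr_fun h G
  rw [AlgHom.comp_apply, Polynomial.coe_aeval_eq_eval] at h2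
  rw [h2]
  rfl

theorem slice_deriv {R : Type} [CommRing R] {k : ℕ} (G : MvPolynomial (Fin (k + 1)) R)
    (t : Fin k → R) : Polynomial.derivative (slice G t) = slice (pderiv 0 G) t := by
  classical
  induction G using MvPolynomial.induction_on with
  | C a =>
    unfold slice
    simp [Polynomial.algebraMap_eq]
  | add f g hf hg =>
    unfold slice at *
    simp only [map_add, hf, hg]
  | mul_X f j hf =>
    unfold slice at *
    rw [map_mul, Polynomial.derivative_mul, hf, Derivation.leibniz, pderiv_X, aeval_X]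
    refine Fin.cases ?_ (fun j => ?_) j
    · simp
      ring
    · rw [Pi.single_eq_of_ne (Fin.succ_ne_zero j)]
      simp
      ring

theorem slice_natDegree {R : Type} [CommRing R] {k : ℕ} (G : MvPolynomial (Fin (k + 1)) R)
    (t : Fin k → R) : (slice G t).natDegree ≤ G.totalDegree := by
  unfold slice
  rw [aeval_def, eval₂_eq']
  refine Polynomial.natDegree_sum_le_of_forall_le _ _ fun m hm => ?_
  refine (Polynomial.natDegree_mul_le).trans ?_
  have h1 : ((algebraMap R (Polynomial R)) (coeff m G)).natDegree = 0 :=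
    Polynomial.natDegree_C _
  rw [h1, zero_add]
  refine (Polynomial.natDegree_prod_le _ _).trans ?_
  have h2 : ∀ i ∈ (Finset.univ : Finset (Fin (k + 1))),
      ((Fin.cons Polynomial.X (fun j => Polynomial.C (t j)) : Fin (k + 1) → Polynomial R) i ^
        m i).natDegree ≤ m i := by
    intro i _
    refine (Polynomial.natDegree_pow_le).trans ?_
    have h3 : ((Fin.cons Polynomial.X (fun j => Polynomial.C (t j)) :
        Fin (k + 1) → Polynomial R) i).natDegree ≤ 1 := by
      refine Fin.cases ?_ (fun j => ?_) i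
      · rw [Fin.cons_zero]
        exact Polynomial.natDegree_X_le
      · rw [Fin.cons_succ, Polynomial.natDegree_C]
        exact Nat.zero_le _
    calc m i * _ ≤ m i * 1 := Nat.mul_le_mul_left _ h3
      _ = m i := mul_one _
  refine (Finset.sum_le_sum h2).trans ?_
  have h4 := le_totalDegree hm
  rwa [Finsupp.sum_fintype _ _ (fun _ => rfl)] at h4

/-- the Schwartz-Zippel bound -/
theorem sz {k : ℕ} (R : MvPolynomial (Fin k) ℚ) (hR : R ≠ 0) (D M : ℕ) (hD : R.totalDegree ≤ D)
    (S : Fin k → Finset ℚ) (hS : ∀ i, (S i).card ≤ M) :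
    ((Fintype.piFinset S).filter (fun x => eval x R = 0)).card ≤ k * D * M ^ (k - 1) := by
  classical
  by_cases hne : ∀ i, 0 < (S i).card
  · have h1 := schwartz_zippel_sum_degreeOf hR S
    have hpos : (0 : ℚ≥0) < ∏ i, ((S i).card : ℚ≥0) := by
      refine Finset.prod_pos fun i _ => ?_
      exact_mod_cast hne i
    rw [div_le_iff₀ hpos] at h1
    have h2 : (∑ i, ((degreeOf i R : ℕ) : ℚ≥0) / ((S i).card : ℚ≥0)) * ∏ i, ((S i).card : ℚ≥0) ≤
        ((k * D * M ^ (k - 1) : ℕ) : ℚ≥0) := by
      rw [Finset.sum_mul]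
      have h3 : ∀ i ∈ (Finset.univ : Finset (Fin k)),
          ((degreeOf i R : ℕ) : ℚ≥0) / ((S i).card : ℚ≥0) * ∏ i, ((S i).card : ℚ≥0) ≤
            ((D * M ^ (k - 1) : ℕ) : ℚ≥0) := by
        intro i _
        rw [← Finset.mul_prod_erase _ _ (Finset.mem_univ i), ← mul_assoc]
        have h4 : ((S i).card : ℚ≥0) ≠ 0 := by
          have := hne i
          exact_mod_cast this.ne'
        rw [div_mul_cancel₀ _ h4]
        have h5 : degreeOf i R ≤ D := (degreeOf_le_totalDegree R i).trans hD
        have h6 : ∏ j ∈ (Finset.univ : Finset (Fin k)).erase i, (S j).card ≤ M ^ (k - 1) := by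
          refine (Finset.prod_le_pow_card _ _ M fun j _ => hS j).trans ?_
          rw [Finset.card_erase_of_mem (Finset.mem_univ i), Finset.card_univ, Fintype.card_fin]
        have h7 := Nat.mul_le_mul h5 h6
        exact_mod_cast h7
      refine (Finset.sum_le_sum h3).trans ?_
      rw [Finset.sum_const, Finset.card_univ, Fintype.card_fin, nsmul_eq_mul]
      push_cast
      rw [mul_assoc]
    have h8 := h1.trans h2
    exact_mod_cast h8
  · push Not at hne
    obtain ⟨i, hi⟩ := hne
    have h1 : Fintype.piFinset S = ∅ := by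
      rw [Fintype.piFinset_eq_empty]
      exact ⟨i, Finset.card_eq_zero.1 (Nat.le_zero.1 hi)⟩
    rw [h1, Finset.filter_empty, Finset.card_empty]
    exact Nat.zero_le _

/-- the restriction of `G` to the hyperplane `x i0 = a0 + ∑ j, a j * x (i0.succAbove j)` -/
noncomputable def restr {k : ℕ} (G : MvPolynomial (Fin (k + 1)) ℚ) (i0 : Fin (k + 1))
    (a : Fin k → ℚ) (a0 : ℚ) : MvPolynomial (Fin k) ℚ :=
  aeval (i0.insertNth (C a0 + ∑ j, C (a j) * X j) (fun j => X j) :
    Fin (k + 1) → MvPolynomial (Fin k) ℚ) G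

theorem restr_eval {k : ℕ} (G : MvPolynomial (Fin (k + 1)) ℚ) (i0 : Fin (k + 1))
    (a : Fin k → ℚ) (a0 : ℚ) (x : Fin (k + 1) → ℚ)
    (hx : x i0 = a0 + ∑ j, a j * x (i0.succAbove j)) :
    eval (fun j => x (i0.succAbove j)) (restr G i0 a a0) = eval x G := by
  unfold restr
  have h : ((aeval (fun j => x (i0.succAbove j)) : MvPolynomial (Fin k) ℚ →ₐ[ℚ] ℚ).comp
      (aeval (i0.insertNth (C a0 + ∑ j, C (a j) * X j) (fun j => X j) :
        Fin (k + 1) → MvPolynomial (Fin k) ℚ)) :
      MvPolynomial (Fin (k + 1)) ℚ →ₐ[ℚ] ℚ) = aeval x := by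
    apply MvPolynomial.algHom_ext
    intro i
    rw [AlgHom.comp_apply, aeval_X, aeval_X]
    refine Fin.succAboveCases i0 ?_ (fun j => ?_) i
    · rw [Fin.insertNth_apply_same, map_add, map_sum, hx]
      simp
    · rw [Fin.insertNth_apply_succAbove, aeval_X]
  exact DFunLike.congr_fun h G

theorem restr_totalDegree {k : ℕ} (G : MvPolynomial (Fin (k + 1)) ℚ) (i0 : Fin (k + 1))
    (a : Fin k → ℚ) (a0 : ℚ) : (restr G i0 a a0).totalDegree ≤ G.totalDegree := by
  unfold restr
  rw [aeval_def, eval₂_eq']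
  refine (totalDegree_finsetSum _ _).trans (Finset.sup_le fun m hm => ?_)
  refine (totalDegree_mul _ _).trans ?_
  have h1 : ((algebraMap ℚ (MvPolynomial (Fin k) ℚ)) (coeff m G)).totalDegree = 0 :=
    totalDegree_C _
  rw [h1, zero_add]
  refine (totalDegree_finsetProd _ _).trans ?_
  have h2 : ∀ i ∈ (Finset.univ : Finset (Fin (k + 1))),
      ((i0.insertNth (C a0 + ∑ j, C (a j) * X j) (fun j => X j) :
        Fin (k + 1) → MvPolynomial (Fin k) ℚ) i ^ m i).totalDegree ≤ m i := by
    intro i _
    refine (totalDegree_pow _ _).trans ?_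
    have h3 : ((i0.insertNth (C a0 + ∑ j, C (a j) * X j) (fun j => X j) :
        Fin (k + 1) → MvPolynomial (Fin k) ℚ) i).totalDegree ≤ 1 := by
      refine Fin.succAboveCases i0 ?_ (fun j => ?_) i
      · rw [Fin.insertNth_apply_same]
        refine (totalDegree_add _ _).trans (max_le ?_ ?_)
        · rw [totalDegree_C]
          exact Nat.zero_le _
        · refine (totalDegree_finsetSum _ _).trans (Finset.sup_le fun j _ => ?_)
          refine (totalDegree_mul _ _).trans ?_
          rw [totalDegree_C, totalDegree_X]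
      · rw [Fin.insertNth_apply_succAbove, totalDegree_X]
    calc m i * _ ≤ m i * 1 := Nat.mul_le_mul_left _ h3
      _ = m i := mul_one _
  refine (Finset.sum_le_sum h2).trans ?_
  have h4 := le_totalDegree hm
  rwa [Finsupp.sum_fintype _ _ (fun _ => rfl)] at h4

/-- the integers of absolute value at most `T` in a residue class -/
theorem card_cls (p T : ℕ) (hp : 1 ≤ p) (c : ℤ) (A : Finset ℤ) (hA : ∀ t ∈ A, |t| ≤ T)
    (hc : ∀ t ∈ A, (p : ℤ) ∣ t - c) : A.card ≤ 2 * T / p + 1 := by
  rcases A.eq_empty_or_nonempty with h | h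
  · subst h
    simp
  · obtain ⟨t0, ht0, hmin⟩ := Finset.exists_min_image A id h
    have hpz : (0 : ℤ) < p := by exact_mod_cast hp
    have h1 : A.card ≤ (Finset.range (2 * T / p + 1)).card := by
      refine Finset.card_le_card_of_injOn (fun t => ((t - t0) / p).toNat) ?_ ?_
      · intro t ht
        rw [Finset.mem_coe, Finset.mem_range]
        have h2 := hmin t ht
        have h3 := hA t ht
        have h4 := hA t0 ht0
        rw [abs_le] at h3 h4
        have h2' : t0 ≤ t := h2
        have h5 : (t - t0) / p ≤ (2 * T : ℤ) / p :=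
          Int.ediv_le_ediv hpz (by linarith)
        have h6 : 0 ≤ (t - t0) / (p : ℤ) := Int.ediv_nonneg (by linarith) hpz.le
        have h7 : ((2 * T / p : ℕ) : ℤ) = (2 * T : ℤ) / p := by push_cast; rfl
        show ((t - t0) / (p : ℤ)).toNat < 2 * T / p + 1
        omega
      · intro t ht t' ht' heq
        have h2 := hmin t ht
        have h2' := hmin t' ht'
        have hd : (p : ℤ) ∣ t - t0 := by
          have := dvd_sub (hc t ht) (hc t0 ht0)
          rwa [sub_sub_sub_cancel_right] at this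
        have hd' : (p : ℤ) ∣ t' - t0 := by
          have := dvd_sub (hc t' ht') (hc t0 ht0)
          rwa [sub_sub_sub_cancel_right] at this
        have h6 : 0 ≤ (t - t0) / (p : ℤ) :=
          Int.ediv_nonneg (by have : t0 ≤ t := h2; linarith) hpz.le
        have h6' : 0 ≤ (t' - t0) / (p : ℤ) :=
          Int.ediv_nonneg (by have : t0 ≤ t' := h2'; linarith) hpz.le
        have heq' : ((t - t0) / (p : ℤ)).toNat = ((t' - t0) / (p : ℤ)).toNat := heq
        have h8 : (t - t0) / (p : ℤ) = (t' - t0) / (p : ℤ) := by omega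
        have h9 := Int.ediv_mul_cancel hd
        have h9' := Int.ediv_mul_cancel hd'
        rw [h8] at h9
        linarith
    rwa [Finset.card_range] at h1

/-- integral points on a hyperplane section in a residue class -/
theorem card_section {k : ℕ} (G : MvPolynomial (Fin (k + 1)) ℤ) (D : ℕ)
    (hD : G.totalDegree ≤ D)
    (hNL : ∀ (i0 : Fin (k + 1)) (a : Fin k → ℚ) (a0 : ℚ),
      restr (map (Int.castRingHom ℚ) G) i0 a a0 ≠ 0)
    (p T : ℕ) (hp : 1 ≤ p) (P₀ : Fin (k + 1) → ℤ) (S : Finset (Fin (k + 1) → ℤ))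
    (hT : ∀ P ∈ S, ∀ i, |P i| ≤ T) (hcl : ∀ P ∈ S, ∀ i, (p : ℤ) ∣ P i - P₀ i)
    (h0 : ∀ P ∈ S, eval P G = 0) (a : Fin (k + 1) → ℚ) (ha : a ≠ 0) (a0 : ℚ)
    (hH : ∀ P ∈ S, ∑ i, a i * (P i : ℚ) = a0) :
    S.card ≤ k * D * (2 * T / p + 1) ^ (k - 1) := by
  classical
  obtain ⟨i0, hi0⟩ : ∃ i0, a i0 ≠ 0 := by
    by_contra hno
    push Not at hno
    exact ha (funext hno)
  set b : Fin k → ℚ := fun j => -(a (i0.succAbove j) / a i0) with hb
  set b0 : ℚ := a0 / a i0 with hb0
  have hx : ∀ P ∈ S, (P i0 : ℚ) = b0 + ∑ j, b j * (P (i0.succAbove j) : ℚ) := by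
    intro P hP
    have h1 := hH P hP
    rw [Fin.sum_univ_succAbove _ i0] at h1
    have h2 : ∑ j, b j * (P (i0.succAbove j) : ℚ) =
        -(∑ j, a (i0.succAbove j) * (P (i0.succAbove j) : ℚ)) / a i0 := by
      rw [← Finset.sum_neg_distrib, Finset.sum_div]
      refine Finset.sum_congr rfl fun j _ => ?_
      rw [hb]
      field_simp
    rw [h2, hb0, ← h1]
    field_simp
    ring
  set R := restr (map (Int.castRingHom ℚ) G) i0 b b0 with hR
  let A : Fin k → Finset ℤ := fun j => S.image (fun P => P (i0.succAbove j))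
  let SS : Fin k → Finset ℚ := fun j => (A j).image (fun t : ℤ => (t : ℚ))
  have hA : ∀ j, (SS j).card ≤ 2 * T / p + 1 := by
    intro j
    refine Finset.card_image_le.trans ?_
    refine card_cls p T hp (P₀ (i0.succAbove j)) (A j) ?_ ?_
    · intro t ht
      obtain ⟨P, hP, rfl⟩ := Finset.mem_image.1 ht
      exact hT P hP _
    · intro t ht
      obtain ⟨P, hP, rfl⟩ := Finset.mem_image.1 ht
      exact hcl P hP _
  have hdeg : R.totalDegree ≤ D :=
    (restr_totalDegree _ _ _ _).trans ((Finset.sup_mono (support_map_subset _ _)).trans hD)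
  refine le_trans ?_ (sz R (hNL i0 b b0) D _ hdeg SS hA)
  refine Finset.card_le_card_of_injOn (fun P j => ((P (i0.succAbove j) : ℤ) : ℚ)) ?_ ?_
  · intro P hP
    rw [Finset.mem_coe] at hP
    rw [Finset.mem_coe, Finset.mem_filter, Fintype.mem_piFinset]
    refine ⟨fun j => Finset.mem_image_of_mem _ (Finset.mem_image_of_mem _ hP), ?_⟩
    have h1 := restr_eval (map (Int.castRingHom ℚ) G) i0 b b0 (fun i => (P i : ℚ)) (hx P hP)
    rw [← hR] at h1
    rw [h1, eval_map]
    have h2 : eval₂ (Int.castRingHom ℚ) (fun i => ((P i : ℤ) : ℚ)) G = ((eval P G : ℤ) : ℚ) := by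
      have h3 := MvPolynomial.eval₂_comp_left (Int.castRingHom ℚ) (RingHom.id ℤ) P G
      simp only [RingHom.comp_id] at h3
      exact h3.symm
    rw [h2, h0 P hP, Int.cast_zero]
  · intro P hP P' hP' h
    rw [Finset.mem_coe] at hP hP'
    have h1 : ∀ j, P (i0.succAbove j) = P' (i0.succAbove j) := by
      intro j
      have h2 : ((P (i0.succAbove j) : ℤ) : ℚ) = ((P' (i0.succAbove j) : ℤ) : ℚ) := congrFun h j
      exact_mod_cast h2
    funext i
    refine Fin.succAboveCases i0 ?_ (fun j => h1 j) i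
    have h2 := hx P hP
    rw [Finset.sum_congr rfl (fun j _ => by rw [h1 j]), ← hx P' hP'] at h2
    exact_mod_cast h2

end Pool.Agent.Helper17.RV
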