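import Pool.Agent.Helper17.RV.Law

set_option autoImplicit false

/-! # Uniqueness of the rational point -/

namespace Pool.Agent.Helper17.RV

open MvPolynomial Finset Filter Topology Pool.Agent.R870.RC

variable {n : ℕ}

theorem unique (E : Set (MvPolynomial (Fin (n + 1)) ℚ)) {s : ℕ} (d : Fin s → ℕ)
    (hE : ∀ P ∈ E, ∃ e, P.IsHomogeneous e) (A θ : ℝ) (hA0 : 0 ≤ A) (hθ0 : 0 < θ)
    (hcount : ∀ T : ℕ, 1 ≤ T → ∀ S : Finset (Fin (n + 1) → ℤ),
      (∀ x ∈ S, (∀ i, |x i| ≤ T) ∧ InVar E x) → (S.card : ℝ) ≤ A * (T : ℝ) ^ θ)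
    (hd : ∀ i, 1 ≤ d i) (hθ : θ < ((∑ i, d i : ℕ) : ℝ)) (x0 : Fin (n + 1) → ℤ)
    (hx0 : ∃ a : Fin (n + 1) → ℤ, ∑ i, a i * x0 i = 1) (hx0V : InVar E x0) (η : ℝ) (hη : 0 < η) :
    ∃ C δ : ℝ, 0 < C ∧ 0 < δ ∧ ∀ H T : ℕ, 1 ≤ H → ht x0 ≤ T →
      (T : ℝ) ≤ (H : ℝ) ^ (((∑ i, d i : ℕ) : ℝ) / θ - η) →
      ((Two E d H T).card : ℝ) ≤ C * (H : ℝ) ^ (-δ) * ((One E d H T).card : ℝ) ∧
      ∀ R : ℕ, ((Far E d H T R).card : ℝ) ≤
        C * (((R : ℝ) + 1) ^ (θ - ((∑ i, d i : ℕ) : ℝ)) + (H : ℝ) ^ (-δ)) *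
          ((One E d H T).card : ℝ) := by
  classical
  obtain ⟨C, hC0, hC1, hC2, hC3⟩ := bounds E d A θ hA0 hcount hd hθ
  obtain ⟨i0, hi0⟩ := prim_ht x0 hx0
  have hx00 : x0 ≠ 0 := by
    intro h
    have h2 : x0 i0 = 0 := congrFun h i0
    have h3 := hi0.2.1
    rw [h2, abs_zero] at h3
    have := hi0.2.2.1
    omega
  obtain ⟨c1, hc1, hlow⟩ := sec_lower E hE d (ht x0) ⟨x0, hx00, ht_le.1 le_rfl, hx0V⟩
  set D : ℕ := ∑ i, d i with hD
  have hs : 1 ≤ s := by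
    by_contra h
    have h1 : s = 0 := by omega
    subst h1
    simp only [Finset.univ_eq_empty, Finset.sum_empty] at hD
    rw [hD, Nat.cast_zero] at hθ
    linarith
  set K : ℕ := 2 * (n + 1) + 2 * s with hK
  have hK1 : 1 ≤ K := by omega
  have hKr : (0 : ℝ) < K := by exact_mod_cast hK1
  set ρ : ℝ := 1 / (2 * K) with hρ
  have hρ0 : 0 < ρ := by positivity
  have hDθ : 0 < (D : ℝ) - θ := by linarith
  set δ : ℝ := min (1 / 2) (min (ρ * ((D : ℝ) - θ)) (η * θ)) with hδ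
  have hδ0 : 0 < δ := lt_min (by norm_num) (lt_min (by positivity) (by positivity))
  have hδ1 : δ ≤ 1 / 2 := min_le_left _ _
  have hδ2 : δ ≤ ρ * ((D : ℝ) - θ) := (min_le_right _ _).trans (min_le_left _ _)
  have hδ3 : δ ≤ η * θ := (min_le_right _ _).trans (min_le_right _ _)
  refine ⟨C * (2 ^ K + 2) / c1, δ, by positivity, hδ0, fun H T hH hT hTH => ?_⟩
  have hHr : (1 : ℝ) ≤ H := by exact_mod_cast hH
  have hH0 : (0 : ℝ) < H := by linarith
  have hT1 : 1 ≤ T := le_trans hi0.2.2.1 hT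
  have hS := card_Sy_pos (n := n) d H
  set W : ℝ := (H : ℝ) ^ s / ((Sy n d H).card : ℝ) with hW
  have hW0 : 0 < W := by positivity
  have hmono : ∀ t : ℝ, δ ≤ t → (H : ℝ) ^ (-t) ≤ (H : ℝ) ^ (-δ) := fun t ht =>
    Real.rpow_le_rpow_of_exponent_le hHr (by linarith)
  have hHδ : 0 < (H : ℝ) ^ (-δ) := Real.rpow_pos_of_pos hH0 _
  -- lower bound
  have hone : c1 ≤ ((One E d H T).card : ℝ) * W := by
    have h1 := hlow H T hH hT
    rw [one_eq E hE, Set.ncard_coe_finset, card_systems, ← card_Sy] at h1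
    have h2 := mul_le_mul_of_nonneg_right h1 hW0.le
    refine le_trans (le_of_eq ?_) h2
    rw [hW]
    field_simp
  -- the term with `T`
  have hTθ : (T : ℝ) ^ θ / (H : ℝ) ^ D ≤ (H : ℝ) ^ (-δ) := by
    have h5 : (T : ℝ) ^ θ ≤ ((H : ℝ) ^ ((D : ℝ) / θ - η)) ^ θ :=
      Real.rpow_le_rpow (Nat.cast_nonneg _) hTH hθ0.le
    rw [← Real.rpow_mul hH0.le] at h5
    calc (T : ℝ) ^ θ / (H : ℝ) ^ D ≤ (H : ℝ) ^ (((D : ℝ) / θ - η) * θ) / (H : ℝ) ^ D :=
          div_le_div_of_nonneg_right h5 (by positivity)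
      _ = (H : ℝ) ^ (-(η * θ)) := by
          rw [← Real.rpow_natCast, ← Real.rpow_sub hH0]
          congr 1
          field_simp
          ring
      _ ≤ _ := hmono _ hδ3
  have hfar : ∀ R : ℕ, ((Far E d H T R).card : ℝ) * W ≤
      C * (((R : ℝ) + 1) ^ (θ - (D : ℝ)) + (H : ℝ) ^ (-δ)) := by
    intro R
    have h1 := hC2 H T R hH hT1
    rw [mul_div_assoc] at h1
    refine h1.trans (mul_le_mul_of_nonneg_left ?_ hC0.le)
    linarith
  have hcancel : ∀ u v : ℝ, 0 ≤ v → u * W ≤ v → u ≤ v / c1 * ((One E d H T).card : ℝ) := by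
    intro u v hv huv
    have h1 : u * W ≤ (v / c1 * ((One E d H T).card : ℝ)) * W := by
      refine huv.trans ?_
      calc v = v / c1 * c1 := by field_simp
        _ ≤ v / c1 * (((One E d H T).card : ℝ) * W) :=
            mul_le_mul_of_nonneg_left hone (by positivity)
        _ = _ := by ring
    exact le_of_mul_le_mul_right h1 hW0
  constructor
  · set R : ℕ := ⌊(H : ℝ) ^ ρ⌋₊ + 1 with hR
    have hHρ : (1 : ℝ) ≤ (H : ℝ) ^ ρ := Real.one_le_rpow hHr hρ0.le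
    have hR1 : (H : ℝ) ^ ρ ≤ R := by
      rw [hR]
      push_cast
      exact (Nat.lt_floor_add_one _).le
    have hR2 : (R : ℝ) ≤ 2 * (H : ℝ) ^ ρ := by
      rw [hR]
      push_cast
      have := Nat.floor_le (zero_le_one.trans hHρ)
      linarith
    have h1 : ((Two E d H T).card : ℝ) ≤ ((∑ p ∈ PP E R, BX d H p.1 p.2 : ℕ) : ℝ) +
        ((Far E d H T R).card : ℝ) := by
      have h2 := (card_Two_le E d H T R).trans
        (Nat.add_le_add_right (card_Two_pairs E d H R) _)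
      have h3 := (Nat.cast_le (α := ℝ)).2 h2
      rw [Nat.cast_add] at h3
      exact h3
    have h2 : ((∑ p ∈ PP E R, BX d H p.1 p.2 : ℕ) : ℝ) * W ≤ C * 2 ^ K * (H : ℝ) ^ (-δ) := by
      have h3 := hC3 H R hH (by omega)
      rw [mul_div_assoc] at h3
      refine h3.trans ?_
      have h4 : (R : ℝ) ^ K ≤ 2 ^ K * (H : ℝ) ^ (1 / 2 : ℝ) := by
        calc (R : ℝ) ^ K ≤ (2 * (H : ℝ) ^ ρ) ^ K :=
              pow_le_pow_left₀ (Nat.cast_nonneg _) hR2 K
          _ = 2 ^ K * (H : ℝ) ^ (1 / 2 : ℝ) := by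
              rw [mul_pow, ← Real.rpow_natCast ((H : ℝ) ^ ρ) K, ← Real.rpow_mul hH0.le]
              congr 2
              rw [hρ]
              field_simp
      have h5 : (H : ℝ) ^ (1 / 2 : ℝ) / (H : ℝ) ^ s ≤ (H : ℝ) ^ (-δ) := by
        calc (H : ℝ) ^ (1 / 2 : ℝ) / (H : ℝ) ^ s ≤ (H : ℝ) ^ (1 / 2 : ℝ) / (H : ℝ) ^ 1 := by
              refine div_le_div_of_nonneg_left (Real.rpow_nonneg hH0.le _) (by positivity) ?_
              exact pow_le_pow_right₀ hHr hs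
          _ = (H : ℝ) ^ (-(1 / 2) : ℝ) := by
              rw [pow_one]
              nth_rewrite 2 [← Real.rpow_one (H : ℝ)]
              rw [← Real.rpow_sub hH0]
              norm_num
          _ ≤ _ := hmono _ hδ1
      calc C * (R : ℝ) ^ K / (H : ℝ) ^ s ≤ C * (2 ^ K * (H : ℝ) ^ (1 / 2 : ℝ)) / (H : ℝ) ^ s :=
            div_le_div_of_nonneg_right (mul_le_mul_of_nonneg_left h4 hC0.le) (by positivity)
        _ = C * 2 ^ K * ((H : ℝ) ^ (1 / 2 : ℝ) / (H : ℝ) ^ s) := by ring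
        _ ≤ _ := mul_le_mul_of_nonneg_left h5 (by positivity)
    have h3 : ((R : ℝ) + 1) ^ (θ - (D : ℝ)) ≤ (H : ℝ) ^ (-δ) := by
      calc ((R : ℝ) + 1) ^ (θ - (D : ℝ)) ≤ ((H : ℝ) ^ ρ) ^ (θ - (D : ℝ)) :=
            Real.rpow_le_rpow_of_nonpos (by linarith) (by linarith) (by linarith)
        _ = (H : ℝ) ^ (-(ρ * ((D : ℝ) - θ))) := by
            rw [← Real.rpow_mul hH0.le]
            congr 1
            ring
        _ ≤ _ := hmono _ hδ2
    have h4 := hfar R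
    have h5 : ((Two E d H T).card : ℝ) * W ≤ C * (2 ^ K + 2) * (H : ℝ) ^ (-δ) := by
      have h6 := mul_le_mul_of_nonneg_right h1 hW0.le
      have h7 := mul_le_mul_of_nonneg_left h3 hC0.le
      nlinarith
    refine (hcancel _ _ (by positivity) h5).trans (le_of_eq ?_)
    ring
  · intro R
    have h1 := hfar R
    have h2 : 0 ≤ ((R : ℝ) + 1) ^ (θ - (D : ℝ)) := Real.rpow_nonneg (by positivity) _
    have h3 : ((Far E d H T R).card : ℝ) * W ≤
        C * (2 ^ K + 2) * (((R : ℝ) + 1) ^ (θ - (D : ℝ)) + (H : ℝ) ^ (-δ)) := by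
      refine h1.trans ?_
      refine mul_le_mul_of_nonneg_right ?_ (by linarith)
      have : (1 : ℝ) ≤ 2 ^ K + 2 := by
        have : (0 : ℝ) < 2 ^ K := by positivity
        linarith
      nlinarith
    refine (hcancel _ _ (by positivity) h3).trans (le_of_eq ?_)
    ring

end Pool.Agent.Helper17.RV
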